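import Pool.Agent.KUR.Lib

/-!
# Squad KUR, module A33
-/

set_option autoImplicit false

namespace Pool.Agent.KUR

open Pool.Agent.ACC

namespace A33_

variable {V : Type}

lemma per_mul {G : SimpleGraph V} {k : ℕ} {u : ℕ → V} {E : ℕ → Set V} (h : Ring G k u E)
    (i q : ℕ) : u (i + q * k) = u i ∧ E (i + q * k) = E i := by
  induction q with
  | zero => simp
  | succ q ih =>
    have e : i + (q + 1) * k = i + q * k + k := by ring
    rw [e, h.per, h.perE]
    exact ih

/-- the intersections of the members of the ring, without reduction modulo `k` -/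
lemma cap' {G : SimpleGraph V} {k : ℕ} {u : ℕ → V} {E : ℕ → Set V} (h : Ring G k u E)
    {i j : ℕ} {z : V} (hij : i < j) (hjk : j < i + k) (hi : z ∈ E i) (hj : z ∈ E j) :
    (z = u j ∧ j = i + 1) ∨ (z = u i ∧ j + 1 = i + k) := by
  have hk : 0 < k := by omega
  obtain ⟨i', q, hi', hiq⟩ : ∃ i' q, i' < k ∧ i = i' + q * k :=
    ⟨i % k, i / k, Nat.mod_lt _ hk, by rw [mul_comm]; exact (Nat.mod_add_div i k).symm⟩
  have hu := per_mul h
  by_cases hc : j < (q + 1) * k
  · -- same block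
    obtain ⟨j', hj', hjq⟩ : ∃ j', j' < k ∧ j = j' + q * k := by
      refine ⟨j - q * k, ?_, ?_⟩
      · have : (q + 1) * k = q * k + k := by ring
        omega
      · omega
    have hlt : i' < j' := by omega
    subst hiq hjq
    rw [(hu i' q).2] at hi
    rw [(hu j' q).2] at hj
    have e1 : j' + q * k + 1 = (j' + 1) + q * k := by ring
    rcases h.cap i' j' z hi' hj' (by omega) hi hj with ⟨h1, h2 | h2⟩ | ⟨h1, h2 | h2⟩
    · left
      refine ⟨?_, by omega⟩
      rw [(hu j' q).1, h2]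
      exact h1
    · omega
    · omega
    · right
      refine ⟨?_, by omega⟩
      rw [(hu i' q).1, h1, ← h2, h.per]
  · obtain ⟨j', hj', hjq⟩ : ∃ j', j' < k ∧ j = j' + (q + 1) * k := by
      refine ⟨j - (q + 1) * k, ?_, ?_⟩
      · have : (q + 1) * k = q * k + k := by ring
        omega
      · omega
    have hq : (q + 1) * k = q * k + k := by ring
    have hlt : j' < i' := by omega
    subst hiq hjq
    rw [(hu i' q).2] at hi
    rw [(hu j' (q + 1)).2] at hj
    rcases h.cap i' j' z hi' hj' (by omega) hi hj with ⟨h1, h2 | h2⟩ | ⟨h1, h2 | h2⟩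
    · omega
    · left
      refine ⟨?_, by omega⟩
      rw [(hu j' (q + 1)).1, h1, ← h2, h.per]
    · right
      refine ⟨?_, by omega⟩
      rw [(hu i' q).1, h1, ← h2]
    · omega

lemma u_ne {G : SimpleGraph V} {k : ℕ} {u : ℕ → V} {E : ℕ → Set V} (h : Ring G k u E)
    {i j : ℕ} (hij : i < j) (hjk : j < i + k) : u i ≠ u j := by
  intro hu
  have hk : 0 < k := by omega
  have h1 : ∀ n, u (n % k) = u n := by
    intro n
    have := (per_mul h (n % k) (n / k)).1
    rw [mul_comm, Nat.mod_add_div] at this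
    exact this.symm
  have h2 : i % k = j % k := h.inj _ _ (Nat.mod_lt _ hk) (Nat.mod_lt _ hk) (by rw [h1, h1, hu])
  have h3 : k ∣ j - i := (Nat.modEq_iff_dvd' hij.le).1 h2
  have := Nat.le_of_dvd (by omega) h3
  omega

/-- the union of the members from `s` to `t` -/
def Fa (E : ℕ → Set V) (s t : ℕ) : Set V := {z | ∃ i, s ≤ i ∧ i < t ∧ z ∈ E i}

/-- the component of `u s` in the arc without `u t` -/
def Da (G : SimpleGraph V) (u : ℕ → V) (E : ℕ → Set V) (s t : ℕ) : Set V :=
  {z | Rch G {w | w ∈ Fa E s t ∧ w ≠ u t} (u s) z}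

lemma Fa_cn {G : SimpleGraph V} {k : ℕ} {u : ℕ → V} {E : ℕ → Set V} (h : Ring G k u E)
    (s t : ℕ) (hst : s < t) : Rch G (Fa E s t) (u s) (u t) := by
  induction t with
  | zero => omega
  | succ t ih =>
    have h2 : Rch G (Fa E s (t + 1)) (u t) (u (t + 1)) :=
      ((h.cn t).rch (h.l t) (h.r t)).mono le_rfl (fun z hz => ⟨t, by omega, by omega, hz⟩)
    by_cases hs : s = t
    · subst hs
      exact h2
    · have h1 := ih (by omega)
      have hsub : Fa E s t ⊆ Fa E s (t + 1) := by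
        rintro z ⟨i, hi1, hi2, hi3⟩
        exact ⟨i, hi1, by omega, hi3⟩
      exact (h1.mono le_rfl hsub).trans h2

lemma start_mem {G : SimpleGraph V} {k : ℕ} {u : ℕ → V} {E : ℕ → Set V} (h : Ring G k u E)
    {s t : ℕ} (hst : s < t) (htk : t < s + k) : u s ∈ {w | w ∈ Fa E s t ∧ w ≠ u t} :=
  ⟨⟨s, le_rfl, hst, h.l s⟩, u_ne h hst htk⟩

lemma Da_start {G : SimpleGraph V} {k : ℕ} {u : ℕ → V} {E : ℕ → Set V} (h : Ring G k u E)
    {s t : ℕ} (hst : s < t) (htk : t < s + k) : u s ∈ Da G u E s t :=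
  Rch.refl G (start_mem h hst htk)

lemma Da_cn {G : SimpleGraph V} {k : ℕ} {u : ℕ → V} {E : ℕ → Set V} (h : Ring G k u E)
    {s t : ℕ} (hst : s < t) (htk : t < s + k) : Cn G (Da G u E s t) :=
  cn_comp (start_mem h hst htk)

lemma Da_sub {G : SimpleGraph V} {u : ℕ → V} {E : ℕ → Set V}
    {s t : ℕ} {z : V} (hz : z ∈ Da G u E s t) : z ∈ Fa E s t ∧ z ≠ u t := by
  have h : Rch G {w | w ∈ Fa E s t ∧ w ≠ u t} (u s) z := hz
  exact h.right

lemma Da_adj {G : SimpleGraph V} {k : ℕ} {u : ℕ → V} {E : ℕ → Set V} (h : Ring G k u E)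
    {s t : ℕ} (hst : s < t) (htk : t < s + k) : ∃ z ∈ Da G u E s t, G.Adj z (u t) := by
  have hnot : u t ∉ Da G u E s t := fun hh => (Da_sub hh).2 rfl
  obtain ⟨p, q, hp, hq, hpF, hqF, hpq, -⟩ :=
    (Fa_cn h s t hst).exit (Da G u E s t) (Da_start h hst htk) hnot
  refine ⟨p, hp, ?_⟩
  have : q = u t := by
    by_contra hne
    exact hq (Rch.trans hp (Rch.of_adj (Da_sub hp) ⟨hqF, hne⟩ hpq))
  rw [← this]
  exact hpq

lemma Da_disj {G : SimpleGraph V} {k : ℕ} {u : ℕ → V} {E : ℕ → Set V} (h : Ring G k u E)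
    {s t p q : ℕ} (_h1 : s < t) (h2 : t ≤ p) (_h3 : p < q) (h4 : q ≤ s + k) :
    Disjoint (Da G u E s t) (Da G u E p q) := by
  rw [Set.disjoint_left]
  intro z hz hz'
  obtain ⟨⟨i, hi1, hi2, hi3⟩, hzt⟩ := Da_sub hz
  obtain ⟨⟨j, hj1, hj2, hj3⟩, hzq⟩ := Da_sub hz'
  rcases cap' h (by omega) (by omega) hi3 hj3 with ⟨h5, h6⟩ | ⟨h5, h6⟩
  · have : j = t := by omega
    exact hzt (by rw [h5, this])
  · have h7 : q = i + k := by omega
    exact hzq (by rw [h5, h7, h.per])

lemma notMem_Da {G : SimpleGraph V} {u : ℕ → V} {E : ℕ → Set V} {x : V}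
    (hx : ∀ i, x ∉ E i) (s t : ℕ) : x ∉ Da G u E s t := by
  intro h
  obtain ⟨⟨i, -, -, hi⟩, -⟩ := Da_sub h
  exact hx i hi

end A33_

open A33_ in
theorem a33_proof : Stmt_A33 := by
  intro V G k u E x y a b c d h hx hy hxy hab hbc hcd hda hxa hyb hxc hyd
  have hbk : b < a + k := by omega
  have hck : c < b + k := by omega
  have hdk : d < c + k := by omega
  have hdd : d < a + k := by omega
  have hak : a + k < d + k := by omega
  have ea : u (a + k) = u a := h.per a
  set D1 := Da G u E a b with hD1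
  set D2 := Da G u E b c with hD2
  set D3 := Da G u E c d with hD3
  set D4 := Da G u E d (a + k) with hD4
  have s1 : u a ∈ D1 := Da_start h hab hbk
  have s2 : u b ∈ D2 := Da_start h hbc hck
  have s3 : u c ∈ D3 := Da_start h hcd hdk
  have s4 : u d ∈ D4 := Da_start h hdd hak
  have c1 : Cn G D1 := Da_cn h hab hbk
  have c2 : Cn G D2 := Da_cn h hbc hck
  have c3 : Cn G D3 := Da_cn h hcd hdk
  have c4 : Cn G D4 := Da_cn h hdd hak
  obtain ⟨z1, hz1, a1⟩ := Da_adj h hab hbk
  obtain ⟨z2, hz2, a2⟩ := Da_adj h hbc hck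
  obtain ⟨z3, hz3, a3⟩ := Da_adj h hcd hdk
  obtain ⟨z4, hz4, a4⟩ := Da_adj h hdd hak
  rw [ea] at a4
  have d12 : Disjoint D1 D2 := Da_disj h hab le_rfl hbc (by omega)
  have d13 : Disjoint D1 D3 := Da_disj h hab hbc.le hcd (by omega)
  have d14 : Disjoint D1 D4 := Da_disj h hab (by omega) hdd (by omega)
  have d23 : Disjoint D2 D3 := Da_disj h hbc le_rfl hcd (by omega)
  have d24 : Disjoint D2 D4 := Da_disj h hbc hcd.le hdd (by omega)
  have d34 : Disjoint D3 D4 := Da_disj h hcd le_rfl hdd (by omega)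
  have nx : ∀ s t, Disjoint (Da G u E s t) {x} := fun s t =>
    Set.disjoint_singleton_right.2 (notMem_Da hx s t)
  have ny : ∀ s t, Disjoint (Da G u E s t) {y} := fun s t =>
    Set.disjoint_singleton_right.2 (notMem_Da hy s t)
  have dxy : Disjoint ({y} : Set V) {x} := by
    rw [Set.disjoint_singleton]
    exact hxy.ne.symm
  refine ⟨![D1, D3, {y}], ![D2, D4, {x}], ?_, ?_, ?_, ?_, ?_, ?_⟩
  · intro i
    fin_cases i
    · exact c1
    · exact c3
    · exact cn_singleton G y
  · intro i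
    fin_cases i
    · exact c2
    · exact c4
    · exact cn_singleton G x
  · intro i j hij
    fin_cases i <;> fin_cases j
    · exact absurd rfl hij
    · exact d13
    · exact ny a b
    · exact d13.symm
    · exact absurd rfl hij
    · exact ny c d
    · exact (ny a b).symm
    · exact (ny c d).symm
    · exact absurd rfl hij
  · intro i j hij
    fin_cases i <;> fin_cases j
    · exact absurd rfl hij
    · exact d24
    · exact nx b c
    · exact d24.symm
    · exact absurd rfl hij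
    · exact nx d (a + k)
    · exact (nx b c).symm
    · exact (nx d (a + k)).symm
    · exact absurd rfl hij
  · intro i j
    fin_cases i <;> fin_cases j
    · exact d12
    · exact d14
    · exact nx a b
    · exact d23.symm
    · exact d34
    · exact nx c d
    · exact (ny b c).symm
    · exact (ny d (a + k)).symm
    · exact dxy
  · intro i j
    fin_cases i <;> fin_cases j
    · exact ⟨z1, hz1, u b, s2, a1⟩
    · exact ⟨u a, s1, z4, hz4, a4.symm⟩
    · exact ⟨u a, s1, x, rfl, hxa.symm⟩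
    · exact ⟨u c, s3, z2, hz2, a2.symm⟩
    · exact ⟨z3, hz3, u d, s4, a3⟩
    · exact ⟨u c, s3, x, rfl, hxc.symm⟩
    · exact ⟨y, rfl, u b, s2, hyb⟩
    · exact ⟨y, rfl, u d, s4, hyd⟩
    · exact ⟨y, rfl, x, rfl, hxy.symm⟩

end Pool.Agent.KUR
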