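import Pool.Agent.KUR.Lib

/-!
# Squad KUR, module ARC: two subsets of a cycle without alternation
-/

set_option autoImplicit false

namespace Pool.Agent.KUR

open Pool.Agent.ACC

namespace ARC_

lemma perq {k : ℕ} {A : ℕ → Prop} (hA : ∀ i, A (i + k) ↔ A i) (q i : ℕ) :
    A (i + k * q) ↔ A i := by
  induction q with
  | zero => simp
  | succ q ih =>
    have e : i + k * (q + 1) = (i + k * q) + k := by ring
    rw [e, hA, ih]

lemma resid {k : ℕ} {A : ℕ → Prop} (hk : 1 ≤ k) (hA : ∀ i, A (i + k) ↔ A i) (n m : ℕ)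
    (h : A m) : A (n + (m + k * n - n) % k) := by
  have h1 : n ≤ k * n := Nat.le_mul_of_pos_left n hk
  have h2 := Nat.mod_add_div (m + k * n - n) k
  have h3 : m + k * n = (n + (m + k * n - n) % k) + k * ((m + k * n - n) / k) := by omega
  have h4 : A (m + k * n) := (perq hA n m).mpr h
  rw [h3] at h4
  exact (perq hA _ _).mp h4

lemma gap {k : ℕ} {A : ℕ → Prop} (hk : 1 ≤ k) (hA : ∀ i, A (i + k) ↔ A i)
    (h2 : ∃ i j, i < j ∧ j < i + k ∧ A i ∧ A j) {b : ℕ} (hb : k ≤ b) (hAb : ¬ A b) :
    ∃ a c, a < b ∧ b < c ∧ c < a + k ∧ A a ∧ A c ∧ ∀ i, a < i → i < c → ¬ A i := by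
  classical
  obtain ⟨i0, j0, h01, h02, hi0, hj0⟩ := h2
  -- the next element
  have hex : ∃ c, b < c ∧ A c := by
    have h1 := resid hk hA (b + 1) i0 hi0
    exact ⟨_, by omega, h1⟩
  -- an element in the window before b
  obtain ⟨a0, ha0, ha0b, hAa0⟩ : ∃ a0, b - k ≤ a0 ∧ a0 < b ∧ A a0 := by
    have h1 := resid hk hA (b - k) i0 hi0
    have h3 := Nat.mod_lt (i0 + k * (b - k) - (b - k)) hk
    exact ⟨_, by omega, by omega, h1⟩
  obtain ⟨hc1, hc2⟩ := Nat.find_spec hex
  have hmin : ∀ i, b < i → i < Nat.find hex → ¬ A i := fun i hi hi' hAi =>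
    Nat.find_min hex hi' ⟨hi, hAi⟩
  set c := Nat.find hex with hc
  have ha1 : A (Nat.findGreatest A (b - 1)) :=
    Nat.findGreatest_spec (P := A) (n := b - 1) (m := a0) (by omega) hAa0
  have ha2 : Nat.findGreatest A (b - 1) ≤ b - 1 := Nat.findGreatest_le _
  have ha3 : ∀ i, Nat.findGreatest A (b - 1) < i → i ≤ b - 1 → ¬ A i := fun i hi hi' =>
    Nat.findGreatest_is_greatest hi hi'
  have ha4 : a0 ≤ Nat.findGreatest A (b - 1) :=
    Nat.le_findGreatest (by omega) hAa0
  set a := Nat.findGreatest A (b - 1) with ha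
  have hno : ∀ i, a < i → i < c → ¬ A i := by
    intro i hi hi'
    rcases lt_trichotomy i b with h | h | h
    · exact ha3 i hi (by omega)
    · rw [h]; exact hAb
    · exact hmin i h hi'
  refine ⟨a, c, by omega, hc1, ?_, ha1, hc2, hno⟩
  by_contra hcon
  have key : ∀ m, A m → (m + k * a - a) % k = 0 := by
    intro m hm
    by_contra hne
    have h1 := resid hk hA a m hm
    have h3 := Nat.mod_lt (m + k * a - a) hk
    exact hno _ (by omega) (by omega) h1
  have hdi := Nat.dvd_of_mod_eq_zero (key i0 hi0)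
  have hdj := Nat.dvd_of_mod_eq_zero (key j0 hj0)
  have hd := Nat.dvd_sub hdj hdi
  have hka : a ≤ k * a := Nat.le_mul_of_pos_left a hk
  have he : j0 + k * a - a - (i0 + k * a - a) = j0 - i0 := by omega
  rw [he] at hd
  have := Nat.le_of_dvd (by omega) hd
  omega

end ARC_

open ARC_ in
theorem arc_proof : Stmt_ARC := by
  intro k A B hk hA hB hAB h2A h2B hno
  by_cases h1 : ∃ b, B b ∧ ¬ A b
  · left
    obtain ⟨b, hb, hAb⟩ := h1
    have hb' : B (b + k) := (hB b).mpr hb
    have hAb' : ¬ A (b + k) := fun h => hAb ((hA b).mp h)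
    obtain ⟨a, c, hab, hbc, hca, hAa, hAc, hgap⟩ := gap hk hA h2A (by omega : k ≤ b + k) hAb'
    refine ⟨c, a + k, hca, by omega, ?_, ?_⟩
    · intro i hi hi' hAi
      by_contra hcon
      push Not at hcon
      have e : i = (i - k) + k := by omega
      have h3 : A (i - k) := by
        rw [e] at hAi
        exact (hA _).mp hAi
      exact hgap (i - k) (by omega) (by omega) h3
    · intro i hi hi' hBi
      by_contra hcon
      push Not at hcon
      exact hno ⟨c, i, a + k, b + k + k, by omega, by omega, by omega, by omega, hAc, hBi,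
        (hA a).mpr hAa, (hB _).mpr hb'⟩
  · by_cases h2 : ∃ a, A a ∧ ¬ B a
    · left
      obtain ⟨a, ha, hBa⟩ := h2
      have ha' : A (a + k) := (hA a).mpr ha
      have hBa' : ¬ B (a + k) := fun h => hBa ((hB a).mp h)
      obtain ⟨b1, b2, h1b, h2b, h3b, hB1, hB2, hgap⟩ := gap hk hB h2B (by omega : k ≤ a + k) hBa'
      refine ⟨b1, b2, by omega, h3b, ?_, ?_⟩
      · intro i hi hi' hAi
        by_contra hcon
        push Not at hcon
        exact hno ⟨a + k, b2, i, b1 + k, by omega, by omega, by omega, by omega, ha', hB2, hAi,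
          (hB _).mpr hB1⟩
      · intro i hi hi' hBi
        by_contra hcon
        push Not at hcon
        exact hgap i (by omega) (by omega) hBi
    · push Not at h1 h2
      have hall : ∀ i, A i ∧ B i := by
        intro i
        rcases hAB i with h | h
        · exact ⟨h, h2 i h⟩
        · exact ⟨h1 i h, h⟩
      obtain ⟨i, j, hij, hji, _, _⟩ := h2A
      have hk2 : 2 ≤ k := by omega
      rcases Nat.lt_or_ge k 3 with hk3 | hk3
      · left
        refine ⟨0, 1, by omega, by omega, ?_, ?_⟩
        · intro i _ _ _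
          omega
        · intro i _ _ _
          omega
      · rcases Nat.lt_or_ge k 4 with hk4 | hk4
        · right
          exact ⟨by omega, hall⟩
        · exact absurd ⟨0, 1, 2, 3, by omega, by omega, by omega, by omega, (hall 0).1, (hall 1).2,
            (hall 2).1, (hall 3).2⟩ hno

end Pool.Agent.KUR
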