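import Pool.Agent.KUR.Lib

/-!
Squad KUR, module CMP: compactness (an ultrafilter on the finite sets of vertices).
-/

set_option autoImplicit false

namespace Pool.Agent.KUR

open Pool.Agent.ACC

namespace CMP_

theorem pick {V α : Type} (U : Ultrafilter (Finset V)) (f : Finset V → α) (F : Set α)
    (hF : F.Finite) (h : ∀ᶠ S in (U : Filter (Finset V)), f S ∈ F) :
    ∃ a ∈ F, ∀ᶠ S in (U : Filter (Finset V)), f S = a := by
  have h1 : (⋃ a ∈ F, {S | f S = a}) ∈ U := by
    refine Filter.mem_of_superset h ?_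
    intro S hS
    have hS' : f S ∈ F := hS
    simp only [Set.mem_iUnion]
    exact ⟨f S, hS', rfl⟩
  rw [Ultrafilter.finite_biUnion_mem_iff hF] at h1
  obtain ⟨a, ha, h2⟩ := h1
  exact ⟨a, ha, h2⟩

theorem rot_exists {V : Type} (P : SimpleGraph V) (hLF : LocFin P) (R : Finset V → Rot V)
    (hRP : ∀ S, (R S).P = rst P (S : Set V)) (U : Ultrafilter (Finset V))
    (hU : ∀ S0 : Finset V, ∀ᶠ S in (U : Filter (Finset V)), S0 ⊆ S) :
    ∃ R' : Rot V, R'.P = P ∧
      ∀ x y, P.Adj x y → ∀ᶠ S in (U : Filter (Finset V)), (R S).nx x y = R'.nx x y := by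
  classical
  have hadj : ∀ (S : Finset V) x y, (R S).P.Adj x y ↔ x ∈ S ∧ y ∈ S ∧ P.Adj x y := by
    intro S x y
    rw [hRP S, rst_adj]
    simp
  have hnx : ∀ x y, ∃ v, P.Adj x y → (P.Adj x v ∧
      ∀ᶠ S in (U : Filter (Finset V)), (R S).nx x y = v) := by
    intro x y
    by_cases hxy : P.Adj x y
    · have := pick U (fun S => (R S).nx x y) (P.neighborSet x) (hLF x) (by
        filter_upwards [hU {x, y}] with S hS
        have hx : x ∈ S := hS (by simp)
        have hy : y ∈ S := hS (by simp)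
        have h1 := (R S).nx_adj x y ((hadj S x y).2 ⟨hx, hy, hxy⟩)
        exact ((hadj S _ _).1 h1).2.2)
      obtain ⟨v, hv, h2⟩ := this
      exact ⟨v, fun _ => ⟨hv, h2⟩⟩
    · exact ⟨x, fun h => absurd h hxy⟩
  choose nx hnx using hnx
  refine ⟨⟨P, nx, fun x y h => (hnx x y h).1, ?_⟩, rfl, fun x y h => (hnx x y h).2⟩
  intro x y y' hy hy'
  have h1 : ∀ᶠ S in (U : Filter (Finset V)), ∀ v ∈ (hLF x).toFinset, (R S).nx x v = nx x v := by
    rw [Filter.eventually_all_finset]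
    intro v hv
    exact (hnx x v (by simpa using hv)).2
  obtain ⟨S, hS1, hS2⟩ := (h1.and (hU (insert x (hLF x).toFinset))).exists
  have hx : x ∈ S := hS2 (by simp)
  have hyS : ∀ v, P.Adj x v → v ∈ S := fun v hv => hS2 (by simp [hv])
  obtain ⟨n, hn⟩ := (R S).cyc x y y' ((hadj S x y).2 ⟨hx, hyS y hy, hy⟩)
    ((hadj S x y').2 ⟨hx, hyS y' hy', hy'⟩)
  refine ⟨n, ?_⟩
  rw [← hn]
  have key : ∀ m : ℕ, (nx x)^[m] y = ((R S).nx x)^[m] y ∧ P.Adj x ((nx x)^[m] y) := by
    intro m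
    induction m with
    | zero => exact ⟨rfl, hy⟩
    | succ m ih =>
      rw [Function.iterate_succ_apply', Function.iterate_succ_apply', ← ih.1]
      refine ⟨(hS1 _ (by simpa using ih.2)).symm, (hnx x _ ih.2).1⟩
  exact (key n).1

end CMP_

theorem cmp_proof : Stmt_CMP := by
  classical
  intro V P hLF h
  choose R hRP hR using h
  have hadj : ∀ (S : Finset V) x y, (R S).P.Adj x y ↔ x ∈ S ∧ y ∈ S ∧ P.Adj x y := by
    intro S x y
    rw [hRP S, rst_adj]
    simp
  let U : Ultrafilter (Finset V) := Ultrafilter.of Filter.atTop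
  have hU : ∀ S0 : Finset V, ∀ᶠ S in (U : Filter (Finset V)), S0 ⊆ S := fun S0 =>
    Ultrafilter.of_le Filter.atTop (Filter.eventually_ge_atTop S0)
  obtain ⟨R', hR'P, hR'⟩ := CMP_.rot_exists P hLF R hRP U hU
  refine ⟨R', hR'P, ?_⟩
  intro j hj
  rw [hR'P] at hj
  have hev : ∀ᶠ S in (U : Filter (Finset V)), EvenF (R S).P j := by
    filter_upwards [hU (hj.fin.toFinset.image Prod.fst)] with S hS
    refine ⟨hj.symm, ?_, hj.fin, hj.even⟩
    intro x y hxy
    rw [hadj]
    refine ⟨?_, ?_, hj.supp x y hxy⟩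
    · apply hS
      rw [Finset.mem_image]
      exact ⟨(x, y), by simpa using hxy, rfl⟩
    · apply hS
      rw [Finset.mem_image]
      exact ⟨(y, x), by rw [hj.symm] at hxy; simpa using hxy, rfl⟩
  have hc : ∀ S, ∃ c, EvenF (R S).P j → ((R S).Inv c ∧
      ∀ x y, (R S).P.Adj x y → c x y + c y x = j x y) := by
    intro S
    by_cases hS : EvenF (R S).P j
    · obtain ⟨c, hc⟩ := hR S j hS
      exact ⟨c, fun _ => hc⟩
    · exact ⟨fun _ _ => 0, fun h => absurd h hS⟩
  choose c hc using hc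
  have hd : ∀ x y, ∃ a : ZMod 2, ∀ᶠ S in (U : Filter (Finset V)), c S x y = a := by
    intro x y
    obtain ⟨a, -, ha⟩ := CMP_.pick U (fun S => c S x y) Set.univ Set.finite_univ
      (Filter.Eventually.of_forall (fun _ => Set.mem_univ _))
    exact ⟨a, ha⟩
  choose d hd using hd
  refine ⟨d, ?_, ?_⟩
  · intro x y hxy
    rw [hR'P] at hxy
    obtain ⟨S, h1, h2, h3, h4, h5⟩ := ((hd y (R'.nx y x)).and ((hd x y).and
      ((hR' y x hxy.symm).and (hev.and (hU {x, y}))))).exists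
    have hx : x ∈ S := h5 (by simp)
    have hy : y ∈ S := h5 (by simp)
    have := (hc S h4).1 x y ((hadj S x y).2 ⟨hx, hy, hxy⟩)
    rw [← h1, ← h2, ← h3]
    exact this
  · intro x y hxy
    rw [hR'P] at hxy
    obtain ⟨S, h1, h2, h4, h5⟩ := ((hd x y).and ((hd y x).and
      (hev.and (hU {x, y})))).exists
    have hx : x ∈ S := h5 (by simp)
    have hy : y ∈ S := h5 (by simp)
    have := (hc S h4).2 x y ((hadj S x y).2 ⟨hx, hy, hxy⟩)
    rw [← h1, ← h2]
    exact this

end Pool.Agent.KUR
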