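import Pool.Agent.KUR.Lib

/-!
Squad KUR, module CTR: the induction step in the 3-connected case.
-/

set_option autoImplicit false

namespace Pool.Agent.KUR

open Pool.Agent.ACC

namespace CTR_

variable {V : Type}

theorem rchK {G : SimpleGraph V} {x y : V} (hxy : x ≠ y) {S T : Set V} {u v : V}
    (h : Rch G S u v) (hS : ∀ w ∈ S, w ≠ y ∧ w ∈ T) : Rch (contr G x y) T u v := by
  have key : v ∈ {w | w ≠ y ∧ Rch (contr G x y) T u w} := by
    refine h.closed _ ⟨(hS u h.left).1, Rch.refl _ (hS u h.left).2⟩ ?_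
    rintro a ⟨hay, ha⟩ b hb hab
    refine ⟨(hS b hb).1, ha.trans (Rch.of_adj ha.right (hS b hb).2 ?_)⟩
    rw [contr_adj G hxy]
    exact ⟨hab.ne, hay, (hS b hb).1, Or.inl hab⟩
  exact key.2

theorem cnG {G : SimpleGraph V} {x y : V} (hxy : x ≠ y) {S : Set V}
    (h : Cn (contr G x y) S) (hx : x ∉ S) : Cn G S := by
  refine ⟨h.1, fun a ha b hb => ?_⟩
  have h1 := h.rch ha hb
  have key : b ∈ {w | Rch G S a w} := by
    refine h1.closed _ (Rch.refl _ ha) ?_
    intro c hc d hd hcd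
    have hc' : Rch G S a c := hc
    rw [contr_adj G hxy] at hcd
    obtain ⟨_, _, _, h2 | ⟨h2, _⟩ | ⟨h2, _⟩⟩ := hcd
    · exact hc'.trans (Rch.of_adj hc'.right hd h2)
    · exact absurd (h2 ▸ hc'.right) hx
    · exact absurd (h2 ▸ hd) hx
  exact key

theorem iter_inj (R : Rot V) {x a b : V} (ha : R.P.Adj x a) (hb : R.P.Adj x b) (r : ℕ)
    (h : (R.nx x)^[r] a = (R.nx x)^[r] b) : a = b := by
  induction r with
  | zero => exact h
  | succ r ih =>
    rw [Function.iterate_succ_apply', Function.iterate_succ_apply'] at h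
    exact ih (nx_inj R (nx_iter_adj R ha r) (nx_iter_adj R hb r) h)

theorem iter_mod {f : V → V} {k : ℕ} {b : V} (hk : f^[k] b = b) (n : ℕ) :
    f^[n % k] b = f^[n] b := by
  have h2 : ∀ q : ℕ, f^[k * q] b = b := by
    intro q
    induction q with
    | zero => simp
    | succ q ih => rw [Nat.mul_succ, Function.iterate_add_apply, hk, ih]
  conv_rhs => rw [← Nat.mod_add_div n k]
  rw [Function.iterate_add_apply, h2]

end CTR_

open CTR_ in
theorem ctr_proof (hCYC : Stmt_CYC) (hFAC : Stmt_FAC) (hUNC : Stmt_UNC) (hSUB : Stmt_SUB)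
    (hA33 : Stmt_A33) (hA5 : Stmt_A5) (hARC : Stmt_ARC) : Stmt_CTR := by
  intro V G S x y hS hxyA hplan hx2 hy2 hconn
  have hxy : x ≠ y := hxyA.ne
  obtain ⟨R, hRP, hPl⟩ := hplan
  have hK : ∀ u v, R.P.Adj u v ↔
      u ≠ v ∧ u ≠ y ∧ v ≠ y ∧ (G.Adj u v ∨ (u = x ∧ G.Adj y v) ∨ (v = x ∧ G.Adj y u)) := by
    intro u v
    rw [hRP]
    exact contr_adj G hxy u v
  have hxS : x ∈ S := hS x y hxyA
  have hKS : ∀ u v, R.P.Adj u v → u ∈ S := by
    intro u v h
    obtain ⟨_, _, _, h2 | ⟨h2, _⟩ | ⟨_, h2⟩⟩ := (hK u v).1 h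
    · exact hS u v h2
    · rw [h2]; exact hxS
    · exact hS u y h2.symm
  have hxN : ∀ v, G.Adj x v → v ≠ y → R.P.Adj x v := fun v h hv =>
    (hK x v).2 ⟨h.ne, hxy, hv, Or.inl h⟩
  have hyN : ∀ v, G.Adj y v → v ≠ x → R.P.Adj x v := fun v h hv =>
    (hK x v).2 ⟨hv.symm, hxy, h.ne.symm, Or.inr (Or.inl ⟨rfl, h⟩)⟩
  have hyI : ∀ z, ¬ R.P.Adj y z := fun z h => ((hK y z).1 h).2.1 rfl
  obtain ⟨u0, u1, hu01, hu0y, hu1y, hxu0, hxu1⟩ := hx2
  obtain ⟨v0, v1, hv01, hv0x, hv1x, hyv0, hyv1⟩ := hy2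
  have hA0 : R.P.Adj x u0 := hxN u0 hxu0 hu0y
  obtain ⟨k, hk1, hper, hinj, hall⟩ := hCYC V R x u0 hA0
  -- the face sets
  obtain ⟨F, hF1, hF2, hF3⟩ := hFAC V R x hPl
    (by
      refine (Set.Finite.prod S.finite_toSet S.finite_toSet).subset ?_
      rintro ⟨p, q⟩ hpq
      exact ⟨hKS p q hpq, hKS q p (SimpleGraph.Adj.symm hpq)⟩)
    (by
      intro u v hu hv
      have hu' := (hK x u).1 hu
      have hv' := (hK x v).1 hv
      have h1 := hconn x u (hKS u x hu.symm) v (hKS v x hv.symm) hu'.1.symm hu'.2.2.1 hu'.1.symm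
        hv'.1.symm hv'.2.2.1 hv'.1.symm
      rw [hRP]
      refine rchK hxy h1 ?_
      rintro w ⟨_, hwx, hwy, _⟩
      exact ⟨hwy, hwx⟩)
    (by
      intro z hzx u v hu hv hux hvx
      have hu' := (hK z u).1 hu
      have hv' := (hK z v).1 hv
      have h1 := hconn z u (hKS u z hu.symm) v (hKS v z hv.symm) hux hu'.2.2.1 hu'.1.symm
        hvx hv'.2.2.1 hv'.1.symm
      rw [hRP]
      refine rchK hxy h1 ?_
      rintro w ⟨_, hwx, hwy, hwz⟩
      refine ⟨hwy, ?_⟩
      simp only [Set.mem_compl_iff, Set.mem_insert_iff, Set.mem_singleton_iff, not_or]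
      exact ⟨hwx, hwz⟩)
  -- the ring
  let u : ℕ → V := fun i => (R.nx x)^[i] u0
  let E : ℕ → Set V := fun i => F (u (i + 1))
  have huA : ∀ i, R.P.Adj x (u i) := fun i => nx_iter_adj R hA0 i
  have hsucc : ∀ i, u (i + 1) = R.nx x (u i) := fun i => Function.iterate_succ_apply' _ _ _
  have huper : ∀ i, u (i + k) = u i := by
    intro i
    show (R.nx x)^[i + k] u0 = (R.nx x)^[i] u0
    rw [Function.iterate_add_apply, hper]
  have hstep : ∀ i j, u (i + 1) = u (j + 1) → u i = u j := by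
    intro i j h
    rw [hsucc, hsucc] at h
    exact nx_inj R (huA i) (huA j) h
  have hcapA : ∀ i j, i < k → j < k → u (j + 1) = u (i + 2) → (j = i + 1 ∨ j + k = i + 1) := by
    intro i j hi hj h
    have h1 : u j = u (i + 1) := hstep j (i + 1) h
    by_cases hik : i + 1 < k
    · exact Or.inl (hinj j (i + 1) hj hik h1)
    · have hik' : i + 1 = 0 + k := by omega
      rw [hik', huper] at h1
      have h2 : j = 0 := hinj j 0 hj (by omega) h1
      exact Or.inr (by omega)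
  have hring : Ring G k u E := by
    refine ⟨huper, ?_, ?_, ?_, ?_, ?_, ?_⟩
    · intro i
      show F (u (i + k + 1)) = F (u (i + 1))
      have : u (i + k + 1) = u (i + 1) := by
        rw [hsucc, hsucc, huper]
      rw [this]
    · exact hinj
    · intro i
      have h1 := hF1 (u (i + 1)) (huA (i + 1))
      have h2 := h1.1
      rw [hRP] at h2
      exact cnG hxy h2 h1.2.1
    · intro i
      show u i ∈ F (u (i + 1))
      rw [hsucc]
      exact hF2 (u i) (huA i)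
    · intro i
      exact (hF1 (u (i + 1)) (huA (i + 1))).2.2
    · intro i j z hi hj hij hz1 hz2
      have hne : u (i + 1) ≠ u (j + 1) := by
        intro h
        exact hij (hinj i j hi hj (hstep i j h))
      rcases hF3 (u (i + 1)) (u (j + 1)) z (huA _) (huA _) hne hz1 hz2 with ⟨h1, h2⟩ | ⟨h1, h2⟩
      · left
        refine ⟨h1, hcapA i j hi hj ?_⟩
        rw [h2, h1, ← hsucc]
      · right
        refine ⟨h1, hcapA j i hj hi ?_⟩
        rw [h2, h1, ← hsucc]
  have hxE : ∀ i, x ∉ E i := fun i => (hF1 (u (i + 1)) (huA (i + 1))).2.1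
  have hyE : ∀ i, y ∉ E i := by
    intro i hy
    have h1 := hF1 (u (i + 1)) (huA (i + 1))
    have h2 := h1.1.rch hy h1.2.2
    have h3 : u (i + 1) ∈ ({y} : Set V) := by
      refine h2.closed {y} rfl ?_
      intro a ha b _ hab
      rw [Set.mem_singleton_iff] at ha
      rw [ha] at hab
      exact absurd hab (hyI b)
    exact ((hK x (u (i + 1))).1 (huA (i + 1))).2.2.1 h3
  have hAB : ∀ i, G.Adj x (u i) ∨ G.Adj y (u i) := by
    intro i
    obtain ⟨h0, _, _, h2 | ⟨_, h2⟩ | ⟨h2, _⟩⟩ := (hK x (u i)).1 (huA i)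
    · exact Or.inl h2
    · exact Or.inr h2
    · exact absurd h2.symm h0
  have htwo : ∀ (Q : V → Prop) (a b : V), a ≠ b → R.P.Adj x a → R.P.Adj x b → Q a → Q b →
      ∃ i j, i < j ∧ j < i + k ∧ Q (u i) ∧ Q (u j) := by
    intro Q a b hab ha hb hQa hQb
    obtain ⟨i, hi, hia⟩ := hall a ha
    obtain ⟨j, hj, hjb⟩ := hall b hb
    have hij : i ≠ j := by
      intro h
      apply hab
      rw [← hia, ← hjb, h]
    rcases Nat.lt_or_gt_of_ne hij with h | h
    · refine ⟨i, j, h, by omega, ?_, ?_⟩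
      · show Q ((R.nx x)^[i] u0)
        rw [hia]; exact hQa
      · show Q ((R.nx x)^[j] u0)
        rw [hjb]; exact hQb
    · refine ⟨j, i, h, by omega, ?_, ?_⟩
      · show Q ((R.nx x)^[j] u0)
        rw [hjb]; exact hQb
      · show Q ((R.nx x)^[i] u0)
        rw [hia]; exact hQa
  by_cases halt : ∃ a b c d, a < b ∧ b < c ∧ c < d ∧ d < a + k ∧ G.Adj x (u a) ∧ G.Adj y (u b) ∧
      G.Adj x (u c) ∧ G.Adj y (u d)
  · obtain ⟨a, b, c, d, h1, h2, h3, h4, h5, h6, h7, h8⟩ := halt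
    exact Or.inr (Or.inl (hA33 V G k u E x y a b c d hring hxE hyE hxyA h1 h2 h3 h4 h5 h6 h7 h8))
  rcases hARC k (fun i => G.Adj x (u i)) (fun i => G.Adj y (u i)) hk1
    (fun i => by show G.Adj x (u (i + k)) ↔ G.Adj x (u i); rw [huper])
    (fun i => by show G.Adj y (u (i + k)) ↔ G.Adj y (u i); rw [huper])
    hAB
    (htwo (fun v => G.Adj x v) u0 u1 hu01 hA0 (hxN u1 hxu1 hu1y) hxu0 hxu1)
    (htwo (fun v => G.Adj y v) v0 v1 hv01 (hyN v0 hyv0 hv0x) (hyN v1 hyv1 hv1x) hyv0 hyv1)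
    halt with ⟨r, s, hrs, hsk, hAr, hBr⟩ | ⟨hk3, hall3⟩
  · -- two arcs
    left
    have hadd : ∀ i, (R.nx x)^[i] (u r) = u (r + i) := by
      intro i
      show (R.nx x)^[i] ((R.nx x)^[r] u0) = (R.nx x)^[r + i] u0
      rw [← Function.iterate_add_apply, Nat.add_comm]
    have hperr : (R.nx x)^[k] (u r) = u r := by
      rw [hadd, huper]
    have hpl := hUNC V R x y (u r) k (s - r) hPl (huA r) hxy hyI hperr
      (by
        intro i j hi hj h
        apply hinj i j hi hj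
        have h' : (R.nx x)^[r] (u i) = (R.nx x)^[r] (u j) := by
          show (R.nx x)^[r] ((R.nx x)^[i] u0) = (R.nx x)^[r] ((R.nx x)^[j] u0)
          rw [← Function.iterate_add_apply, ← Function.iterate_add_apply]
          rw [hadd, hadd] at h
          exact h
        exact iter_inj R (huA i) (huA j) r h')
      (by omega) (by omega)
    refine hSUB V _ G ?_ hpl
    -- representation of the neighbours
    have hrep : ∀ b, R.P.Adj x b → ∃ n, n < k ∧ b = (R.nx x)^[n] (u r) := by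
      intro b hb
      obtain ⟨n, hn⟩ := R.cyc x (u r) b (huA r) hb
      exact ⟨n % k, Nat.mod_lt _ hk1, by rw [iter_mod hperr, hn]⟩
    have hxb : ∀ b, G.Adj x b → b ≠ y → b ∈ {v | ∃ i, i ≤ s - r ∧ v = (R.nx x)^[i] (u r)} := by
      intro b hb hby
      obtain ⟨n, hn, hbn⟩ := hrep b (hxN b hb hby)
      refine ⟨n, ?_, hbn⟩
      have h1 : G.Adj x (u (r + n)) := by
        rw [← hadd, ← hbn]; exact hb
      rcases hAr (r + n) (by omega) (by omega) h1 with h | h
      · omega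
      · omega
    have hyb : ∀ b, G.Adj y b → b ≠ x →
        b ∈ {v | ∃ i, s - r ≤ i ∧ i ≤ k ∧ v = (R.nx x)^[i] (u r)} := by
      intro b hb hbx
      obtain ⟨n, hn, hbn⟩ := hrep b (hyN b hb hbx)
      have h1 : G.Adj y (u (r + n)) := by
        rw [← hadd, ← hbn]; exact hb
      rcases hBr (r + n) (by omega) (by omega) h1 with h | h
      · exact ⟨n, by omega, by omega, hbn⟩
      · refine ⟨k, by omega, le_rfl, ?_⟩
        have hn0 : n = 0 := by omega
        rw [hbn, hn0, hperr]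
        rfl
    have key : ∀ a b, G.Adj a b → ((a ≠ x ∧ a ≠ y ∧ b ≠ x ∧ b ≠ y ∧ R.P.Adj a b) ∨
        (a = x ∧ b ∈ {v | ∃ i, i ≤ s - r ∧ v = (R.nx x)^[i] (u r)}) ∨
        (a = y ∧ b ∈ {v | ∃ i, s - r ≤ i ∧ i ≤ k ∧ v = (R.nx x)^[i] (u r)}) ∨
        (a = x ∧ b = y)) ∨ ((b ≠ x ∧ b ≠ y ∧ a ≠ x ∧ a ≠ y ∧ R.P.Adj b a) ∨
        (b = x ∧ a ∈ {v | ∃ i, i ≤ s - r ∧ v = (R.nx x)^[i] (u r)}) ∨
        (b = y ∧ a ∈ {v | ∃ i, s - r ≤ i ∧ i ≤ k ∧ v = (R.nx x)^[i] (u r)}) ∨
        (b = x ∧ a = y)) := by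
      intro a b hab
      by_cases hax : a = x
      · subst hax
        by_cases hby : b = y
        · exact Or.inl (Or.inr (Or.inr (Or.inr ⟨rfl, hby⟩)))
        · exact Or.inl (Or.inr (Or.inl ⟨rfl, hxb b hab hby⟩))
      by_cases hbx : b = x
      · subst hbx
        by_cases hay : a = y
        · exact Or.inr (Or.inr (Or.inr (Or.inr ⟨rfl, hay⟩)))
        · exact Or.inr (Or.inr (Or.inl ⟨rfl, hxb a hab.symm hay⟩))
      by_cases hay : a = y
      · subst hay
        exact Or.inl (Or.inr (Or.inr (Or.inl ⟨rfl, hyb b hab hbx⟩)))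
      by_cases hby : b = y
      · subst hby
        exact Or.inr (Or.inr (Or.inr (Or.inl ⟨rfl, hyb a hab.symm hax⟩)))
      · exact Or.inl (Or.inl ⟨hax, hay, hbx, hby, (hK a b).2 ⟨hab.ne, hay, hby, Or.inl hab⟩⟩)
    intro a b hab
    rw [splitG, SimpleGraph.fromRel_adj]
    exact ⟨hab.ne, key a b hab⟩
  · right
    right
    subst hk3
    exact hA5 V G u E x y hring hxE hyE hxyA (fun i => hall3 i)

end Pool.Agent.KUR
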