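import Pool.Agent.KUR.Lib

/-!
Squad KUR, module CYC: enumeration of the neighbours by the rotation.
-/

set_option autoImplicit false

namespace Pool.Agent.KUR

open Pool.Agent.ACC

namespace CYC_

/-- iteration modulo a period -/
theorem iter_mod {V : Type} (f : V → V) {u : V} {k : ℕ} (hk : f^[k] u = u) (n : ℕ) :
    f^[n % k] u = f^[n] u := by
  have h1 : ∀ q : ℕ, f^[k * q] u = u := by
    intro q
    induction q with
    | zero => rfl
    | succ q ih =>
      rw [Nat.mul_succ, Function.iterate_add_apply, hk, ih]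
  conv_rhs => rw [← Nat.mod_add_div n k]
  rw [Function.iterate_add_apply, h1]

end CYC_

open CYC_ in
theorem cyc_proof : Stmt_CYC := by
  classical
  intro V R x u hxu
  have hex : ∃ k : ℕ, 1 ≤ k ∧ (R.nx x)^[k] u = u := by
    obtain ⟨n, hn⟩ := R.cyc x (R.nx x u) u (R.nx_adj x u hxu) hxu
    refine ⟨n + 1, by omega, ?_⟩
    rw [Function.iterate_succ_apply]
    exact hn
  obtain ⟨k, ⟨hk1, hk2⟩, hmin⟩ : ∃ k : ℕ, (1 ≤ k ∧ (R.nx x)^[k] u = u) ∧
      ∀ m, m < k → ¬ (1 ≤ m ∧ (R.nx x)^[m] u = u) :=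
    ⟨Nat.find hex, Nat.find_spec hex, fun m hm => Nat.find_min hex hm⟩
  have hlt : ∀ i j, i < j → j < k → (R.nx x)^[i] u = (R.nx x)^[j] u → False := by
    intro i j hij hjk h
    have h1 : (R.nx x)^[(k - j) + i] u = (R.nx x)^[(k - j) + j] u := by
      rw [Function.iterate_add_apply, Function.iterate_add_apply, h]
    have h2 : (k - j) + j = k := by omega
    rw [h2, hk2] at h1
    exact hmin ((k - j) + i) (by omega) ⟨by omega, h1⟩
  refine ⟨k, hk1, hk2, ?_, ?_⟩
  · intro i j hi hj h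
    rcases lt_trichotomy i j with h1 | h1 | h1
    · exact (hlt i j h1 hj h).elim
    · exact h1
    · exact (hlt j i h1 hi h.symm).elim
  · intro v hv
    obtain ⟨n, hn⟩ := R.cyc x u v hxu hv
    exact ⟨n % k, Nat.mod_lt _ (by omega), by rw [iter_mod _ hk2, hn]⟩

end Pool.Agent.KUR
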