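import Pool.Agent.KUR.Lib

set_option autoImplicit false

namespace Pool.Agent.KUR

open Pool.Agent.ACC

namespace DEL_

variable {V : Type}

open Classical in
/-- skip the neighbour `d` of `u` -/
noncomputable def sk (R : Rot V) (u d v : V) : V := if R.nx u v = d then R.nx u d else R.nx u v

theorem sk_adj (R : Rot V) {u d v : V} (hd : R.P.Adj u d) (hv : R.P.Adj u v) (hvd : v ≠ d) :
    R.P.Adj u (sk R u d v) ∧ sk R u d v ≠ d := by
  unfold sk
  split_ifs with h
  · refine ⟨R.nx_adj _ _ hd, fun h1 => hvd (nx_inj R hv hd ?_)⟩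
    rw [h, h1]
  · exact ⟨R.nx_adj _ _ hv, h⟩

theorem sk_closed (R : Rot V) {u d y z : V} (T : Set V) (hd : R.P.Adj u d) (hy : R.P.Adj u y)
    (hz : R.P.Adj u z) (hyd : y ≠ d) (hzd : z ≠ d) (hyT : y ∈ T)
    (hT : ∀ v ∈ T, R.P.Adj u v → v ≠ d → sk R u d v ∈ T) : z ∈ T := by
  by_cases h : ∃ v0 ∈ T, R.P.Adj u v0 ∧ v0 ≠ d ∧ R.nx u v0 = d
  · obtain ⟨v0, hv0, ha, hne, hnx⟩ := h
    have h1 : R.nx u d ∈ T := by
      have := hT v0 hv0 ha hne
      unfold sk at this
      rwa [if_pos hnx] at this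
    have h2 : z ∈ T ∪ {d} := by
      refine nx_closed R (T ∪ {d}) hy hz (Or.inl hyT) ?_
      intro v hv hav
      by_cases hvd : v = d
      · rw [hvd]; exact Or.inl h1
      · rcases hv with hv | hv
        · by_cases h3 : R.nx u v = d
          · exact Or.inr h3
          · have := hT v hv hav hvd
            unfold sk at this
            rw [if_neg h3] at this
            exact Or.inl this
        · exact absurd hv hvd
    rcases h2 with h2 | h2
    · exact h2
    · exact absurd h2 hzd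
  · push Not at h
    have h2 : d ∈ T ∩ {w | w ≠ d} := by
      refine nx_closed R _ hy hd ⟨hyT, hyd⟩ ?_
      rintro v ⟨hv, hvd⟩ hav
      have h3 := h v hv hav hvd
      have := hT v hv hav hvd
      unfold sk at this
      rw [if_neg h3] at this
      exact ⟨this, h3⟩
    exact absurd rfl h2.2

/-- the graph without the edge -/
def P' (R : Rot V) (x b : V) : SimpleGraph V where
  Adj u v := R.P.Adj u v ∧ ¬ (u = x ∧ v = b) ∧ ¬ (u = b ∧ v = x)
  symm := ⟨fun _ _ h => ⟨h.1.symm, fun h1 => h.2.2 ⟨h1.2, h1.1⟩, fun h1 => h.2.1 ⟨h1.2, h1.1⟩⟩⟩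
  loopless := ⟨fun _ h => R.P.loopless.irrefl _ h.1⟩

open Classical in
noncomputable def nx' (R : Rot V) (x b u v : V) : V :=
  if u = x then sk R x b v else if u = b then sk R b x v else R.nx u v

theorem nx'_adj (R : Rot V) {x b : V} (hxb : R.P.Adj x b) (u v : V) (h : (P' R x b).Adj u v) :
    (P' R x b).Adj u (nx' R x b u v) := by
  obtain ⟨h1, h2, h3⟩ := h
  unfold nx'
  have hne : x ≠ b := hxb.ne
  split_ifs with hx hb
  · subst hx
    have h4 := sk_adj R hxb h1 (fun h => h2 ⟨rfl, h⟩)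
    exact ⟨h4.1, fun h => h4.2 h.2, fun h => hne h.1⟩
  · subst hb
    have h4 := sk_adj R hxb.symm h1 (fun h => h3 ⟨rfl, h⟩)
    exact ⟨h4.1, fun h => hx h.1, fun h => h4.2 h.2⟩
  · exact ⟨R.nx_adj _ _ h1, fun h => hx h.1, fun h => hb h.1⟩

theorem nx'_closed (R : Rot V) {x b : V} (hxb : R.P.Adj x b) (u y z : V) (T : Set V)
    (hy : (P' R x b).Adj u y) (hz : (P' R x b).Adj u z) (hyT : y ∈ T)
    (hT : ∀ v ∈ T, (P' R x b).Adj u v → nx' R x b u v ∈ T) : z ∈ T := by
  obtain ⟨y1, y2, y3⟩ := hy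
  obtain ⟨z1, z2, z3⟩ := hz
  have hne : x ≠ b := hxb.ne
  by_cases hx : u = x
  · subst hx
    refine sk_closed R T hxb y1 z1 (fun h => y2 ⟨rfl, h⟩) (fun h => z2 ⟨rfl, h⟩) hyT ?_
    intro v hv hav hvb
    have := hT v hv ⟨hav, fun h => hvb h.2, fun h => hne h.1⟩
    unfold nx' at this
    rwa [if_pos rfl] at this
  · by_cases hb : u = b
    · subst hb
      refine sk_closed R T hxb.symm y1 z1 (fun h => y3 ⟨rfl, h⟩) (fun h => z3 ⟨rfl, h⟩) hyT ?_
      intro v hv hav hvb
      have := hT v hv ⟨hav, fun h => hx h.1, fun h => hvb h.2⟩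
      unfold nx' at this
      rwa [if_neg hx, if_pos rfl] at this
    · refine nx_closed R T y1 z1 hyT ?_
      intro v hv hav
      have := hT v hv ⟨hav, fun h => hx h.1, fun h => hb h.1⟩
      unfold nx' at this
      rwa [if_neg hx, if_neg hb] at this

end DEL_

open DEL_ in
theorem del_proof : Stmt_DEL := by
  classical
  intro V R x b hP hxb
  have hne : x ≠ b := hxb.ne
  refine ⟨mkRot (P' R x b) (nx' R x b) (nx'_adj R hxb) (nx'_closed R hxb), ?_, ?_, ?_, ?_⟩
  · intro j hj
    have hle : P' R x b ≤ R.P := fun u v h => h.1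
    obtain ⟨c, hc, hcj⟩ := hP j (EvenF.mono hj hle)
    have hj0 : j x b = 0 := by
      by_contra h
      exact (hj.supp x b h).2.1 ⟨rfl, rfl⟩
    have hxb' : c x b = c b x := by
      apply zeq_of_add
      rw [hcj x b hxb, hj0]
    refine ⟨c, ?_, fun u v huv => hcj u v huv.1⟩
    intro v u hvu
    change c u (nx' R x b u v) = c v u
    have hvu' : R.P.Adj v u := hvu.1
    have h0 := hc v u hvu'
    unfold nx' sk
    split_ifs with h1 h2 h3 h4
    · subst h1
      rw [h2] at h0
      have h5 := hc b u hxb.symm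
      rw [h5, ← hxb', h0]
    · subst h1; exact h0
    · subst h3
      rw [h4] at h0
      have h5 := hc x u hxb
      rw [h5, hxb', h0]
    · subst h3; exact h0
    · exact h0
  · intro u v
    exact Iff.rfl
  · intro v hv hvb hnx
    change nx' R x b x v = _
    unfold nx' sk
    rw [if_pos rfl, if_neg hnx]
  · intro v hv hvb hnx
    change nx' R x b x v = _
    unfold nx' sk
    rw [if_pos rfl, if_pos hnx]

end Pool.Agent.KUR
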