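import Pool.Agent.KUR.Lib

/-!
# Squad KUR, module FAC: the face sets around a vertex
-/

set_option autoImplicit false

namespace Pool.Agent.KUR

open Pool.Agent.ACC

namespace FAC_

variable {V : Type}

lemma it_adj (R : Rot V) {d : V × V} (hd : R.P.Adj d.1 d.2) (n : ℕ) :
    R.P.Adj ((fc R)^[n] d).1 ((fc R)^[n] d).2 := by
  induction n with
  | zero => exact hd
  | succ n ih => rw [Function.iterate_succ_apply']; exact fc_adj R ih

lemma it_inv {R : Rot V} {c : V → V → ZMod 2} (hc : R.Inv c) {d : V × V}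
    (hd : R.P.Adj d.1 d.2) (n : ℕ) :
    c ((fc R)^[n] d).1 ((fc R)^[n] d).2 = c d.1 d.2 := by
  induction n with
  | zero => rfl
  | succ n ih =>
    rw [Function.iterate_succ_apply', inv_fc hc (it_adj R hd n), ih]

/-- cancellation -/
lemma it_cancel (R : Rot V) {d e : V × V} (hd : R.P.Adj d.1 d.2) (he : R.P.Adj e.1 e.2) (n : ℕ)
    (h : (fc R)^[n] d = (fc R)^[n] e) : d = e := by
  induction n with
  | zero => exact h
  | succ n ih =>
    rw [Function.iterate_succ_apply', Function.iterate_succ_apply'] at h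
    exact ih (fc_inj R (it_adj R hd n) (it_adj R he n) h)

/-- periodicity -/
lemma per (R : Rot V) (hfin : {p : V × V | R.P.Adj p.1 p.2}.Finite) {d : V × V}
    (hd : R.P.Adj d.1 d.2) : ∃ n : ℕ, 1 ≤ n ∧ (fc R)^[n] d = d := by
  have hmap : Set.MapsTo (fun n : ℕ => (fc R)^[n] d) Set.univ {p : V × V | R.P.Adj p.1 p.2} :=
    fun n _ => it_adj R hd n
  obtain ⟨i, _, j, _, hij, h⟩ := Set.infinite_univ.exists_ne_map_eq_of_mapsTo hmap hfin
  have key : ∀ i j : ℕ, i < j → (fc R)^[i] d = (fc R)^[j] d →
      ∃ n : ℕ, 1 ≤ n ∧ (fc R)^[n] d = d := by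
    intro i j hij h
    refine ⟨j - i, by omega, ?_⟩
    have e : j = i + (j - i) := by omega
    rw [e, Function.iterate_add_apply] at h
    exact (it_cancel R hd (it_adj R hd _) i h).symm
  rcases lt_or_gt_of_ne hij with h1 | h1
  · exact key i j h1 h
  · exact key j i h1 h.symm

/-- the orbit relation is symmetric -/
lemma back (R : Rot V) (hfin : {p : V × V | R.P.Adj p.1 p.2}.Finite) {d : V × V}
    (hd : R.P.Adj d.1 d.2) (n : ℕ) : ∃ m : ℕ, (fc R)^[m] ((fc R)^[n] d) = d := by
  obtain ⟨k, hk, h⟩ := per R hfin hd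
  have hmul : ∀ q : ℕ, (fc R)^[k * q] d = d := by
    intro q
    induction q with
    | zero => rfl
    | succ q ih => rw [Nat.mul_succ, Function.iterate_add_apply, h, ih]
  refine ⟨k * n - n, ?_⟩
  rw [← Function.iterate_add_apply]
  have : k * n - n + n = k * n := Nat.sub_add_cancel (Nat.le_mul_of_pos_left n hk)
  rw [this, hmul]

/-- the face set of the dart `(x, u)` -/
def F (R : Rot V) (x u : V) : Set V :=
  {z | ∃ n, 1 ≤ n ∧ (∀ m, 1 ≤ m → m ≤ n → ((fc R)^[m] (x, u)).1 ≠ x) ∧
    ((fc R)^[n] (x, u)).1 = z}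

lemma mem_self (R : Rot V) {x u : V} (h : R.P.Adj x u) : u ∈ F R x u := by
  refine ⟨1, le_refl 1, ?_, rfl⟩
  intro m h1 h2
  have : m = 1 := by omega
  subst this
  exact h.symm.ne

lemma notMem (R : Rot V) (x u : V) : x ∉ F R x u := by
  rintro ⟨n, h1, h2, h3⟩
  exact h2 n h1 le_rfl h3

lemma conn (R : Rot V) {x u : V} (h : R.P.Adj x u) : Cn R.P (F R x u) := by
  refine cn_of_rch (x := u) (mem_self R h) ?_
  rintro y ⟨n, h1, h2, rfl⟩
  induction n with
  | zero => omega
  | succ n ih =>
    by_cases hn : n = 0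
    · subst hn
      exact Rch.refl _ (mem_self R h)
    · have hn1 : 1 ≤ n := by omega
      have h3 := ih hn1 (fun m hm hmn => h2 m hm (by omega))
      refine h3.trans (Rch.of_adj h3.right ⟨n + 1, h1, h2, rfl⟩ ?_)
      rw [Function.iterate_succ_apply']
      exact it_adj R (d := (x, u)) h n

end FAC_

open FAC_ in
theorem fac_proof (h1 : Stmt_VIS) (h2 : Stmt_CYC) : Stmt_FAC := by
  intro V R x hPl hfin hx hz
  -- Step 1
  have step1 : ∀ u v, R.P.Adj x u → R.P.Adj x v → ∀ n, (fc R)^[n] (x, u) = (x, v) → u = v := by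
    intro u v hu hv n hn
    by_contra hne
    obtain ⟨k, hk1, hk2, hk3, hk4⟩ := h2 V R x u hu
    obtain ⟨m, hm, hmv⟩ := hk4 v hv
    have hm0 : 0 < m := by
      rcases Nat.eq_zero_or_pos m with h | h
      · subst h
        exact absurd hmv hne
      · exact h
    have := h1 V R x u ∅ k m hPl hu (Set.notMem_empty x) hk2 hk3 hm0 hm (by
      intro c hc _
      rw [hmv]
      have := it_inv hc (d := (x, u)) hu n
      rw [hn] at this
      exact this.symm) 0 m hm0 le_rfl hm (Set.notMem_empty _) (Set.notMem_empty _)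
    rw [Set.empty_union, hmv] at this
    exact this (hx u v hu hv)
  -- Step 3, the final case
  have fin3 : ∀ u v z n n', R.P.Adj x u → R.P.Adj x v → (fc R)^[n] (x, u) = (z, x) → 1 ≤ n' →
      (fc R)^[n'] (x, v) = (z, R.nx z x) → z = v ∧ u = R.nx x z := by
    intro u v z n n' hu hv hn hn1 hn'
    have hzx : R.P.Adj z x := by
      have := it_adj R (d := (x, u)) hu n
      rw [hn] at this
      exact this
    constructor
    · obtain ⟨q, rfl⟩ : ∃ q, n' = q + 1 := ⟨n' - 1, by omega⟩
      rw [Function.iterate_succ_apply'] at hn'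
      have h3 : (fc R)^[q] (x, v) = (x, z) :=
        fc_inj R (it_adj R (d := (x, v)) hv q) (e := (x, z)) hzx.symm hn'
      exact (step1 v z hv hzx.symm q h3).symm
    · refine step1 u (R.nx x z) hu (R.nx_adj x z hzx.symm) (n + 1) ?_
      rw [Function.iterate_succ_apply', hn]
      rfl
  refine ⟨F R x, fun u hu => ⟨conn R hu, notMem R x u, mem_self R hu⟩, ?_, ?_⟩
  · -- Step 2
    intro a ha
    set u := R.nx x a with hudef
    have hu : R.P.Adj x u := R.nx_adj x a ha
    have hex : ∃ N, 1 ≤ N ∧ ((fc R)^[N] (x, u)).1 = x := by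
      obtain ⟨N, hN, h⟩ := per R hfin (d := (x, u)) hu
      exact ⟨N, hN, by rw [h]⟩
    classical
    have hN := Nat.find_spec hex
    have hmin : ∀ m, m < Nat.find hex → ¬ (1 ≤ m ∧ ((fc R)^[m] (x, u)).1 = x) :=
      fun m hm => Nat.find_min hex hm
    set N := Nat.find hex with hNdef
    have hN2 : 2 ≤ N := by
      by_contra hlt
      have : N = 1 := by omega
      rw [this] at hN
      exact hu.ne hN.2.symm
    obtain ⟨q, hq⟩ : ∃ q, N = q + 1 := ⟨N - 1, by omega⟩
    have hqN := hN.2
    rw [hq, Function.iterate_succ_apply'] at hqN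
    have hadjq := it_adj R (d := (x, u)) hu q
    have hw2 : ((fc R)^[q] (x, u)).2 = x := hqN
    have hwx : R.P.Adj ((fc R)^[q] (x, u)).1 x := by rw [hw2] at hadjq; exact hadjq
    have hfN : (fc R)^[q + 1] (x, u) = (x, R.nx x ((fc R)^[q] (x, u)).1) := by
      rw [Function.iterate_succ_apply']
      show (((fc R)^[q] (x, u)).2, R.nx ((fc R)^[q] (x, u)).2 ((fc R)^[q] (x, u)).1) = _
      rw [hw2]
    have h3 := step1 u _ hu (R.nx_adj x _ hwx.symm) (q + 1) hfN
    have h4 : a = ((fc R)^[q] (x, u)).1 := nx_inj R ha hwx.symm h3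
    refine ⟨q, by omega, ?_, h4.symm⟩
    intro m hm hmq hmx
    exact hmin m (by omega) ⟨hm, hmx⟩
  · -- Step 3
    intro u v z hu hv huv hzu hzv
    have hzx : z ≠ x := by
      rintro rfl
      exact notMem R z u hzu
    obtain ⟨n, hn1, -, hnz⟩ := hzu
    obtain ⟨n', hn1', -, hnz'⟩ := hzv
    obtain ⟨p, hp⟩ : ∃ p, (fc R)^[n] (x, u) = (z, p) :=
      ⟨((fc R)^[n] (x, u)).2, by rw [← hnz]⟩
    obtain ⟨p', hp'⟩ : ∃ p', (fc R)^[n'] (x, v) = (z, p') :=
      ⟨((fc R)^[n'] (x, v)).2, by rw [← hnz']⟩
    have hzp : R.P.Adj z p := by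
      have := it_adj R (d := (x, u)) hu n
      rw [hp] at this
      exact this
    have hzp' : R.P.Adj z p' := by
      have := it_adj R (d := (x, v)) hv n'
      rw [hp'] at this
      exact this
    have hpp : p ≠ p' := by
      rintro rfl
      obtain ⟨m, hm⟩ := back R hfin (d := (x, v)) hv n'
      refine huv (step1 u v hu hv (m + n) ?_)
      rw [Function.iterate_add_apply, hp, ← hp', hm]
    obtain ⟨k, hk1, hk2, hk3, hk4⟩ := h2 V R z p hzp
    obtain ⟨m, hm, hmp⟩ := hk4 p' hzp'
    have hm0 : 0 < m := by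
      rcases Nat.eq_zero_or_pos m with h | h
      · subst h
        exact absurd hmp hpp
      · exact h
    have hcol : ∀ c, R.Inv c → (∀ y ∈ ({x} : Set V), ∀ w, R.P.Adj y w → c y w = c w y) →
        c z p = c z ((R.nx z)^[m] p) := by
      intro c hc hcx
      rw [hmp]
      have e1 := it_inv hc (d := (x, u)) hu n
      have e2 := it_inv hc (d := (x, v)) hv n'
      rw [hp] at e1
      rw [hp'] at e2
      have e3 : c x v = c x u := by
        refine nx_closed R (x := x) (y := u) (z := v) {y | c x y = c x u} hu hv rfl ?_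
        intro y hy hxy
        show c x (R.nx x y) = c x u
        rw [hc y x hxy.symm, ← hcx x rfl y hxy]
        exact hy
      exact e1.trans (e3.symm.trans e2.symm)
    have hvis := h1 V R z p {x} k m hPl hzp (by simpa using hzx) hk2 hk3 hm0 hm hcol
    have hdis : ∀ i l, i < m → m ≤ l → l < k → (R.nx z)^[i] p = x ∨ (R.nx z)^[l] p = x := by
      intro i l hi hl hlk
      by_contra hcon
      push Not at hcon
      refine hvis i l hi hl hlk (by simpa using hcon.1) (by simpa using hcon.2) ?_
      have := hz z hzx _ _ (nx_iter_adj R hzp i) (nx_iter_adj R hzp l) hcon.1 hcon.2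
      rw [Set.singleton_union]
      exact this
    by_cases hpx : p = x
    · -- p = x
      have hpx' : p' ≠ x := fun h => hpp (hpx.trans h.symm)
      have hm1 : m = 1 := by
        by_contra hne
        have h3 := hdis 1 m (by omega) le_rfl hm
        rw [hmp] at h3
        rcases h3 with h3 | h3
        · have : (R.nx z)^[1] p = (R.nx z)^[0] p := by
            rw [h3]; exact hpx.symm
          have := hk3 1 0 (by omega) (by omega) this
          omega
        · exact hpx' h3
      right
      subst hm1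
      have hp2 : p' = R.nx z x := by rw [← hmp, hpx]; rfl
      rw [hpx] at hp
      rw [hp2] at hp'
      exact fin3 u v z n n' hu hv hp hn1' hp'
    · -- p' = x
      have hall : ∀ l, m ≤ l → l < k → (R.nx z)^[l] p = x := by
        intro l hl hlk
        rcases hdis 0 l hm0 hl hlk with h | h
        · exact absurd h hpx
        · exact h
      have hpx' : p' = x := by rw [← hmp]; exact hall m le_rfl hm
      have hkm : k = m + 1 := by
        by_contra hne
        have h3 := hall m le_rfl hm
        have h4 := hall (m + 1) (by omega) (by omega)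
        have := hk3 m (m + 1) hm (by omega) (h3.trans h4.symm)
        omega
      left
      have hp2 : p = R.nx z x := by
        rw [hkm, Function.iterate_succ_apply', hmp, hpx'] at hk2
        exact hk2.symm
      rw [hpx'] at hp'
      rw [hp2] at hp
      exact fin3 v u z n' n hv hu hp' hn1 hp

end Pool.Agent.KUR
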