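import Pool.Agent.KUR.Lib

set_option autoImplicit false

namespace Pool.Agent.KUR

open Pool.Agent.ACC

namespace GL1_

variable {V : Type}

theorem noboth {P Q : SimpleGraph V} {x : V} (h : ∀ a b c, P.Adj a b → Q.Adj a c → a = x)
    {u v : V} (h1 : P.Adj u v) (h2 : Q.Adj u v) : False := by
  have e1 := h u v v h1 h2
  have e2 := h v u u h1.symm h2.symm
  rw [e1, e2] at h1
  exact P.loopless.irrefl _ h1

/-- handshake -/
theorem handshake (j : V → V → ZMod 2) (hs : ∀ u v, j u v = j v u) (hd : ∀ u, j u u = 0)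
    (S : Finset V) : ∑ u ∈ S, ∑ v ∈ S, j u v = 0 := by
  classical
  rw [← Finset.sum_product']
  apply Finset.sum_involution (fun p _ => (p.2, p.1))
  · rintro ⟨u, v⟩ _
    simp only
    rw [hs v u]
    exact zadd_self _
  · rintro ⟨u, v⟩ _ hne heq
    simp only [Prod.mk.injEq] at heq
    simp only at hne
    rw [heq.1] at hne
    exact hne (hd _)
  · rintro ⟨u, v⟩ hp
    rw [Finset.mem_product] at hp ⊢
    exact ⟨hp.2, hp.1⟩
  · rintro ⟨u, v⟩ _
    rfl

open Classical in
/-- the `P` part of `j` -/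
noncomputable def part (P : SimpleGraph V) (j : V → V → ZMod 2) : V → V → ZMod 2 :=
  fun u v => if P.Adj u v then j u v else 0

theorem part_pos {P : SimpleGraph V} {j : V → V → ZMod 2} {u v : V} (h : P.Adj u v) :
    part P j u v = j u v := by
  unfold part
  rw [if_pos h]

theorem part_neg {P : SimpleGraph V} {j : V → V → ZMod 2} {u v : V} (h : ¬ P.Adj u v) :
    part P j u v = 0 := by
  unfold part
  rw [if_neg h]

theorem part_even {P Q : SimpleGraph V} {x : V} (h : ∀ a b c, P.Adj a b → Q.Adj a c → a = x)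
    {j : V → V → ZMod 2} (hj : EvenF (P ⊔ Q) j) : EvenF P (part P j) := by
  classical
  have hs : ∀ u v, part P j u v = part P j v u := by
    intro u v
    by_cases h1 : P.Adj u v
    · rw [part_pos h1, part_pos h1.symm, hj.symm]
    · rw [part_neg h1, part_neg (fun h2 => h1 h2.symm)]
  have hsupp : ∀ u v, part P j u v ≠ 0 → P.Adj u v := by
    intro u v h1
    by_contra h2
    exact h1 (part_neg h2)
  have hfin : {p : V × V | part P j p.1 p.2 ≠ 0}.Finite := by
    refine hj.fin.subset ?_
    intro p hp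
    have hp' : part P j p.1 p.2 ≠ 0 := hp
    show j p.1 p.2 ≠ 0
    rw [part_pos (hsupp _ _ hp')] at hp'
    exact hp'
  have hev : ∀ u, u ≠ x → ∑ᶠ v, part P j u v = 0 := by
    intro u hu
    by_cases h1 : ∃ w, P.Adj u w
    · obtain ⟨w, hw⟩ := h1
      have h2 : (fun v => part P j u v) = fun v => j u v := by
        funext v
        by_cases h3 : P.Adj u v
        · exact part_pos h3
        · rw [part_neg h3]
          by_contra h4
          have h5 := hj.supp u v (fun h6 => h4 h6.symm)
          rw [SimpleGraph.sup_adj] at h5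
          rcases h5 with h5 | h5
          · exact h3 h5
          · exact hu (h u w v hw h5)
      rw [h2]
      exact hj.even u
    · push Not at h1
      have h2 : (fun v => part P j u v) = fun _ => 0 := by
        funext v
        exact part_neg (h1 v)
      rw [h2]
      exact finsum_zero
  refine ⟨hs, hsupp, hfin, ?_⟩
  intro u
  by_cases hu : u = x
  swap
  · exact hev u hu
  subst hu
  set S : Finset V := insert u (hfin.toFinset.image Prod.fst) with hS
  have hmem : ∀ a b, part P j a b ≠ 0 → a ∈ S ∧ b ∈ S := by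
    intro a b hab
    rw [hS]
    constructor
    · refine Finset.mem_insert_of_mem (Finset.mem_image.mpr ⟨(a, b), ?_, rfl⟩)
      rw [Set.Finite.mem_toFinset]
      exact hab
    · refine Finset.mem_insert_of_mem (Finset.mem_image.mpr ⟨(b, a), ?_, rfl⟩)
      rw [Set.Finite.mem_toFinset]
      show part P j b a ≠ 0
      rw [hs b a]
      exact hab
  have hsum : ∀ a, ∑ᶠ v, part P j a v = ∑ v ∈ S, part P j a v := by
    intro a
    apply finsum_eq_sum_of_support_subset
    intro v hv
    exact Finset.mem_coe.mpr (hmem a v hv).2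
  have hh := handshake (part P j) hs (fun a => part_neg (P.loopless.irrefl a)) S
  have huS : u ∈ S := Finset.mem_insert_self _ _
  rw [Finset.sum_eq_single_of_mem u huS] at hh
  · rw [hsum u]
    exact hh
  · intro b _ hb
    rw [← hsum b]
    exact hev b hb

/-- the common part of the two cases -/
theorem glue (RP RQ R : Rot V) (x : V) (k : (V → V → ZMod 2) → (V → V → ZMod 2) → ZMod 2)
    (h : ∀ a b c, RP.P.Adj a b → RQ.P.Adj a c → a = x) (hP : PlE RP) (hQ : PlE RQ)
    (hR : R.P = RP.P ⊔ RQ.P)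
    (hk : ∀ c1 c2, RP.Inv c1 → RQ.Inv c2 → ∀ u v, R.P.Adj u v →
      (RP.P.Adj u v → (RP.P.Adj v (R.nx v u) ∧ c1 v (R.nx v u) = c1 u v) ∨
        (RQ.P.Adj v (R.nx v u) ∧ c2 v (R.nx v u) + k c1 c2 = c1 u v)) ∧
      (RQ.P.Adj u v → (RP.P.Adj v (R.nx v u) ∧ c1 v (R.nx v u) = c2 u v + k c1 c2) ∨
        (RQ.P.Adj v (R.nx v u) ∧ c2 v (R.nx v u) = c2 u v))) :
    PlE R := by
  classical
  intro j hj
  rw [hR] at hj
  have hj1 := part_even h hj
  have hj2 : EvenF RQ.P (part RQ.P j) :=
    part_even (x := x) (fun a b c h1 h2 => h a c b h2 h1) (by rw [sup_comm]; exact hj)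
  obtain ⟨c1, hc1, hb1⟩ := hP _ hj1
  obtain ⟨c2, hc2, hb2⟩ := hQ _ hj2
  have hpos : ∀ u v, RP.P.Adj u v →
      (if RP.P.Adj u v then c1 u v else c2 u v + k c1 c2) = c1 u v := fun u v h1 => if_pos h1
  have hneg : ∀ u v, RQ.P.Adj u v →
      (if RP.P.Adj u v then c1 u v else c2 u v + k c1 c2) = c2 u v + k c1 c2 :=
    fun u v h1 => if_neg (fun h2 => noboth h h2 h1)
  refine ⟨fun u v => if RP.P.Adj u v then c1 u v else c2 u v + k c1 c2, ?_, ?_⟩
  · intro u v huv
    have hkk := hk c1 c2 hc1 hc2 u v huv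
    simp only
    rw [hR, SimpleGraph.sup_adj] at huv
    rcases huv with huv | huv
    · rw [hpos u v huv]
      rcases hkk.1 huv with ⟨h1, h2⟩ | ⟨h1, h2⟩
      · rw [hpos _ _ h1]
        exact h2
      · rw [hneg _ _ h1]
        exact h2
    · rw [hneg u v huv]
      rcases hkk.2 huv with ⟨h1, h2⟩ | ⟨h1, h2⟩
      · rw [hpos _ _ h1]
        exact h2
      · rw [hneg _ _ h1, h2]
  · intro u v huv
    simp only
    rw [hR, SimpleGraph.sup_adj] at huv
    rcases huv with huv | huv
    · rw [hpos u v huv, hpos v u huv.symm, hb1 u v huv, part_pos huv]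
    · rw [hneg u v huv, hneg v u huv.symm, ← part_pos (j := j) huv, ← hb2 u v huv]
      have h3 := zadd_self (k c1 c2)
      calc c2 u v + k c1 c2 + (c2 v u + k c1 c2) = c2 u v + c2 v u + (k c1 c2 + k c1 c2) := by
            ring
        _ = c2 u v + c2 v u := by rw [h3, add_zero]

/-- disjoint union -/
theorem disj (RP RQ : Rot V) (hP : PlE RP) (hQ : PlE RQ)
    (h : ∀ a b c, RP.P.Adj a b → RQ.P.Adj a c → False) : Plan (RP.P ⊔ RQ.P) := by
  classical
  by_cases hV : Nonempty V
  swap
  · refine ⟨mkRot (RP.P ⊔ RQ.P) (fun u v => v) (fun x => (hV ⟨x⟩).elim)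
      (fun x => (hV ⟨x⟩).elim), rfl, ?_⟩
    intro j _
    exact ⟨fun _ _ => 0, fun x => (hV ⟨x⟩).elim, fun x => (hV ⟨x⟩).elim⟩
  obtain ⟨x⟩ := hV
  set f : V → V → V := fun u v => if RP.P.Adj u v then RP.nx u v else RQ.nx u v with hf
  have fP : ∀ u v, RP.P.Adj u v → f u v = RP.nx u v := fun u v h1 => if_pos h1
  have fQ : ∀ u v, RQ.P.Adj u v → f u v = RQ.nx u v := fun u v h1 =>
    if_neg (fun h2 => h u v v h2 h1)
  have h1 : ∀ u v, (RP.P ⊔ RQ.P).Adj u v → (RP.P ⊔ RQ.P).Adj u (f u v) := by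
    intro u v huv
    rw [SimpleGraph.sup_adj] at huv ⊢
    rcases huv with huv | huv
    · left
      rw [fP u v huv]
      exact RP.nx_adj u v huv
    · right
      rw [fQ u v huv]
      exact RQ.nx_adj u v huv
  have h2 : ∀ u y z (T : Set V), (RP.P ⊔ RQ.P).Adj u y → (RP.P ⊔ RQ.P).Adj u z → y ∈ T →
      (∀ v ∈ T, (RP.P ⊔ RQ.P).Adj u v → f u v ∈ T) → z ∈ T := by
    intro u y z T hy hz hyT hT
    rw [SimpleGraph.sup_adj] at hy hz
    rcases hy with hy | hy
    · rcases hz with hz | hz
      · refine nx_closed RP T hy hz hyT (fun v hv huv => ?_)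
        rw [← fP u v huv]
        exact hT v hv (by rw [SimpleGraph.sup_adj]; exact Or.inl huv)
      · exact (h u y z hy hz).elim
    · rcases hz with hz | hz
      · exact (h u z y hz hy).elim
      · refine nx_closed RQ T hy hz hyT (fun v hv huv => ?_)
        rw [← fQ u v huv]
        exact hT v hv (by rw [SimpleGraph.sup_adj]; exact Or.inr huv)
  refine ⟨mkRot (RP.P ⊔ RQ.P) f h1 h2, rfl, ?_⟩
  refine glue RP RQ _ x (fun _ _ => 0) (fun a b c h3 h4 => (h a b c h3 h4).elim) hP hQ rfl ?_
  intro c1 c2 hc1 hc2 u v _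
  refine ⟨fun huv => Or.inl ?_, fun huv => Or.inr ?_⟩
  · have e : (mkRot (RP.P ⊔ RQ.P) f h1 h2).nx v u = RP.nx v u := fP v u huv.symm
    rw [e]
    exact ⟨RP.nx_adj v u huv.symm, hc1 u v huv⟩
  · have e : (mkRot (RP.P ⊔ RQ.P) f h1 h2).nx v u = RQ.nx v u := fQ v u huv.symm
    rw [e]
    exact ⟨RQ.nx_adj v u huv.symm, hc2 u v huv⟩

/-- gluing at a vertex with neighbours on both sides -/
theorem main (RP RQ : Rot V) (x a b : V) (hP : PlE RP) (hQ : PlE RQ)
    (h : ∀ a b c, RP.P.Adj a b → RQ.P.Adj a c → a = x) (ha : RP.P.Adj x a)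
    (hb : RQ.P.Adj x b) : Plan (RP.P ⊔ RQ.P) := by
  classical
  set f : V → V → V := fun u v => if u = x ∧ v = a then RQ.nx x b else
    if u = x ∧ v = b then RP.nx x a else
    if RP.P.Adj u v then RP.nx u v else RQ.nx u v with hf
  have hnot : ∀ u v, RQ.P.Adj u v → ¬ RP.P.Adj u v := fun u v h1 h2 => noboth h h2 h1
  have fa : f x a = RQ.nx x b := if_pos ⟨rfl, rfl⟩
  have hba : b ≠ a := by
    intro e
    rw [e] at hb
    exact hnot x a hb ha
  have fb : f x b = RP.nx x a := by
    show (if x = x ∧ b = a then RQ.nx x b else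
      if x = x ∧ b = b then RP.nx x a else
      if RP.P.Adj x b then RP.nx x b else RQ.nx x b) = RP.nx x a
    rw [if_neg (fun h => hba h.2), if_pos ⟨rfl, rfl⟩]
  have fP : ∀ u v, RP.P.Adj u v → ¬ (u = x ∧ v = a) → f u v = RP.nx u v := by
    intro u v h1 h2
    have h3 : ¬ (u = x ∧ v = b) := by
      rintro ⟨e1, e2⟩
      rw [e1, e2] at h1
      exact hnot x b hb h1
    show (if u = x ∧ v = a then RQ.nx x b else
      if u = x ∧ v = b then RP.nx x a else
      if RP.P.Adj u v then RP.nx u v else RQ.nx u v) = RP.nx u v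
    rw [if_neg h2, if_neg h3, if_pos h1]
  have fQ : ∀ u v, RQ.P.Adj u v → ¬ (u = x ∧ v = b) → f u v = RQ.nx u v := by
    intro u v h1 h2
    have h3 : ¬ (u = x ∧ v = a) := by
      rintro ⟨e1, e2⟩
      rw [e1, e2] at h1
      exact hnot x a h1 ha
    show (if u = x ∧ v = a then RQ.nx x b else
      if u = x ∧ v = b then RP.nx x a else
      if RP.P.Adj u v then RP.nx u v else RQ.nx u v) = RQ.nx u v
    rw [if_neg h3, if_neg h2, if_neg (hnot u v h1)]
  have h1 : ∀ u v, (RP.P ⊔ RQ.P).Adj u v → (RP.P ⊔ RQ.P).Adj u (f u v) := by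
    intro u v huv
    rw [SimpleGraph.sup_adj] at huv ⊢
    rcases huv with huv | huv
    · by_cases h2 : u = x ∧ v = a
      · right
        rw [h2.1, h2.2, fa]
        exact RQ.nx_adj x b hb
      · left
        rw [fP u v huv h2]
        exact RP.nx_adj u v huv
    · by_cases h2 : u = x ∧ v = b
      · left
        rw [h2.1, h2.2, fb]
        exact RP.nx_adj x a ha
      · right
        rw [fQ u v huv h2]
        exact RQ.nx_adj u v huv
  have h2 : ∀ u y z (T : Set V), (RP.P ⊔ RQ.P).Adj u y → (RP.P ⊔ RQ.P).Adj u z → y ∈ T →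
      (∀ v ∈ T, (RP.P ⊔ RQ.P).Adj u v → f u v ∈ T) → z ∈ T := by
    intro u y z T hy hz hyT hT
    have hTP : ∀ v ∈ T, RP.P.Adj u v → f u v ∈ T := fun v hv huv =>
      hT v hv (by rw [SimpleGraph.sup_adj]; exact Or.inl huv)
    have hTQ : ∀ v ∈ T, RQ.P.Adj u v → f u v ∈ T := fun v hv huv =>
      hT v hv (by rw [SimpleGraph.sup_adj]; exact Or.inr huv)
    rw [SimpleGraph.sup_adj] at hy hz
    by_cases hux : u = x
    · subst hux
      -- if `a ∈ T` then all Q-neighbours are in `T`
      have sQ : a ∈ T → ∀ v, RQ.P.Adj u v → v ∈ T := by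
        intro haT v hv
        have h3 : RQ.nx u b ∈ T := by
          rw [← fa]
          exact hTP a haT ha
        refine nx_closed RQ T (RQ.nx_adj u b hb) hv h3 (fun w hw huw => ?_)
        by_cases hwb : w = b
        · rw [hwb]
          exact h3
        · rw [← fQ u w huw (fun h => hwb h.2)]
          exact hTQ w hw huw
      have sP : b ∈ T → ∀ v, RP.P.Adj u v → v ∈ T := by
        intro hbT v hv
        have h3 : RP.nx u a ∈ T := by
          rw [← fb]
          exact hTQ b hbT hb
        refine nx_closed RP T (RP.nx_adj u a ha) hv h3 (fun w hw huw => ?_)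
        by_cases hwa : w = a
        · rw [hwa]
          exact h3
        · rw [← fP u w huw (fun h => hwa h.2)]
          exact hTP w hw huw
      have haT : a ∈ T := by
        rcases hy with hy | hy
        · by_contra haT
          apply haT
          refine nx_closed RP T hy ha hyT (fun w hw huw => ?_)
          have hwa : w ≠ a := fun e => haT (e ▸ hw)
          rw [← fP u w huw (fun h => hwa h.2)]
          exact hTP w hw huw
        · have hbT : b ∈ T := by
            by_contra hbT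
            apply hbT
            refine nx_closed RQ T hy hb hyT (fun w hw huw => ?_)
            have hwb : w ≠ b := fun e => hbT (e ▸ hw)
            rw [← fQ u w huw (fun h => hwb h.2)]
            exact hTQ w hw huw
          exact sP hbT a ha
      rcases hz with hz | hz
      · exact sP (sQ haT b hb) z hz
      · exact sQ haT z hz
    · rcases hy with hy | hy
      · rcases hz with hz | hz
        · refine nx_closed RP T hy hz hyT (fun v hv huv => ?_)
          rw [← fP u v huv (fun h => hux h.1)]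
          exact hTP v hv huv
        · exact (hux (h u y z hy hz)).elim
      · rcases hz with hz | hz
        · exact (hux (h u z y hz hy)).elim
        · refine nx_closed RQ T hy hz hyT (fun v hv huv => ?_)
          rw [← fQ u v huv (fun h => hux h.1)]
          exact hTQ v hv huv
  refine ⟨mkRot (RP.P ⊔ RQ.P) f h1 h2, rfl, ?_⟩
  refine glue RP RQ _ x (fun c1 c2 => c1 a x + c2 b x) h hP hQ rfl ?_
  intro c1 c2 hc1 hc2 u v _
  refine ⟨fun huv => ?_, fun huv => ?_⟩
  · by_cases h3 : v = x ∧ u = a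
    · right
      obtain ⟨e1, e2⟩ := h3
      subst e1
      subst e2
      have e : (mkRot (RP.P ⊔ RQ.P) f h1 h2).nx v u = RQ.nx v b := fa
      rw [e]
      refine ⟨RQ.nx_adj v b hb, ?_⟩
      rw [hc2 b v hb.symm]
      have h4 := zadd_self (c2 b v)
      calc c2 b v + (c1 u v + c2 b v) = c1 u v + (c2 b v + c2 b v) := by ring
        _ = c1 u v := by rw [h4, add_zero]
    · left
      have e : (mkRot (RP.P ⊔ RQ.P) f h1 h2).nx v u = RP.nx v u := fP v u huv.symm h3
      rw [e]
      exact ⟨RP.nx_adj v u huv.symm, hc1 u v huv⟩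
  · by_cases h3 : v = x ∧ u = b
    · left
      obtain ⟨e1, e2⟩ := h3
      subst e1
      subst e2
      have e : (mkRot (RP.P ⊔ RQ.P) f h1 h2).nx v u = RP.nx v a := fb
      rw [e]
      refine ⟨RP.nx_adj v a ha, ?_⟩
      rw [hc1 a v ha.symm]
      have h4 := zadd_self (c2 u v)
      calc c1 a v = c1 a v + (c2 u v + c2 u v) := by rw [h4, add_zero]
        _ = c2 u v + (c1 a v + c2 u v) := by ring
    · right
      have e : (mkRot (RP.P ⊔ RQ.P) f h1 h2).nx v u = RQ.nx v u := fQ v u huv.symm h3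
      rw [e]
      exact ⟨RQ.nx_adj v u huv.symm, hc2 u v huv⟩

end GL1_

open GL1_ in
theorem gl1_proof : Stmt_GL1 := by
  classical
  intro V P Q x hP hQ h
  obtain ⟨RP, rfl, hRP⟩ := hP
  obtain ⟨RQ, rfl, hRQ⟩ := hQ
  by_cases h1 : ∃ a b, RP.P.Adj x a ∧ RQ.P.Adj x b
  · obtain ⟨a, b, ha, hb⟩ := h1
    exact main RP RQ x a b hRP hRQ h ha hb
  · refine disj RP RQ hRP hRQ (fun a b c h2 h3 => ?_)
    have h4 := h a b c h2 h3
    subst h4
    exact h1 ⟨b, c, h2, h3⟩

end Pool.Agent.KUR
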