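import Pool.Agent.KUR.Lib

set_option autoImplicit false

namespace Pool.Agent.KUR

open Pool.Agent.ACC

namespace GL2_

variable {V : Type}

/-- handshake -/
theorem handshake (f : V → V → ZMod 2) (hs : ∀ u v, f u v = f v u) (hd : ∀ u, f u u = 0)
    (hfin : {p : V × V | f p.1 p.2 ≠ 0}.Finite) (y : V) (h : ∀ u, u ≠ y → ∑ᶠ v, f u v = 0) :
    ∑ᶠ v, f y v = 0 := by
  classical
  obtain ⟨S, hyS, hS2⟩ : ∃ S : Finset V, y ∈ S ∧ ∀ u v, f u v ≠ 0 → v ∈ S := by
    refine ⟨insert y (hfin.toFinset.image Prod.snd), Finset.mem_insert_self _ _, ?_⟩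
    intro u v huv
    refine Finset.mem_insert_of_mem (Finset.mem_image.mpr ⟨(u, v), ?_, rfl⟩)
    rw [Set.Finite.mem_toFinset]
    exact huv
  have e : ∀ u, ∑ᶠ v, f u v = ∑ v ∈ S, f u v := by
    intro u
    apply finsum_eq_sum_of_support_subset
    intro v hv
    exact hS2 u v hv
  have hsum : ∑ p ∈ S ×ˢ S, f p.1 p.2 = 0 := by
    refine Finset.sum_involution (fun p _ => p.swap) ?_ ?_ ?_ ?_
    · intro p _
      show f p.1 p.2 + f p.2 p.1 = 0
      rw [hs p.2 p.1]
      exact zadd_self _
    · intro p _ hp heq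
      apply hp
      have h1 : p.2 = p.1 := congrArg Prod.fst heq
      rw [h1]
      exact hd _
    · intro p hp
      rw [Finset.mem_product] at hp ⊢
      exact ⟨hp.2, hp.1⟩
    · intro p _
      exact Prod.swap_swap p
  rw [Finset.sum_product] at hsum
  rw [Finset.sum_eq_single y] at hsum
  · rw [e]; exact hsum
  · intro b _ hb
    have := h b hb
    rw [e] at this
    exact this
  · intro hy
    exact absurd hyS hy

/-- the new rotation at `x` -/
noncomputable def g (RP RQ : Rot V) (x y v : V) : V := by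
  classical exact if RQ.P.Adj x v then (if RQ.nx x v = y then RP.nx x y else RQ.nx x v)
    else RP.nx x v

theorem g_Q (RP RQ : Rot V) {x y v : V} (h : RQ.P.Adj x v) (h' : RQ.nx x v ≠ y) :
    g RP RQ x y v = RQ.nx x v := by
  classical
  simp only [g, if_pos h, if_neg h']

theorem g_Qy (RP RQ : Rot V) {x y v : V} (h : RQ.P.Adj x v) (h' : RQ.nx x v = y) :
    g RP RQ x y v = RP.nx x y := by
  classical
  simp only [g, if_pos h, if_pos h']

theorem g_P (RP RQ : Rot V) {x y v : V} (h : ¬ RQ.P.Adj x v) :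
    g RP RQ x y v = RP.nx x v := by
  classical
  simp only [g, if_neg h]

theorem g_adj (RP RQ : Rot V) {x y v : V} (hP : RP.P.Adj x y)
    (h : RP.P.Adj x v ∨ RQ.P.Adj x v) :
    RP.P.Adj x (g RP RQ x y v) ∨ RQ.P.Adj x (g RP RQ x y v) := by
  by_cases hq : RQ.P.Adj x v
  · by_cases h' : RQ.nx x v = y
    · rw [g_Qy RP RQ hq h']
      exact Or.inl (RP.nx_adj x y hP)
    · rw [g_Q RP RQ hq h']
      exact Or.inr (RQ.nx_adj x v hq)
  · rw [g_P RP RQ hq]
    exact Or.inl (RP.nx_adj x v (h.resolve_right hq))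

theorem g_cyc (RP RQ : Rot V) {x y : V} (hP : RP.P.Adj x y) (hQ : RQ.P.Adj x y)
    (hd : ∀ v, RP.P.Adj x v → RQ.P.Adj x v → v = y) (T : Set V) {a : V} (ha : a ∈ T)
    (haa : RP.P.Adj x a ∨ RQ.P.Adj x a)
    (hT : ∀ v ∈ T, (RP.P.Adj x v ∨ RQ.P.Adj x v) → g RP RQ x y v ∈ T) {z : V}
    (hz : RP.P.Adj x z ∨ RQ.P.Adj x z) : z ∈ T := by
  have hPc : ∀ a ∈ T, RP.P.Adj x a → y ∈ T := by
    intro a ha haa
    by_contra hy
    refine hy (nx_closed RP T haa hP ha ?_)
    intro v hv hxv
    by_cases hq : RQ.P.Adj x v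
    · exact absurd (hd v hxv hq ▸ hv) hy
    · have := hT v hv (Or.inl hxv)
      rw [g_P RP RQ hq] at this
      exact this
  have hQc : ∀ a ∈ T, RQ.P.Adj x a → RP.nx x y ∈ T := by
    intro a ha haa
    by_contra hy
    have hne : ∀ v ∈ T, RQ.P.Adj x v → RQ.nx x v ≠ y ∧ RQ.nx x v ∈ T := by
      intro v hv hxv
      have h1 := hT v hv (Or.inr hxv)
      by_cases h' : RQ.nx x v = y
      · rw [g_Qy RP RQ hxv h'] at h1
        exact absurd h1 hy
      · rw [g_Q RP RQ hxv h'] at h1
        exact ⟨h', h1⟩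
    have hy' : y ∈ T \ {y} := by
      refine nx_closed RQ (T \ {y}) (RQ.nx_adj x a haa) hQ ?_ ?_
      · exact ⟨(hne a ha haa).2, (hne a ha haa).1⟩
      · intro v hv hxv
        exact ⟨(hne v hv.1 hxv).2, (hne v hv.1 hxv).1⟩
    exact hy'.2 rfl
  have hyT : y ∈ T := by
    rcases haa with h | h
    · exact hPc a ha h
    · exact hPc _ (hQc a ha h) (RP.nx_adj x y hP)
  have hny : RP.nx x y ∈ T := hQc y hyT hQ
  rcases hz with hz | hz
  · refine nx_closed RP T hP hz hyT ?_
    intro v hv hxv
    by_cases hq : RQ.P.Adj x v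
    · rw [hd v hxv hq]
      exact hny
    · have := hT v hv (Or.inl hxv)
      rw [g_P RP RQ hq] at this
      exact this
  · refine nx_closed RQ T hQ hz hyT ?_
    intro v hv hxv
    by_cases h' : RQ.nx x v = y
    · rw [h']; exact hyT
    · have := hT v hv (Or.inr hxv)
      rw [g_Q RP RQ hxv h'] at this
      exact this

theorem inv_at (RP RQ : Rot V) {x y : V} (c1 c2 c : V → V → ZMod 2) (h1 : RP.Inv c1)
    (h2 : RQ.Inv c2) (hP : RP.P.Adj x y) (hQ : RQ.P.Adj x y)
    (_hd : ∀ v, RP.P.Adj x v → RQ.P.Adj x v → v = y)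
    (F1 : ∀ w, RP.P.Adj x w → c x w = c1 x w)
    (F2 : ∀ w, RQ.P.Adj x w → w ≠ y → c x w = c2 x w)
    (F3 : ∀ w, RQ.P.Adj x w → c w x = c2 w x)
    (F4 : ∀ w, RP.P.Adj x w → w ≠ y → c w x = c1 w x)
    (hn : c2 x y = c1 y x) {u : V} (hu : RP.P.Adj x u ∨ RQ.P.Adj x u) :
    c x (g RP RQ x y u) = c u x := by
  by_cases hq : RQ.P.Adj x u
  · by_cases h' : RQ.nx x u = y
    · rw [g_Qy RP RQ hq h', F1 _ (RP.nx_adj x y hP), F3 u hq, h1 y x hP.symm, ← hn, ← h',
        h2 u x hq.symm]
    · rw [g_Q RP RQ hq h', F2 _ (RQ.nx_adj x u hq) h', F3 u hq, h2 u x hq.symm]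
  · have hp := hu.resolve_right hq
    have hne : u ≠ y := fun h => hq (h ▸ hQ)
    rw [g_P RP RQ hq, F1 _ (RP.nx_adj x u hp), F4 u hp hne, h1 u x hp.symm]

/-- the rotation function -/
noncomputable def nx' (RP RQ : Rot V) (x y u v : V) : V := by
  classical exact if u = x then g RP RQ x y v else if u = y then g RQ RP y x v else
    if ∃ w, RP.P.Adj u w then RP.nx u v else RQ.nx u v

end GL2_

open GL2_

theorem gl2_proof : Stmt_GL2 := by
  intro V P Q x y hPlP hPlQ hP hQ hcap
  classical
  obtain ⟨RP, rfl, hEP⟩ := hPlP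
  obtain ⟨RQ, rfl, hEQ⟩ := hPlQ
  have hxy : x ≠ y := hP.ne
  have hdx : ∀ v, RP.P.Adj x v → RQ.P.Adj x v → v = y := by
    intro v h1 h2
    rcases hcap v x x h1.symm h2.symm with h | h
    · exact absurd (h ▸ h1) (RP.P.loopless.irrefl _)
    · exact h
  have hdy : ∀ v, RQ.P.Adj y v → RP.P.Adj y v → v = x := by
    intro v h1 h2
    rcases hcap v y y h2.symm h1.symm with h | h
    · exact h
    · exact absurd (h ▸ h1) (RQ.P.loopless.irrefl _)
  have nxx : ∀ v, nx' RP RQ x y x v = g RP RQ x y v := fun v => by simp [nx']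
  have nxy : ∀ v, nx' RP RQ x y y v = g RQ RP y x v := fun v => by simp [nx', hxy.symm]
  have nxP : ∀ u v, u ≠ x → u ≠ y → RP.P.Adj u v → nx' RP RQ x y u v = RP.nx u v := by
    intro u v h1 h2 h3
    simp only [nx', if_neg h1, if_neg h2]
    rw [if_pos ⟨v, h3⟩]
  have nxQ : ∀ u v, u ≠ x → u ≠ y → RQ.P.Adj u v → nx' RP RQ x y u v = RQ.nx u v := by
    intro u v h1 h2 h3
    simp only [nx', if_neg h1, if_neg h2]
    rw [if_neg]
    rintro ⟨w, hw⟩
    rcases hcap u w v hw h3 with h | h
    · exact h1 h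
    · exact h2 h
  have hor : ∀ u v, (RP.P ⊔ RQ.P).Adj u v ↔ RP.P.Adj u v ∨ RQ.P.Adj u v := fun u v => Iff.rfl
  let R : Rot V := mkRot (RP.P ⊔ RQ.P) (nx' RP RQ x y) (by
    intro u v huv
    rw [hor] at huv ⊢
    by_cases hux : u = x
    · subst hux
      rw [nxx]
      exact g_adj RP RQ hP huv
    · by_cases huy : u = y
      · subst huy
        rw [nxy]
        exact (g_adj RQ RP hQ.symm huv.symm).symm
      · rcases huv with h | h
        · rw [nxP u v hux huy h]
          exact Or.inl (RP.nx_adj u v h)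
        · rw [nxQ u v hux huy h]
          exact Or.inr (RQ.nx_adj u v h)) (by
    intro u a z T ha hz haT hT
    rw [hor] at ha hz
    by_cases hux : u = x
    · subst hux
      refine g_cyc RP RQ hP hQ hdx T haT ha ?_ hz
      intro v hv hxv
      have := hT v hv hxv
      rw [nxx] at this
      exact this
    · by_cases huy : u = y
      · subst huy
        refine g_cyc RQ RP hQ.symm hP.symm hdy T haT ha.symm ?_ hz.symm
        intro v hv hxv
        have := hT v hv hxv.symm
        rw [nxy] at this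
        exact this
      · rcases ha with h | h
        · have hz' : RP.P.Adj u z := by
            rcases hz with h' | h'
            · exact h'
            · rcases hcap u a z h h' with h'' | h''
              · exact absurd h'' hux
              · exact absurd h'' huy
          refine nx_closed RP T h hz' haT ?_
          intro v hv huv
          have := hT v hv (Or.inl huv)
          rw [nxP u v hux huy huv] at this
          exact this
        · have hz' : RQ.P.Adj u z := by
            rcases hz with h' | h'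
            · rcases hcap u z a h' h with h'' | h''
              · exact absurd h'' hux
              · exact absurd h'' huy
            · exact h'
          refine nx_closed RQ T h hz' haT ?_
          intro v hv huv
          have := hT v hv (Or.inr huv)
          rw [nxQ u v hux huy huv] at this
          exact this)
  refine ⟨R, rfl, ?_⟩
  intro j hj
  have hj' : EvenF (RP.P ⊔ RQ.P) j := hj
  -- the edge `xy`
  let E : V → V → Prop := fun u v => (u = x ∧ v = y) ∨ (u = y ∧ v = x)
  have hEs : ∀ u v, E u v ↔ E v u := by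
    intro u v
    constructor
    · rintro (⟨h1, h2⟩ | ⟨h1, h2⟩)
      · exact Or.inr ⟨h2, h1⟩
      · exact Or.inl ⟨h2, h1⟩
    · rintro (⟨h1, h2⟩ | ⟨h1, h2⟩)
      · exact Or.inr ⟨h2, h1⟩
      · exact Or.inl ⟨h2, h1⟩
  let m : V → V → ZMod 2 := fun u v => if RP.P.Adj u v ∧ ¬ E u v then j u v else 0
  let s : ZMod 2 := ∑ᶠ v, m x v
  let j1 : V → V → ZMod 2 := fun u v => if E u v then s else m u v
  have hjfin : ∀ u, (Function.support (j u)).Finite := fun u =>
    (hj'.fin.image Prod.snd).subset (fun v hv => ⟨(u, v), hv, rfl⟩)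
  have hmfin : ∀ u, (Function.support (m u)).Finite := fun u =>
    (hjfin u).subset (fun v hv => by
      intro h0
      apply hv
      simp only [m, h0, ite_self])
  have hms : ∀ u v, m u v = m v u := by
    intro u v
    simp only [m]
    rw [hj'.symm u v]
    by_cases h : RP.P.Adj u v ∧ ¬ E u v
    · rw [if_pos h, if_pos ⟨h.1.symm, fun h' => h.2 ((hEs u v).mpr h')⟩]
    · rw [if_neg h, if_neg (fun h' => h ⟨h'.1.symm, fun h'' => h'.2 ((hEs u v).mp h'')⟩)]
  have hj1s : ∀ u v, j1 u v = j1 v u := by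
    intro u v
    simp only [j1]
    by_cases h : E u v
    · rw [if_pos h, if_pos ((hEs u v).mp h)]
    · rw [if_neg h, if_neg (fun h' => h ((hEs u v).mpr h')), hms]
  have hEP' : ∀ u v, E u v → RP.P.Adj u v := by
    rintro u v (⟨rfl, rfl⟩ | ⟨rfl, rfl⟩)
    · exact hP
    · exact hP.symm
  have hEQ' : ∀ u v, E u v → RQ.P.Adj u v := by
    rintro u v (⟨rfl, rfl⟩ | ⟨rfl, rfl⟩)
    · exact hQ
    · exact hQ.symm
  have hj1supp : ∀ u v, j1 u v ≠ 0 → RP.P.Adj u v := by
    intro u v h
    by_cases hE : E u v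
    · exact hEP' u v hE
    · simp only [j1, if_neg hE, m] at h
      by_contra h'
      exact h (if_neg (fun h'' => h' h''.1))
  have hj1fin : {p : V × V | j1 p.1 p.2 ≠ 0}.Finite := by
    refine (hj'.fin.union (Set.toFinite {((x, y) : V × V), (y, x)})).subset ?_
    rintro ⟨u, v⟩ huv
    by_cases hE : E u v
    · right
      rcases hE with ⟨rfl, rfl⟩ | ⟨rfl, rfl⟩
      · simp
      · simp
    · left
      intro h0
      apply huv
      simp only [j1, if_neg hE, m]
      simp only at h0
      rw [h0, ite_self]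
  have hj1even' : ∀ u, u ≠ y → ∑ᶠ v, j1 u v = 0 := by
    intro u huy
    by_cases hux : u = x
    · subst hux
      have e1 : ∀ v, j1 u v = m u v + (if v = y then s else 0) := by
        intro v
        by_cases hv : v = y
        · have hE : E u v := Or.inl ⟨rfl, hv⟩
          simp only [j1, if_pos hE, m, if_pos hv]
          rw [if_neg (fun h => h.2 hE), zero_add]
        · have hE : ¬ E u v := by
            rintro (⟨_, h⟩ | ⟨h, _⟩)
            · exact hv h
            · exact huy h
          simp only [j1, if_neg hE, if_neg hv, add_zero]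
      rw [finsum_congr e1, finsum_add_distrib (hmfin u) (by
        refine (Set.finite_singleton y).subset (fun v hv => ?_)
        by_contra h
        exact hv (if_neg h))]
      have e2 : ∑ᶠ v, (if v = y then s else 0) = s := by
        rw [finsum_eq_single _ y (fun v hv => if_neg hv), if_pos rfl]
      rw [e2]
      exact zadd_self s
    · by_cases hex : ∃ w, RP.P.Adj u w
      · obtain ⟨w, hw⟩ := hex
        rw [← hj'.even u]
        refine finsum_congr (fun v => ?_)
        have hE : ¬ E u v := by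
          rintro (⟨h, _⟩ | ⟨h, _⟩)
          · exact hux h
          · exact huy h
        simp only [j1, if_neg hE, m]
        by_cases hv : RP.P.Adj u v
        · rw [if_pos ⟨hv, hE⟩]
        · rw [if_neg (fun h => hv h.1)]
          by_contra h0
          rcases hj'.supp u v (fun h => h0 h.symm) with h | h
          · exact hv h
          · rcases hcap u w v hw h with h | h
            · exact hux h
            · exact huy h
      · have e1 : ∀ v, j1 u v = 0 := by
          intro v
          by_contra h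
          exact hex ⟨v, hj1supp u v h⟩
        rw [finsum_congr e1, finsum_zero]
  have hj1d : ∀ u, j1 u u = 0 := by
    intro u
    by_contra h
    exact RP.P.loopless.irrefl _ (hj1supp u u h)
  have hj1even : ∀ u, ∑ᶠ v, j1 u v = 0 := by
    intro u
    by_cases huy : u = y
    · rw [huy]
      exact handshake j1 hj1s hj1d hj1fin y hj1even'
    · exact hj1even' u huy
  have hJ1 : EvenF RP.P j1 := ⟨hj1s, hj1supp, hj1fin, hj1even⟩
  have hJ2' := EvenF.add hj' (hJ1.mono (le_sup_left : RP.P ≤ RP.P ⊔ RQ.P))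
  have hJ2 : EvenF RQ.P (fun u v => j u v + j1 u v) := by
    refine ⟨hJ2'.symm, ?_, hJ2'.fin, hJ2'.even⟩
    intro u v h
    by_cases hE : E u v
    · exact hEQ' u v hE
    · by_cases hv : RP.P.Adj u v
      · exfalso
        apply h
        simp only [j1, if_neg hE, m, if_pos (⟨hv, hE⟩ : RP.P.Adj u v ∧ ¬ E u v)]
        exact zadd_self _
      · have h0 : j1 u v = 0 := by
          by_contra h'
          exact hv (hj1supp u v h')
        rw [h0, add_zero] at h
        exact (hj'.supp u v h).resolve_left hv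
  obtain ⟨c1, hc1, hb1⟩ := hEP j1 hJ1
  obtain ⟨c20, hc20, hb20⟩ := hEQ _ hJ2
  -- normalise
  let c2 : V → V → ZMod 2 := fun u v => c20 u v + (c20 x y + c1 y x)
  have hc2 : RQ.Inv c2 := by
    intro u v huv
    simp only [c2, hc20 u v huv]
  have hb2 : ∀ u v, RQ.P.Adj u v → c2 u v + c2 v u = j u v + j1 u v := by
    intro u v huv
    rw [← hb20 u v huv]
    simp only [c2]
    have := zadd_self (c20 x y + c1 y x)
    linear_combination this
  have hn : c2 x y = c1 y x := by
    simp only [c2]
    have := zadd_self (c20 x y)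
    linear_combination this
  let c : V → V → ZMod 2 := fun u v =>
    if u = x ∧ v = y then c1 x y else if u = y ∧ v = x then c2 y x else
      if RP.P.Adj u v then c1 u v else c2 u v
  have cxy : c x y = c1 x y := by simp [c]
  have cyx : c y x = c2 y x := by
    have : ¬ (y = x ∧ x = y) := fun h => hxy h.2
    simp only [c, if_neg this]
    simp
  have cP : ∀ u v, RP.P.Adj u v → ¬ E u v → c u v = c1 u v := by
    intro u v h hE
    have h1 : ¬ (u = x ∧ v = y) := fun h => hE (Or.inl h)
    have h2 : ¬ (u = y ∧ v = x) := fun h => hE (Or.inr h)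
    simp only [c, if_neg h1, if_neg h2, if_pos h]
  have cQ : ∀ u v, RQ.P.Adj u v → ¬ E u v → c u v = c2 u v := by
    intro u v h hE
    have h1 : ¬ (u = x ∧ v = y) := fun h => hE (Or.inl h)
    have h2 : ¬ (u = y ∧ v = x) := fun h => hE (Or.inr h)
    have h3 : ¬ RP.P.Adj u v := by
      intro h'
      rcases hcap u v v h' h with h4 | h4
      · exact hE (Or.inl ⟨h4, hdx v (h4 ▸ h') (h4 ▸ h)⟩)
      · exact hE (Or.inr ⟨h4, hdy v (h4 ▸ h) (h4 ▸ h')⟩)
    simp only [c, if_neg h1, if_neg h2, if_neg h3]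
  have hE1 : ∀ w, w ≠ y → ¬ E x w := by
    rintro w hw (⟨_, h⟩ | ⟨h, _⟩)
    · exact hw h
    · exact hxy h
  have hE2 : ∀ w, w ≠ x → ¬ E y w := by
    rintro w hw (⟨h, _⟩ | ⟨_, h⟩)
    · exact hxy h.symm
    · exact hw h
  refine ⟨c, ?_, ?_⟩
  · intro u v huv
    have huv' : RP.P.Adj u v ∨ RQ.P.Adj u v := huv
    show c v (nx' RP RQ x y v u) = c u v
    by_cases hvx : v = x
    · subst hvx
      rw [nxx]
      refine inv_at RP RQ c1 c2 c hc1 hc2 hP hQ hdx ?_ ?_ ?_ ?_ hn
        (huv'.imp (fun h => h.symm) (fun h => h.symm))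
      · intro w hw
        by_cases hwy : w = y
        · rw [hwy]; exact cxy
        · exact cP _ _ hw (hE1 w hwy)
      · intro w hw hwy
        exact cQ _ _ hw (hE1 w hwy)
      · intro w hw
        by_cases hwy : w = y
        · rw [hwy]; exact cyx
        · exact cQ _ _ hw.symm (fun h => hE1 w hwy ((hEs _ _).mp h))
      · intro w hw hwy
        exact cP _ _ hw.symm (fun h => hE1 w hwy ((hEs _ _).mp h))
    · by_cases hvy : v = y
      · subst hvy
        rw [nxy]
        refine inv_at RQ RP c2 c1 c hc2 hc1 hQ.symm hP.symm hdy ?_ ?_ ?_ ?_ hn.symm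
          (huv'.symm.imp (fun h => h.symm) (fun h => h.symm))
        · intro w hw
          by_cases hwy : w = x
          · rw [hwy]; exact cyx
          · exact cQ _ _ hw (hE2 w hwy)
        · intro w hw hwy
          exact cP _ _ hw (hE2 w hwy)
        · intro w hw
          by_cases hwy : w = x
          · rw [hwy]; exact cxy
          · exact cP _ _ hw.symm (fun h => hE2 w hwy ((hEs _ _).mp h))
        · intro w hw hwy
          exact cQ _ _ hw.symm (fun h => hE2 w hwy ((hEs _ _).mp h))
      · have hEv : ∀ w, ¬ E v w := by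
          rintro w (⟨h, _⟩ | ⟨h, _⟩)
          · exact hvx h
          · exact hvy h
        rcases huv' with h | h
        · rw [nxP v u hvx hvy h.symm, cP _ _ (RP.nx_adj v u h.symm) (hEv _),
            cP _ _ h (fun h' => hEv u ((hEs _ _).mp h'))]
          exact hc1 u v h
        · rw [nxQ v u hvx hvy h.symm, cQ _ _ (RQ.nx_adj v u h.symm) (hEv _),
            cQ _ _ h (fun h' => hEv u ((hEs _ _).mp h'))]
          exact hc2 u v h
  · intro u v huv
    have huv' : RP.P.Adj u v ∨ RQ.P.Adj u v := huv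
    have key : c x y + c y x = j x y := by
      rw [cxy, cyx]
      have h1 := hb1 x y hP
      have h2 := hb2 x y hQ
      have h3 := zadd_self (j1 x y)
      have h4 := zadd_self (c1 y x)
      rw [hn] at h2
      linear_combination h1 + h2 + h3 - h4
    by_cases hE : E u v
    · rcases hE with ⟨rfl, rfl⟩ | ⟨rfl, rfl⟩
      · exact key
      · rw [add_comm, hj'.symm]
        exact key
    · have hE' : ¬ E v u := fun h => hE ((hEs _ _).mpr h)
      by_cases hp : RP.P.Adj u v
      · rw [cP _ _ hp hE, cP _ _ hp.symm hE', hb1 u v hp]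
        simp only [j1, if_neg hE, m, if_pos (⟨hp, hE⟩ : RP.P.Adj u v ∧ ¬ E u v)]
      · have hq := huv'.resolve_left hp
        rw [cQ _ _ hq hE, cQ _ _ hq.symm hE', hb2 u v hq]
        have h0 : j1 u v = 0 := by
          by_contra h'
          exact hp (hj1supp u v h')
        rw [h0, add_zero]

end Pool.Agent.KUR
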