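import Pool.Agent.KUR.Lib

/-!
Squad KUR, module KFI: Kuratowski's theorem for finite graphs, strong induction.
-/

set_option autoImplicit false

namespace Pool.Agent.KUR

open Pool.Agent.ACC

namespace KFI_

variable {V : Type}

/-- every vertex of a minimal separating set is adjacent to the component of `u` -/
theorem adjL [DecidableEq V] (G : SimpleGraph V) (S X : Finset V) (u v x : V) (hx : x ∈ X)
    (hu : u ∈ S) (hv : v ∈ S) (huX : u ∉ X) (hvX : v ∉ X)
    (hmin : ∀ X' : Finset V, X'.card < X.card → ∀ u ∈ S, ∀ v ∈ S, u ∉ X' → v ∉ X' →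
      Rch G {w | w ∈ S ∧ w ∉ X'} u v)
    (hno : ¬ Rch G {w | w ∈ S ∧ w ∉ X} u v) :
    ∃ c, Rch G {w | w ∈ S ∧ w ∉ X} u c ∧ G.Adj x c := by
  by_contra hcon
  push Not at hcon
  apply hno
  have h1 := hmin (X.erase x) (Finset.card_erase_lt_of_mem hx) u hu v hv
    (fun h => huX (Finset.mem_of_mem_erase h)) (fun h => hvX (Finset.mem_of_mem_erase h))
  refine h1.closed {y | Rch G {w | w ∈ S ∧ w ∉ X} u y} (Rch.refl G ⟨hu, huX⟩) ?_
  intro a ha b hb hab
  have hbx : b ≠ x := by
    intro h
    subst h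
    exact hcon a ha hab.symm
  have hbX : b ∉ X := fun h => hb.2 (Finset.mem_erase.mpr ⟨hbx, h⟩)
  exact Rch.trans ha (Rch.of_adj (Rch.right ha) ⟨hb.1, hbX⟩ hab)

/-- in a 3-connected graph with at least five vertices every vertex has two neighbours besides
a given one -/
theorem two_nb [DecidableEq V] (G : SimpleGraph V) (S : Finset V) (x y : V)
    (hS : ∀ u v, G.Adj u v → u ∈ S) (h5 : 5 ≤ S.card) (hxy : G.Adj x y)
    (h3 : ∀ X : Finset V, X.card ≤ 2 → ∀ u ∈ S, ∀ v ∈ S, u ∉ X → v ∉ X →
      Rch G {w | w ∈ S ∧ w ∉ X} u v) :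
    ∃ u v, u ≠ v ∧ u ≠ y ∧ v ≠ y ∧ G.Adj x u ∧ G.Adj x v := by
  by_contra hcon
  push Not at hcon
  have key : ∀ X : Finset V, X.card ≤ 2 → x ∉ X → (∀ z, G.Adj x z → z ∈ X) → False := by
    intro X hX hxX hnb
    have hw : ∃ w ∈ S, w ∉ insert x X := by
      by_contra hno
      push Not at hno
      have h1 : S ⊆ insert x X := fun w hw => hno w hw
      have h2 := Finset.card_le_card h1
      have h3 := Finset.card_insert_le x X
      omega
    obtain ⟨w, hwS, hw⟩ := hw
    rw [Finset.mem_insert, not_or] at hw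
    have h1 := h3 X hX x (hS x y hxy) w hwS hxX hw.2
    have h2 : w ∈ ({x} : Set V) := by
      refine h1.closed {x} rfl ?_
      intro a ha b hb hab
      rw [Set.mem_singleton_iff] at ha
      subst ha
      exact absurd (hnb b hab) hb.2
    exact hw.1 h2
  by_cases ha : ∃ a, a ≠ y ∧ G.Adj x a
  · obtain ⟨a, hay, hxa⟩ := ha
    refine key {y, a} Finset.card_le_two ?_ ?_
    · rw [Finset.mem_insert, Finset.mem_singleton, not_or]
      exact ⟨hxy.ne, hxa.ne⟩
    · intro z hz
      rw [Finset.mem_insert, Finset.mem_singleton]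
      by_cases hzy : z = y
      · exact Or.inl hzy
      · by_cases hza : z = a
        · exact Or.inr hza
        · exact absurd hxa (hcon z a hza hzy hay hz)
  · push Not at ha
    refine key {y} (by simp) ?_ ?_
    · rw [Finset.mem_singleton]
      exact hxy.ne
    · intro z hz
      rw [Finset.mem_singleton]
      by_contra hzy
      exact ha z hzy hz

end KFI_

theorem kfi_proof (hSUB : Stmt_SUB) (hGL1 : Stmt_GL1) (hGL2 : Stmt_GL2) (hSM4 : Stmt_SM4)
    (hMON : Stmt_MON) (hMCT : Stmt_MCT) (hMSP : Stmt_MSP) (hTH3 : Stmt_TH3)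
    (hCTR : Stmt_CTR) : Stmt_KFI := by
  classical
  intro V
  suffices H : ∀ n : ℕ, ∀ (G : SimpleGraph V) (S : Finset V), S.card = n →
      (∀ u v, G.Adj u v → u ∈ S) → ¬ Has33 G → ¬ Has5 G → Plan G from
    fun G S => H S.card G S rfl
  intro n
  induction n using Nat.strong_induction_on with
  | _ n ih =>
    intro G S hcard hS h33 h5
    by_cases h4 : S.card ≤ 4
    · exact hSM4 V G S hS h4
    have h5c : 5 ≤ S.card := by omega
    have IH : ∀ (G' : SimpleGraph V) (S' : Finset V), S' ⊂ S →
        (∀ u v, G'.Adj u v → u ∈ S') → ¬ Has33 G' → ¬ Has5 G' → Plan G' := by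
      intro G' S' hlt
      exact ih S'.card (by rw [← hcard]; exact Finset.card_lt_card hlt) G' S' rfl
    by_cases hsep : ∃ m : ℕ, ∃ X : Finset V, X.card = m ∧ m ≤ 2 ∧ ∃ u ∈ S, ∃ v ∈ S, u ∉ X ∧
        v ∉ X ∧ ¬ Rch G {w | w ∈ S ∧ w ∉ X} u v
    · -- a separating set
      obtain ⟨X, hXm, hX2, u, hu, v, hv, huX, hvX, hno⟩ := Nat.find_spec hsep
      have hmin' : ∀ m < Nat.find hsep, ¬ ∃ X : Finset V, X.card = m ∧ m ≤ 2 ∧ ∃ u ∈ S,
          ∃ v ∈ S, u ∉ X ∧ v ∉ X ∧ ¬ Rch G {w | w ∈ S ∧ w ∉ X} u v :=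
        fun m hm => Nat.find_min hsep hm
      rw [← hXm] at hmin' hX2
      have hmin : ∀ X' : Finset V, X'.card < X.card → ∀ u ∈ S, ∀ v ∈ S, u ∉ X' → v ∉ X' →
          Rch G {w | w ∈ S ∧ w ∉ X'} u v := by
        intro X' hX' u hu v hv huX' hvX'
        by_contra hno'
        exact hmin' X'.card hX' ⟨X', rfl, by omega, u, hu, v, hv, huX', hvX', hno'⟩
      clear hmin'
      have hXS : ∀ x ∈ X, x ∈ S := by
        intro x hx
        obtain ⟨c, -, hxc⟩ := KFI_.adjL G S X u v x hx hu hv huX hvX hmin hno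
        exact hS x c hxc
      -- the two sides
      set A' : Set V := {y | Rch G {w | w ∈ S ∧ w ∉ X} u y} with hA'
      set C' : Set V := {y | Rch G {w | w ∈ S ∧ w ∉ X} v y} with hC'
      have huA' : u ∈ A' := Rch.refl G ⟨hu, huX⟩
      have hvC' : v ∈ C' := Rch.refl G ⟨hv, hvX⟩
      have hA'W : ∀ y ∈ A', y ∈ S ∧ y ∉ X := by
        intro y hy
        have hy' : Rch G {w | w ∈ S ∧ w ∉ X} u y := hy
        exact hy'.right
      have hC'W : ∀ y ∈ C', y ∈ S ∧ y ∉ X := by
        intro y hy
        have hy' : Rch G {w | w ∈ S ∧ w ∉ X} v y := hy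
        exact hy'.right
      have hAC : ∀ y ∈ A', y ∉ C' := fun y hy hy' => hno (Rch.trans hy (Rch.symm hy'))
      have hvA' : v ∉ A' := fun h => hno h
      set A : Set V := {y | y ∈ A' ∨ y ∈ X} with hA
      set B : Set V := {y | y ∈ S ∧ y ∉ A'} with hB
      have hAS : ∀ y ∈ A, y ∈ S := by
        rintro y (hy | hy)
        · exact (hA'W y hy).1
        · exact hXS y hy
      have hABX : ∀ y, y ∈ A → y ∈ B → y ∈ X := by
        rintro y (hy | hy) hy'
        · exact absurd hy hy'.2
        · exact hy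
      have hclosed : ∀ a b, G.Adj a b → a ∈ A' → b ∈ A := by
        intro a b hab ha
        by_cases hb : b ∈ X
        · exact Or.inr hb
        · exact Or.inl (Rch.trans ha (Rch.of_adj (Rch.right ha) ⟨hS b a hab.symm, hb⟩ hab))
      have hG : G ≤ rst G A ⊔ rst G B := by
        intro a b hab
        rw [SimpleGraph.sup_adj, rst_adj, rst_adj]
        by_cases ha : a ∈ A'
        · exact Or.inl ⟨Or.inl ha, hclosed a b hab ha, hab⟩
        · by_cases hb : b ∈ A'
          · exact Or.inl ⟨hclosed b a hab.symm hb, Or.inl hb, hab⟩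
          · exact Or.inr ⟨⟨hS a b hab, ha⟩, ⟨hS b a hab.symm, hb⟩, hab⟩
      have hSA : S.filter (fun y => y ∈ A) ⊂ S := by
        rw [Finset.filter_ssubset]
        refine ⟨v, hv, ?_⟩
        rintro (h | h)
        · exact hvA' h
        · exact hvX h
      have hSB : S.filter (fun y => y ∈ B) ⊂ S := by
        rw [Finset.filter_ssubset]
        exact ⟨u, hu, fun h => h.2 huA'⟩
      by_cases hc1 : X.card ≤ 1
      · -- at most one separating vertex
        have hPA : Plan (rst G A) := by
          refine IH _ _ hSA ?_ ?_ ?_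
          · intro a b hab
            rw [Finset.mem_filter]
            exact ⟨hS a b hab.2.2, hab.1⟩
          · exact fun h => h33 ((hMON V _ _ (rst_le G A)).1 h)
          · exact fun h => h5 ((hMON V _ _ (rst_le G A)).2 h)
        have hPB : Plan (rst G B) := by
          refine IH _ _ hSB ?_ ?_ ?_
          · intro a b hab
            rw [Finset.mem_filter]
            exact ⟨hS a b hab.2.2, hab.1⟩
          · exact fun h => h33 ((hMON V _ _ (rst_le G B)).1 h)
          · exact fun h => h5 ((hMON V _ _ (rst_le G B)).2 h)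
        have hx : ∃ x, ∀ a ∈ X, a = x := by
          rcases X.eq_empty_or_nonempty with h | ⟨x, hx⟩
          · exact ⟨u, fun a ha => by rw [h] at ha; exact absurd ha (Finset.notMem_empty a)⟩
          · exact ⟨x, fun a ha => Finset.card_le_one.mp hc1 a ha x hx⟩
        obtain ⟨x, hx⟩ := hx
        exact hSUB V _ _ hG (hGL1 V _ _ x hPA hPB
          (fun a b c hab hac => hx a (hABX a hab.1 hac.1)))
      · -- two separating vertices
        have hc2 : X.card = 2 := by omega
        obtain ⟨p, q, hpq, hXpq⟩ := Finset.card_eq_two.mp hc2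
        have hpX : p ∈ X := by rw [hXpq]; simp
        have hqX : q ∈ X := by rw [hXpq]; simp
        have hno' : ¬ Rch G {w | w ∈ S ∧ w ∉ X} v u := fun h => hno h.symm
        have hpA' := KFI_.adjL G S X u v p hpX hu hv huX hvX hmin hno
        have hqA' := KFI_.adjL G S X u v q hqX hu hv huX hvX hmin hno
        have hpC' := KFI_.adjL G S X v u p hpX hv hu hvX huX hmin hno'
        have hqC' := KFI_.adjL G S X v u q hqX hv hu hvX huX hmin hno'
        have hpB : p ∈ B := ⟨hXS p hpX, fun h => (hA'W p h).2 hpX⟩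
        have hqB : q ∈ B := ⟨hXS q hqX, fun h => (hA'W q h).2 hqX⟩
        have hpA : p ∈ A := Or.inr hpX
        have hqA : q ∈ A := Or.inr hqX
        have hm1 := hMSP V G A C' p q hpA hqA hpq (cn_comp ⟨hv, hvX⟩)
          (by
            rw [Set.disjoint_left]
            rintro y (hy | hy) hy'
            · exact hAC y hy hy'
            · exact (hC'W y hy').2 hy) hpC' hqC'
        have hm2 := hMSP V G B A' p q hpB hqB hpq (cn_comp ⟨hu, huX⟩)
          (by
            rw [Set.disjoint_left]
            intro y hy hy'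
            exact hy.2 hy') hpA' hqA'
        have hP1 : Plan (rst G A ⊔ SimpleGraph.edge p q) := by
          refine IH _ _ hSA ?_ (fun h => h33 (hm1.1 h)) (fun h => h5 (hm1.2 h))
          intro a b hab
          rw [Finset.mem_filter]
          rw [SimpleGraph.sup_adj, rst_adj, edge_adj' hpq] at hab
          rcases hab with ⟨h1, h2, h3⟩ | ⟨rfl, -⟩ | ⟨rfl, -⟩
          · exact ⟨hS a b h3, h1⟩
          · exact ⟨hXS _ hpX, hpA⟩
          · exact ⟨hXS _ hqX, hqA⟩
        have hP2 : Plan (rst G B ⊔ SimpleGraph.edge p q) := by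
          refine IH _ _ hSB ?_ (fun h => h33 (hm2.1 h)) (fun h => h5 (hm2.2 h))
          intro a b hab
          rw [Finset.mem_filter]
          rw [SimpleGraph.sup_adj, rst_adj, edge_adj' hpq] at hab
          rcases hab with ⟨h1, h2, h3⟩ | ⟨rfl, -⟩ | ⟨rfl, -⟩
          · exact ⟨hS a b h3, h1⟩
          · exact ⟨hXS _ hpX, hpB⟩
          · exact ⟨hXS _ hqX, hqB⟩
        have hAall : ∀ a b, (rst G A ⊔ SimpleGraph.edge p q).Adj a b → a ∈ A := by
          intro a b hab
          rw [SimpleGraph.sup_adj, rst_adj, edge_adj' hpq] at hab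
          rcases hab with ⟨h1, h2, h3⟩ | ⟨rfl, -⟩ | ⟨rfl, -⟩
          · exact h1
          · exact hpA
          · exact hqA
        have hBall : ∀ a b, (rst G B ⊔ SimpleGraph.edge p q).Adj a b → a ∈ B := by
          intro a b hab
          rw [SimpleGraph.sup_adj, rst_adj, edge_adj' hpq] at hab
          rcases hab with ⟨h1, h2, h3⟩ | ⟨rfl, -⟩ | ⟨rfl, -⟩
          · exact h1
          · exact hpB
          · exact hqB
        have hE : (SimpleGraph.edge p q).Adj p q := by
          rw [edge_adj' hpq]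
          exact Or.inl ⟨rfl, rfl⟩
        have hfin := hGL2 V _ _ p q hP1 hP2 (Or.inr hE) (Or.inr hE)
          (by
            intro a b c hab hac
            have := hABX a (hAall a b hab) (hBall a c hac)
            rw [hXpq] at this
            simpa using this)
        refine hSUB V _ _ (hG.trans ?_) hfin
        exact sup_le_sup le_sup_left le_sup_left
    · -- the 3-connected case
      push Not at hsep
      have h3 : ∀ X : Finset V, X.card ≤ 2 → ∀ u ∈ S, ∀ v ∈ S, u ∉ X → v ∉ X →
          Rch G {w | w ∈ S ∧ w ∉ X} u v :=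
        fun X hX u hu v hv huX hvX => hsep X.card X rfl hX u hu v hv huX hvX
      obtain ⟨x, y, hxy, hprop⟩ := hTH3 V G S hS h5c h3
      have hxS : x ∈ S := hS x y hxy
      have hyS : y ∈ S := hS y x hxy.symm
      have hm := hMCT V G x y hxy
      have hPc : Plan (contr G x y) := by
        refine IH _ (S.erase y) (Finset.erase_ssubset hyS) ?_ (fun h => h33 (hm.1 h))
          (fun h => h5 (hm.2 h))
        intro a b hab
        rw [contr_adj G hxy.ne] at hab
        rw [Finset.mem_erase]
        obtain ⟨-, h1, -, h2 | ⟨h2, -⟩ | ⟨-, h2⟩⟩ := hab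
        · exact ⟨h1, hS a b h2⟩
        · rw [h2]
          exact ⟨hxy.ne, hxS⟩
        · exact ⟨h1, hS a y h2.symm⟩
      have hx2 := KFI_.two_nb G S x y hS h5c hxy h3
      have hy2 := KFI_.two_nb G S y x hS h5c hxy.symm h3
      rcases hCTR V G S x y hS hxy hPc hx2 hy2 hprop with h | h | h
      · exact h
      · exact absurd h h33
      · exact absurd h h5

end Pool.Agent.KUR
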