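import Pool.Agent.KUR.Lib

/-!
# KTR: from even functions to closed walks
-/

set_option autoImplicit false

namespace Pool.Agent.KUR

open Pool.Agent.ACC

theorem ktr_proof (h1 : Stmt_WEV) : Stmt_KTR := by
  intro V R hR x w
  have hE := h1 V R.P x w
  obtain ⟨c, hc, hcj⟩ := hR _ hE
  refine ⟨c, ⟨hc, ?_⟩, hcj⟩
  refine hE.fin.subset ?_
  rintro ⟨u, v⟩ ⟨huv, hne⟩
  show par w.edges u v ≠ 0
  rw [← hcj u v huv]
  exact fun h => hne (zeq_of_add h)

end Pool.Agent.KUR
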