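import Pool.Agent.KUR.Lib

set_option autoImplicit false

namespace Pool.Agent.KUR

open Pool.Agent.ACC

theorem kur_proof (h1 : Stmt_MON) (h2 : Stmt_KFI) (h3 : Stmt_CMP) (h4 : Stmt_KTR) :
    Stmt_KUR := by
  intro V P hP h33 h5
  have hpl : Plan P := by
    refine h3 V P hP (fun S => ?_)
    refine h2 V (rst P (S : Set V)) S (fun u v h => Finset.mem_coe.mp h.1) ?_ ?_
    · exact fun h => h33 ((h1 V _ P (rst_le P _)).1 h)
    · exact fun h => h5 ((h1 V _ P (rst_le P _)).2 h)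
  obtain ⟨R, hR, hE⟩ := hpl
  exact ⟨R, hR, h4 V R hE⟩

end Pool.Agent.KUR
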