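import Pool.Agent.KUR.Lib

/-!
Squad KUR, module LEF: adding a leaf at a corner of a planar rotation system.
-/

set_option autoImplicit false

namespace Pool.Agent.KUR

open Pool.Agent.ACC

namespace LEF_

variable {V : Type}

/-- the graph with the additional edge `x y` -/
def gr (P : SimpleGraph V) (x y : V) (hxy : x ≠ y) : SimpleGraph V where
  Adj u v := P.Adj u v ∨ (u = x ∧ v = y) ∨ (u = y ∧ v = x)
  symm := ⟨by
    rintro u v (h | ⟨h1, h2⟩ | ⟨h1, h2⟩)
    · exact Or.inl h.symm
    · exact Or.inr (Or.inr ⟨h2, h1⟩)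
    · exact Or.inr (Or.inl ⟨h2, h1⟩)⟩
  loopless := ⟨by
    rintro u (h | ⟨h1, h2⟩ | ⟨h1, h2⟩)
    · exact P.loopless.irrefl _ h
    · exact hxy (h1.symm.trans h2)
    · exact hxy (h2.symm.trans h1)⟩

open Classical in
/-- the new rotation -/
noncomputable def nx' (R : Rot V) (x y a : V) (u v : V) : V :=
  if u = y then x else if u = x ∧ v = a then y else if u = x ∧ v = y then R.nx x a else R.nx u v

open Classical in
/-- the new colouring -/
noncomputable def col (c : V → V → ZMod 2) (x y a : V) (u v : V) : ZMod 2 :=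
  if (u = x ∧ v = y) ∨ (u = y ∧ v = x) then c a x else c u v

theorem nx_y (R : Rot V) (x y a v : V) : nx' R x y a y v = x := by
  unfold nx'
  rw [if_pos rfl]

theorem nx_a (R : Rot V) {x y : V} (a : V) (hxy : x ≠ y) : nx' R x y a x a = y := by
  unfold nx'
  rw [if_neg hxy, if_pos ⟨rfl, rfl⟩]

theorem nx_xy (R : Rot V) {x y a : V} (hxy : x ≠ y) (hay : a ≠ y) :
    nx' R x y a x y = R.nx x a := by
  unfold nx'
  rw [if_neg hxy, if_neg (fun h => hay h.2.symm), if_pos ⟨rfl, rfl⟩]

theorem nx_o (R : Rot V) {x y a u v : V} (h1 : u ≠ y) (h2 : ¬ (u = x ∧ v = a))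
    (h3 : ¬ (u = x ∧ v = y)) : nx' R x y a u v = R.nx u v := by
  unfold nx'
  rw [if_neg h1, if_neg h2, if_neg h3]

theorem col_o (c : V → V → ZMod 2) {x y a u v : V} (h1 : u ≠ y) (h2 : v ≠ y) :
    col c x y a u v = c u v := by
  unfold col
  rw [if_neg]
  rintro (⟨_, h⟩ | ⟨h, _⟩)
  · exact h2 h
  · exact h1 h

theorem col_xy (c : V → V → ZMod 2) (x y a : V) : col c x y a x y = c a x := by
  unfold col
  rw [if_pos (Or.inl ⟨rfl, rfl⟩)]

theorem col_yx (c : V → V → ZMod 2) (x y a : V) : col c x y a y x = c a x := by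
  unfold col
  rw [if_pos (Or.inr ⟨rfl, rfl⟩)]

end LEF_

open LEF_ in
theorem lef_proof : Stmt_LEF := by
  intro V R x y a hR hxa hxy hy
  have hny : ∀ {z w : V}, R.P.Adj z w → w ≠ y := by
    intro z w h e
    subst e
    exact hy _ h.symm
  have hay : a ≠ y := hny hxa
  have hny' : ∀ {z w : V}, R.P.Adj z w → z ≠ y := fun h => hny h.symm
  have hP : ∀ {u v : V}, (gr R.P x y hxy).Adj u v → R.P.Adj u v ∨ (u = x ∧ v = y) ∨
      (u = y ∧ v = x) := fun h => h
  have hyn : ∀ {v : V}, (gr R.P x y hxy).Adj y v → v = x := by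
    intro v h
    rcases hP h with h | ⟨h, _⟩ | ⟨_, h⟩
    · exact absurd h (hy v)
    · exact absurd h.symm hxy
    · exact h
  have hon : ∀ {u v : V}, u ≠ y → v ≠ y → (gr R.P x y hxy).Adj u v → R.P.Adj u v := by
    intro u v h1 h2 h
    rcases hP h with h | ⟨_, h⟩ | ⟨h, _⟩
    · exact h
    · exact absurd h h2
    · exact absurd h h1
  have h1 : ∀ u v, (gr R.P x y hxy).Adj u v → (gr R.P x y hxy).Adj u (nx' R x y a u v) := by
    intro u v h
    by_cases huy : u = y
    · subst huy
      rw [nx_y]
      exact Or.inr (Or.inr ⟨rfl, rfl⟩)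
    · by_cases h2 : u = x ∧ v = a
      · obtain ⟨rfl, rfl⟩ := h2
        rw [nx_a R v hxy]
        exact Or.inr (Or.inl ⟨rfl, rfl⟩)
      · by_cases h3 : u = x ∧ v = y
        · obtain ⟨rfl, rfl⟩ := h3
          rw [nx_xy R hxy hay]
          exact Or.inl (R.nx_adj _ _ hxa)
        · rw [nx_o R huy h2 h3]
          rcases hP h with h | h | ⟨h, _⟩
          · exact Or.inl (R.nx_adj _ _ h)
          · exact absurd h h3
          · exact absurd h huy
  have h2 : ∀ u v z (T : Set V), (gr R.P x y hxy).Adj u v → (gr R.P x y hxy).Adj u z → v ∈ T →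
      (∀ w ∈ T, (gr R.P x y hxy).Adj u w → nx' R x y a u w ∈ T) → z ∈ T := by
    intro u v z T huv huz hvT hT
    by_cases huy : u = y
    · subst huy
      rw [hyn huz, ← hyn huv]
      exact hvT
    · by_cases hux : u = x
      · subst hux
        -- all old neighbours as soon as one old neighbour is in `T`
        have key : ∀ w, R.P.Adj u w → w ∈ T → ∀ w', R.P.Adj u w' → w' ∈ T := by
          intro w hw hwT w' hw'
          have := nx_closed R {s | R.P.Adj u s ∧ s ∈ T} hw hw' ⟨hw, hwT⟩ (by
            rintro s ⟨hs, hsT⟩ -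
            refine ⟨R.nx_adj _ _ hs, ?_⟩
            by_cases hsa : s = a
            · subst hsa
              have h3 := hT s hsT (Or.inl hs)
              rw [nx_a R s hxy] at h3
              have h4 := hT y h3 (Or.inr (Or.inl ⟨rfl, rfl⟩))
              rw [nx_xy R hxy hay] at h4
              exact h4
            · have h3 := hT s hsT (Or.inl hs)
              rw [nx_o R huy (fun h => hsa h.2) (fun h => hny hs h.2)] at h3
              exact h3)
          exact this.2
        have key2 : ∀ w', R.P.Adj u w' → w' ∈ T := by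
          rcases hP huv with h | ⟨_, h⟩ | ⟨h, _⟩
          · exact key v h hvT
          · subst h
            have h4 := hT v hvT (Or.inr (Or.inl ⟨rfl, rfl⟩))
            rw [nx_xy R hxy hay] at h4
            exact key _ (R.nx_adj _ _ hxa) h4
          · exact absurd h huy
        rcases hP huz with h | ⟨_, h⟩ | ⟨h, _⟩
        · exact key2 z h
        · subst h
          have h3 := hT a (key2 a hxa) (Or.inl hxa)
          rw [nx_a R a hxy] at h3
          exact h3
        · exact absurd h huy
      · have hold : ∀ {w : V}, (gr R.P x y hxy).Adj u w → R.P.Adj u w := by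
          intro w h
          rcases hP h with h | ⟨h, _⟩ | ⟨h, _⟩
          · exact h
          · exact absurd h hux
          · exact absurd h huy
        refine nx_closed R T (hold huv) (hold huz) hvT (fun w hwT hw => ?_)
        have h3 := hT w hwT (Or.inl hw)
        rw [nx_o R huy (fun h => hux h.1) (fun h => hux h.1)] at h3
        exact h3
  refine ⟨mkRot (gr R.P x y hxy) (nx' R x y a) h1 h2, ?_, fun u v => Iff.rfl, nx_a R a hxy,
    nx_xy R hxy hay, fun v hv hva => nx_o R hxy (fun h => hva h.2) (fun h => hny hv h.2)⟩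
  intro j hj
  have hj' : EvenF (gr R.P x y hxy) j := hj
  have hjy : j y x = 0 := by
    have h3 := hj'.even y
    rw [finsum_eq_single (j y) x (fun w hw => by
      by_contra h4
      exact hw (hyn (hj'.supp y w h4)))] at h3
    exact h3
  have hjx : j x y = 0 := by rw [hj'.symm]; exact hjy
  have hjR : EvenF R.P j := by
    refine ⟨hj'.symm, fun u v h => ?_, hj'.fin, hj'.even⟩
    rcases hP (hj'.supp u v h) with h3 | ⟨rfl, rfl⟩ | ⟨rfl, rfl⟩
    · exact h3
    · exact absurd hjx h
    · exact absurd hjy h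
  obtain ⟨c, hc, hcj⟩ := hR j hjR
  refine ⟨col c x y a, ?_, ?_⟩
  · intro u v huv
    have huv' : (gr R.P x y hxy).Adj u v := huv
    show col c x y a v (nx' R x y a v u) = col c x y a u v
    by_cases hvy : v = y
    · subst hvy
      have : u = x := hyn huv'.symm
      subst this
      rw [nx_y, col_xy, col_yx]
    · by_cases huy : u = y
      · subst huy
        have : v = x := hyn huv'
        subst this
        rw [nx_xy R hxy hay, col_yx, col_o c hxy (hny (R.nx_adj _ _ hxa))]
        exact hc a v hxa.symm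
      · have hold := hon huy hvy huv'
        by_cases h3 : v = x ∧ u = a
        · obtain ⟨rfl, rfl⟩ := h3
          rw [nx_a R u hxy, col_xy, col_o c huy hvy]
        · rw [nx_o R hvy h3 (fun h => huy h.2), col_o c hvy (hny (R.nx_adj _ _ hold.symm)),
            col_o c huy hvy]
          exact hc u v hold
  · intro u v huv
    have huv' : (gr R.P x y hxy).Adj u v := huv
    rcases hP huv' with h3 | ⟨rfl, rfl⟩ | ⟨rfl, rfl⟩
    · rw [col_o c (hny' h3) (hny h3), col_o c (hny h3) (hny' h3)]
      exact hcj u v h3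
    · rw [col_xy, col_yx, hjx, zadd_self]
    · rw [col_xy, col_yx, hjy, zadd_self]

end Pool.Agent.KUR
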