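import Pool.Agent.KUR.Lib

set_option autoImplicit false

namespace Pool.Agent.KUR

open Pool.Agent.ACC

namespace MCT_

variable {V : Type}

/-- the branch set with `y` added if it contains `x` -/
def ext (x y : V) (S : Set V) : Set V := {z | z ∈ S ∨ (z = y ∧ x ∈ S)}

theorem not_mem {G : SimpleGraph V} {x y : V} (hxy : x ≠ y) {S : Set V}
    (hS : Cn (contr G x y) S) {u v : V} (hu : u ∈ S) (huv : (contr G x y).Adj u v) : y ∉ S := by
  intro hy
  have huy : u ≠ y := ((contr_adj G hxy u v).mp huv).2.1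
  have h1 : Rch (contr G x y) S y u := hS.rch hy hu
  have h2 : u ∈ ({y} : Set V) := by
    refine h1.closed {y} rfl ?_
    intro a ha b _ hab
    have := ((contr_adj G hxy a b).mp hab).2.1
    exact absurd ha this
  exact huy h2

theorem cn_ext {G : SimpleGraph V} {x y : V} (hxy : G.Adj x y) {S : Set V}
    (hS : Cn (contr G x y) S) : Cn G (ext x y S) := by
  have hne : x ≠ y := hxy.ne
  obtain ⟨s, hs⟩ := hS.1
  have hsub : ∀ z ∈ S, z ∈ ext x y S := fun z hz => Or.inl hz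
  have key : ∀ z ∈ S, Rch G (ext x y S) s z := by
    intro z hz
    have h1 : Rch (contr G x y) S s z := hS.rch hs hz
    have h2 : z ∈ {z | z ∈ S ∧ Rch G (ext x y S) s z} := by
      refine h1.closed {z | z ∈ S ∧ Rch G (ext x y S) s z} ⟨hs, Rch.refl G (hsub s hs)⟩ ?_
      rintro u ⟨hu, hru⟩ v hv huv
      refine ⟨hv, hru.trans ?_⟩
      rcases ((contr_adj G hne u v).mp huv).2.2.2 with h | ⟨h, h'⟩ | ⟨h, h'⟩
      · exact Rch.of_adj (hsub u hu) (hsub v hv) h
      · subst h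
        have hy : y ∈ ext u y S := Or.inr ⟨rfl, hu⟩
        exact (Rch.of_adj (hsub u hu) hy hxy).trans (Rch.of_adj hy (hsub v hv) h')
      · subst h
        have hy : y ∈ ext v y S := Or.inr ⟨rfl, hv⟩
        exact (Rch.of_adj (hsub u hu) hy h'.symm).trans (Rch.of_adj hy (hsub v hv) hxy.symm)
    exact h2.2
  refine cn_of_rch (hsub s hs) ?_
  rintro z (hz | ⟨rfl, hx⟩)
  · exact key z hz
  · exact (key x hx).trans (Rch.of_adj (hsub x hx) (Or.inr ⟨rfl, hx⟩) hxy)

theorem adj_ext {G : SimpleGraph V} {x y : V} (hxy : x ≠ y) {S T : Set V}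
    (h : ∃ u ∈ S, ∃ v ∈ T, (contr G x y).Adj u v) : ∃ u ∈ ext x y S, ∃ v ∈ ext x y T, G.Adj u v := by
  obtain ⟨u, hu, v, hv, huv⟩ := h
  rcases ((contr_adj G hxy u v).mp huv).2.2.2 with h | ⟨h, h'⟩ | ⟨h, h'⟩
  · exact ⟨u, Or.inl hu, v, Or.inl hv, h⟩
  · subst h
    exact ⟨y, Or.inr ⟨rfl, hu⟩, v, Or.inl hv, h'⟩
  · subst h
    exact ⟨u, Or.inl hu, y, Or.inr ⟨rfl, hv⟩, h'.symm⟩

theorem disj_ext {x y : V} {S T : Set V} (h : Disjoint S T) (hS : y ∉ S) (hT : y ∉ T) :
    Disjoint (ext x y S) (ext x y T) := by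
  rw [Set.disjoint_left] at h ⊢
  rintro z (hz | ⟨hz, hx⟩) (hz' | ⟨hz', hx'⟩)
  · exact h hz hz'
  · rw [hz'] at hz
    exact hS hz
  · rw [hz] at hz'
    exact hT hz'
  · exact h hx hx'

end MCT_

open MCT_

theorem mct_proof : Stmt_MCT := by
  intro V G x y hxy
  have hne : x ≠ y := hxy.ne
  constructor
  · rintro ⟨A, B, h⟩
    have hA : ∀ i, y ∉ A i := by
      intro i
      obtain ⟨u, hu, v, hv, huv⟩ := h.adj i 0
      exact not_mem hne (h.ca i) hu huv
    have hB : ∀ i, y ∉ B i := by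
      intro i
      obtain ⟨u, hu, v, hv, huv⟩ := h.adj 0 i
      exact not_mem hne (h.cb i) hv huv.symm
    refine ⟨fun i => ext x y (A i), fun i => ext x y (B i), ⟨?_, ?_, ?_, ?_, ?_, ?_⟩⟩
    · exact fun i => cn_ext hxy (h.ca i)
    · exact fun i => cn_ext hxy (h.cb i)
    · exact fun i j hij => disj_ext (h.da i j hij) (hA i) (hA j)
    · exact fun i j hij => disj_ext (h.db i j hij) (hB i) (hB j)
    · exact fun i j => disj_ext (h.dab i j) (hA i) (hB j)
    · exact fun i j => adj_ext hne (h.adj i j)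
  · rintro ⟨A, h⟩
    have hA : ∀ i, y ∉ A i := by
      intro i
      obtain ⟨j, hj⟩ : ∃ j : Fin 5, i ≠ j := by
        revert i
        decide
      obtain ⟨u, hu, v, hv, huv⟩ := h.adj i j hj
      exact not_mem hne (h.c i) hu huv
    refine ⟨fun i => ext x y (A i), ⟨?_, ?_, ?_⟩⟩
    · exact fun i => cn_ext hxy (h.c i)
    · exact fun i j hij => disj_ext (h.d i j hij) (hA i) (hA j)
    · exact fun i j hij => adj_ext hne (h.adj i j hij)

end Pool.Agent.KUR
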