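import Pool.Agent.KUR.Lib

/-!
# MON: minors are monotone
-/

set_option autoImplicit false

namespace Pool.Agent.KUR

open Pool.Agent.ACC

theorem mon_proof : Stmt_MON := by
  intro V P Q hPQ
  refine ⟨?_, ?_⟩
  · rintro ⟨A, B, h⟩
    refine ⟨A, B, ⟨fun i => (h.ca i).mono hPQ, fun i => (h.cb i).mono hPQ, h.da, h.db, h.dab,
      fun i j => ?_⟩⟩
    obtain ⟨x, hx, y, hy, hxy⟩ := h.adj i j
    exact ⟨x, hx, y, hy, hPQ hxy⟩
  · rintro ⟨A, h⟩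
    refine ⟨A, ⟨fun i => (h.c i).mono hPQ, h.d, fun i j hij => ?_⟩⟩
    obtain ⟨x, hx, y, hy, hxy⟩ := h.adj i j hij
    exact ⟨x, hx, y, hy, hPQ hxy⟩

end Pool.Agent.KUR
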