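import Pool.Agent.KUR.Lib

/-!
# KUR/MSP: a virtual edge can be replaced by a connected set outside
-/

set_option autoImplicit false

namespace Pool.Agent.KUR

open Pool.Agent.ACC

namespace MSP_

lemma gen {V I : Type} (G : SimpleGraph V) (A C : Set V) (p q : V) (hp : p ∈ A) (hq : q ∈ A)
    (hpq : p ≠ q) (hC : Cn G C) (hd : Disjoint A C) (hpc : ∃ c ∈ C, G.Adj p c)
    (hqc : ∃ c ∈ C, G.Adj q c) (S : I → Set V)
    (hS : ∀ i, Cn (rst G A ⊔ SimpleGraph.edge p q) (S i))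
    (hdis : ∀ i j, i ≠ j → Disjoint (S i) (S j))
    (hadj : ∀ i, ∃ x ∈ S i, ∃ y, (rst G A ⊔ SimpleGraph.edge p q).Adj x y) :
    ∃ S' : I → Set V, (∀ i, Cn G (S' i)) ∧ (∀ i j, i ≠ j → Disjoint (S' i) (S' j)) ∧
      ∀ i j, i ≠ j → (∃ x ∈ S i, ∃ y ∈ S j, (rst G A ⊔ SimpleGraph.edge p q).Adj x y) →
        ∃ x ∈ S' i, ∃ y ∈ S' j, G.Adj x y := by
  obtain ⟨c0, hc0, hpc0⟩ := hpc
  obtain ⟨c1, hc1, hqc1⟩ := hqc
  have hH : ∀ u v, (rst G A ⊔ SimpleGraph.edge p q).Adj u v →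
      (u ∈ A ∧ v ∈ A ∧ G.Adj u v) ∨ (u = p ∧ v = q) ∨ (u = q ∧ v = p) := by
    intro u v h
    rw [SimpleGraph.sup_adj, rst_adj, edge_adj' hpq] at h
    exact h
  have hHA : ∀ u v, (rst G A ⊔ SimpleGraph.edge p q).Adj u v → u ∈ A ∧ v ∈ A := by
    intro u v h
    rcases hH u v h with ⟨h1, h2, -⟩ | ⟨h1, h2⟩ | ⟨h1, h2⟩
    · exact ⟨h1, h2⟩
    · rw [h1, h2]; exact ⟨hp, hq⟩
    · rw [h1, h2]; exact ⟨hq, hp⟩
  have hSA : ∀ i, S i ⊆ A := by
    intro i z hz
    obtain ⟨x, hx, y, hxy⟩ := hadj i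
    exact ((hS i).rch hx hz).closed A (hHA x y hxy).1 (fun u _ v _ huv => (hHA u v huv).2)
  refine ⟨fun i => S i ∪ {c | c ∈ C ∧ p ∈ S i}, ?_, ?_, ?_⟩
  · intro i
    by_cases hpi : p ∈ S i
    · have hset : S i ∪ {c | c ∈ C ∧ p ∈ S i} = S i ∪ C := by
        ext z
        constructor
        · rintro (h | h)
          · exact Or.inl h
          · exact Or.inr h.1
        · rintro (h | h)
          · exact Or.inl h
          · exact Or.inr ⟨h, hpi⟩
      show Cn G (S i ∪ {c | c ∈ C ∧ p ∈ S i})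
      rw [hset]
      have hCr : ∀ z ∈ C, Rch G (S i ∪ C) p z := by
        intro z hz
        have h1 : Rch G (S i ∪ C) p c0 := Rch.of_adj (Or.inl hpi) (Or.inr hc0) hpc0
        exact h1.trans ((hC.rch hc0 hz).mono le_rfl Set.subset_union_right)
      refine cn_of_rch (x := p) (Or.inl hpi) ?_
      rintro z (hz | hz)
      · refine ((hS i).rch hpi hz).closed {z | Rch G (S i ∪ C) p z}
          (Rch.refl G (Or.inl hpi)) ?_
        intro u hu v hv huv
        have hu' : Rch G (S i ∪ C) p u := hu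
        show Rch G (S i ∪ C) p v
        rcases hH u v huv with ⟨-, -, h3⟩ | ⟨h1, h2⟩ | ⟨h1, h2⟩
        · exact hu'.trans (Rch.of_adj hu'.right (Or.inl hv) h3)
        · rw [h2]
          rw [h2] at hv
          exact (hCr c1 hc1).trans (Rch.of_adj (Or.inr hc1) (Or.inl hv) hqc1.symm)
        · rw [h2]
          exact Rch.refl G (Or.inl hpi)
      · exact hCr z hz
    · have hset : S i ∪ {c | c ∈ C ∧ p ∈ S i} = S i := by
        ext z
        constructor
        · rintro (h | h)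
          · exact h
          · exact absurd h.2 hpi
        · intro h
          exact Or.inl h
      show Cn G (S i ∪ {c | c ∈ C ∧ p ∈ S i})
      rw [hset]
      obtain ⟨x, hx⟩ := (hS i).1
      refine cn_of_rch (x := x) hx ?_
      intro z hz
      refine ((hS i).rch hx hz).closed {z | Rch G (S i) x z} (Rch.refl G hx) ?_
      intro u hu v hv huv
      have hu' : Rch G (S i) x u := hu
      show Rch G (S i) x v
      rcases hH u v huv with ⟨-, -, h3⟩ | ⟨h1, h2⟩ | ⟨h1, h2⟩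
      · exact hu'.trans (Rch.of_adj hu'.right hv h3)
      · exact absurd (h1 ▸ hu'.right) hpi
      · exact absurd (h2 ▸ hv) hpi
  · intro i j hij
    rw [Set.disjoint_left]
    rintro z (hz | hz) (hz' | hz')
    · exact Set.disjoint_left.mp (hdis i j hij) hz hz'
    · exact Set.disjoint_left.mp hd (hSA i hz) hz'.1
    · exact Set.disjoint_left.mp hd (hSA j hz') hz.1
    · exact Set.disjoint_left.mp (hdis i j hij) hz.2 hz'.2
  · rintro i j hij ⟨x, hx, y, hy, hxy⟩
    rcases hH x y hxy with ⟨-, -, h3⟩ | ⟨h1, h2⟩ | ⟨h1, h2⟩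
    · exact ⟨x, Or.inl hx, y, Or.inl hy, h3⟩
    · rw [h1] at hx
      rw [h2] at hy
      exact ⟨c1, Or.inr ⟨hc1, hx⟩, q, Or.inl hy, hqc1.symm⟩
    · rw [h1] at hx
      rw [h2] at hy
      exact ⟨q, Or.inl hx, c1, Or.inr ⟨hc1, hy⟩, hqc1⟩

end MSP_

open MSP_ in
theorem msp_proof : Stmt_MSP := by
  intro V G A C p q hp hq hpq hC hd hpc hqc
  constructor
  · rintro ⟨X, Y, hM⟩
    obtain ⟨S', h1, h2, h3⟩ := gen G A C p q hp hq hpq hC hd hpc hqc
      (Sum.elim X Y : Fin 3 ⊕ Fin 3 → Set V) (by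
        rintro (i | i)
        · exact hM.ca i
        · exact hM.cb i) (by
        rintro (i | i) (j | j) hij
        · exact hM.da i j (fun h => hij (by rw [h]))
        · exact hM.dab i j
        · exact (hM.dab j i).symm
        · exact hM.db i j (fun h => hij (by rw [h]))) (by
        rintro (i | i)
        · obtain ⟨x, hx, y, -, hxy⟩ := hM.adj i 0
          exact ⟨x, hx, y, hxy⟩
        · obtain ⟨x, -, y, hy, hxy⟩ := hM.adj 0 i
          exact ⟨y, hy, x, hxy.symm⟩)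
    refine ⟨fun i => S' (Sum.inl i), fun i => S' (Sum.inr i), ?_⟩
    refine ⟨fun i => h1 _, fun i => h1 _, ?_, ?_, ?_, ?_⟩
    · intro i j hij
      exact h2 _ _ (fun h => hij (Sum.inl.inj h))
    · intro i j hij
      exact h2 _ _ (fun h => hij (Sum.inr.inj h))
    · intro i j
      exact h2 _ _ (fun h => Sum.inl_ne_inr h)
    · intro i j
      exact h3 (Sum.inl i) (Sum.inr j) (fun h => Sum.inl_ne_inr h) (hM.adj i j)
  · rintro ⟨X, hM⟩
    obtain ⟨S', h1, h2, h3⟩ := gen G A C p q hp hq hpq hC hd hpc hqc X hM.c hM.d (by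
      intro i
      have hne : ∃ j : Fin 5, i ≠ j := by
        by_cases h0 : i = 0
        · exact ⟨1, by rw [h0]; decide⟩
        · exact ⟨0, h0⟩
      obtain ⟨j, hj⟩ := hne
      obtain ⟨x, hx, y, -, hxy⟩ := hM.adj i j hj
      exact ⟨x, hx, y, hxy⟩)
    exact ⟨S', h1, h2, fun i j hij => h3 i j hij (hM.adj i j hij)⟩

end Pool.Agent.KUR
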