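import Pool.Agent.KUR.Lib

/-!
Squad KUR, module SLD: sliding the edges `x b_i` to `y b_i`.
-/

set_option autoImplicit false

namespace Pool.Agent.KUR

open Pool.Agent.ACC

namespace SLD_

variable {V : Type}

/-- iterates after one deletion -/
theorem iter_eq (R R2 : Rot V) (x y : V) (m : ℕ)
    (h0 : R2.nx x y = R.nx x (R.nx x y))
    (h1 : ∀ j, 1 ≤ j → j ≤ m → R2.nx x ((R.nx x)^[j + 1] y) = (R.nx x)^[j + 2] y) :
    ∀ j, 1 ≤ j → j ≤ m + 1 → (R2.nx x)^[j] y = (R.nx x)^[j + 1] y := by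
  intro j hj
  induction j, hj using Nat.le_induction with
  | base =>
    intro _
    show R2.nx x y = R.nx x (R.nx x y)
    exact h0
  | succ j hj ih =>
    intro hjm
    rw [Function.iterate_succ_apply', ih (by omega), h1 j hj (by omega)]

/-- bookkeeping of the adjacency -/
theorem adj_iff {A A2 : V → V → Prop} {x y : V} {b : ℕ → V} {m : ℕ} (hxy : x ≠ y)
    (hbx : ∀ i, i ≤ m + 1 → b i ≠ x) (hby : ∀ i, i ≤ m + 1 → b i ≠ y)
    (hA2 : ∀ u v, A2 u v ↔ (A u v ∨ (u = y ∧ v = b 0) ∨ (u = b 0 ∧ v = y)) ∧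
      ¬ (u = x ∧ v = b 0) ∧ ¬ (u = b 0 ∧ v = x)) (u v : V) :
    ((A2 u v ∧ ¬ ∃ i, i < m ∧ ((u = x ∧ v = b (i + 1)) ∨ (v = x ∧ u = b (i + 1)))) ∨
      ∃ i, i ≤ m ∧ ((u = y ∧ v = b (i + 1)) ∨ (v = y ∧ u = b (i + 1)))) ↔
    ((A u v ∧ ¬ ∃ i, i < m + 1 ∧ ((u = x ∧ v = b i) ∨ (v = x ∧ u = b i))) ∨
      ∃ i, i ≤ m + 1 ∧ ((u = y ∧ v = b i) ∨ (v = y ∧ u = b i))) := by
  constructor
  · rintro (⟨h2, hn⟩ | ⟨i, hi, h⟩)
    · rw [hA2] at h2
      obtain ⟨h3 | ⟨h3, h4⟩ | ⟨h3, h4⟩, h5, h6⟩ := h2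
      · left
        refine ⟨h3, ?_⟩
        rintro ⟨i, hi, h⟩
        rcases Nat.eq_zero_or_pos i with h0 | h0
        · subst h0
          rcases h with ⟨h7, h8⟩ | ⟨h7, h8⟩
          · exact h5 ⟨h7, h8⟩
          · exact h6 ⟨h8, h7⟩
        · obtain ⟨k, rfl⟩ : ∃ k, i = k + 1 := ⟨i - 1, by omega⟩
          exact hn ⟨k, by omega, h⟩
      · right
        exact ⟨0, by omega, Or.inl ⟨h3, h4⟩⟩
      · right
        exact ⟨0, by omega, Or.inr ⟨h4, h3⟩⟩
    · right
      exact ⟨i + 1, by omega, h⟩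
  · rintro (⟨h2, hn⟩ | ⟨i, hi, h⟩)
    · left
      refine ⟨?_, ?_⟩
      · rw [hA2]
        refine ⟨Or.inl h2, ?_, ?_⟩
        · rintro ⟨h3, h4⟩
          exact hn ⟨0, by omega, Or.inl ⟨h3, h4⟩⟩
        · rintro ⟨h3, h4⟩
          exact hn ⟨0, by omega, Or.inr ⟨h4, h3⟩⟩
      · rintro ⟨i, hi, h⟩
        exact hn ⟨i + 1, by omega, h⟩
    · rcases Nat.eq_zero_or_pos i with h0 | h0
      · subst h0
        left
        rcases h with ⟨h3, h4⟩ | ⟨h3, h4⟩
        · subst h3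
          subst h4
          refine ⟨?_, ?_⟩
          · rw [hA2]
            refine ⟨Or.inr (Or.inl ⟨rfl, rfl⟩), ?_, ?_⟩
            · rintro ⟨h5, -⟩
              exact hxy h5.symm
            · rintro ⟨h5, -⟩
              exact hby 0 (by omega) h5.symm
          · rintro ⟨i, hi, ⟨h5, -⟩ | ⟨-, h6⟩⟩
            · exact hxy h5.symm
            · exact hby (i + 1) (by omega) h6.symm
        · subst h3
          subst h4
          refine ⟨?_, ?_⟩
          · rw [hA2]
            refine ⟨Or.inr (Or.inr ⟨rfl, rfl⟩), ?_, ?_⟩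
            · rintro ⟨h5, -⟩
              exact hbx 0 (by omega) h5
            · rintro ⟨-, h5⟩
              exact hxy h5.symm
          · rintro ⟨i, hi, ⟨h5, -⟩ | ⟨h6, -⟩⟩
            · exact hbx 0 (by omega) h5
            · exact hxy h6.symm
      · obtain ⟨k, rfl⟩ : ∃ k, i = k + 1 := ⟨i - 1, by omega⟩
        right
        exact ⟨k, by omega, h⟩

end SLD_

open SLD_ in
theorem sld_proof (h1 : Stmt_TRI) (h2 : Stmt_DEL) : Stmt_SLD := by
  intro V m
  induction m with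
  | zero =>
    intro R x y hP hxy hinj hna
    have hyb : y ≠ R.nx x y := by
      intro h
      have := hinj 0 1 (by omega) (by omega) (by simpa using h)
      omega
    obtain ⟨R1, hP1, hA1, -⟩ := h1 V R x y (R.nx x y) hP hxy rfl hyb
      (by simpa using hna 0 le_rfl)
    refine ⟨R1, hP1, fun u v => ?_⟩
    rw [hA1]
    constructor
    · rintro (h | ⟨h3, h4⟩ | ⟨h3, h4⟩)
      · left
        exact ⟨h, by rintro ⟨i, hi, -⟩; omega⟩
      · right
        exact ⟨0, le_rfl, Or.inl ⟨h3, by simpa using h4⟩⟩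
      · right
        exact ⟨0, le_rfl, Or.inr ⟨h4, by simpa using h3⟩⟩
    · rintro (⟨h, -⟩ | ⟨i, hi, h⟩)
      · exact Or.inl h
      · have hi0 : i = 0 := by omega
        subst hi0
        rcases h with ⟨h3, h4⟩ | ⟨h3, h4⟩
        · exact Or.inr (Or.inl ⟨h3, by simpa using h4⟩)
        · exact Or.inr (Or.inr ⟨by simpa using h4, h3⟩)
  | succ m ih =>
    intro R x y hP hxy hinj hna
    have hadj : ∀ i, R.P.Adj x ((R.nx x)^[i] y) := fun i => nx_iter_adj R hxy i
    have hyb : y ≠ R.nx x y := by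
      intro h
      have := hinj 0 1 (by omega) (by omega) (by simpa using h)
      omega
    obtain ⟨R1, hP1, hA1, hn1⟩ := h1 V R x y (R.nx x y) hP hxy rfl hyb
      (by simpa using hna 0 (by omega))
    have hxb : R.P.Adj x (R.nx x y) := R.nx_adj x y hxy
    have hsub : ∀ u v, R.P.Adj u v → R1.P.Adj u v := fun u v h => (hA1 u v).2 (Or.inl h)
    obtain ⟨R2, hP2, hA2, hn2, hn2'⟩ := h2 V R1 x (R.nx x y) hP1 (hsub _ _ hxb)
    have hA2' : ∀ u v, R2.P.Adj u v ↔
        (R.P.Adj u v ∨ (u = y ∧ v = R.nx x y) ∨ (u = R.nx x y ∧ v = y)) ∧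
        ¬ (u = x ∧ v = R.nx x y) ∧ ¬ (u = R.nx x y ∧ v = x) := by
      intro u v
      rw [hA2, hA1]
    have hxyne : x ≠ y := hxy.ne
    have hbx : ∀ i, (R.nx x)^[i] y ≠ x := fun i h => (hadj i).ne h.symm
    have hby : ∀ i, 1 ≤ i → i ≤ m + 2 → (R.nx x)^[i] y ≠ y := by
      intro i hi hi2 h
      have := hinj i 0 (by omega) (by omega) (by simpa using h)
      omega
    have hbb : ∀ i, i ≤ m + 1 → (R.nx x)^[i + 1] y = R.nx x y → i = 0 := by
      intro i hi h
      have := hinj (i + 1) 1 (by omega) (by omega) (by simpa using h)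
      omega
    have hxy2 : R2.P.Adj x y := by
      rw [hA2']
      refine ⟨Or.inl hxy, ?_, ?_⟩
      · rintro ⟨-, h⟩
        exact hyb h
      · rintro ⟨h, -⟩
        exact hxb.ne h
    have it : ∀ j, 1 ≤ j → j ≤ m + 1 → (R2.nx x)^[j] y = (R.nx x)^[j + 1] y := by
      refine iter_eq R R2 x y m ?_ ?_
      · rw [hn2' y (hsub _ _ hxy) hyb (hn1 y hxy), hn1 _ hxb]
      · intro j hj hjm
        have e1 : (R.nx x)^[j + 1] y ≠ R.nx x y := fun h => by
          have := hbb j (by omega) h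
          omega
        have e2 : R1.nx x ((R.nx x)^[j + 1] y) = (R.nx x)^[j + 2] y := by
          rw [hn1 _ (hadj _), ← Function.iterate_succ_apply' (R.nx x)]
        rw [hn2 _ (hsub _ _ (hadj _)) e1 ?_, e2]
        rw [e2]
        intro h
        have := hbb (j + 1) (by omega) h
        omega
    have c1 : ∀ i j, i ≤ m + 1 → j ≤ m + 1 → (R2.nx x)^[i] y = (R2.nx x)^[j] y → i = j := by
      intro i j hi hj h
      rcases Nat.eq_zero_or_pos i with hi0 | hi0 <;> rcases Nat.eq_zero_or_pos j with hj0 | hj0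
      · omega
      · subst hi0
        rw [it j hj0 hj] at h
        exact absurd h.symm (hby (j + 1) (by omega) (by omega))
      · subst hj0
        rw [it i hi0 hi] at h
        exact absurd h (hby (i + 1) (by omega) (by omega))
      · rw [it i hi0 hi, it j hj0 hj] at h
        have := hinj (i + 1) (j + 1) (by omega) (by omega) h
        omega
    have c2 : ∀ i, i ≤ m → ¬ R2.P.Adj y ((R2.nx x)^[i + 1] y) := by
      intro i hi h
      rw [it (i + 1) (by omega) (by omega), hA2'] at h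
      obtain ⟨h3 | ⟨-, h4⟩ | ⟨h3, -⟩, -, -⟩ := h
      · exact hna (i + 1) (by omega) h3
      · have := hbb (i + 1) (by omega) h4
        omega
      · exact hyb h3
    obtain ⟨R', hP', hA'⟩ := ih R2 x y hP2 hxy2 c1 c2
    refine ⟨R', hP', fun u v => ?_⟩
    rw [hA']
    have e : ∀ i, i ≤ m → (R2.nx x)^[i + 1] y = (R.nx x)^[i + 1 + 1] y :=
      fun i hi => it (i + 1) (by omega) (by omega)
    have key := adj_iff (A := R.P.Adj) (A2 := R2.P.Adj) (b := fun i => (R.nx x)^[i + 1] y)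
      (m := m) hxyne (fun i hi => hbx (i + 1)) (fun i hi => hby (i + 1) (by omega) (by omega))
      hA2' u v
    rw [← key]
    constructor
    · rintro (⟨h3, h4⟩ | ⟨i, hi, h⟩)
      · left
        refine ⟨h3, ?_⟩
        rintro ⟨i, hi, h⟩
        exact h4 ⟨i, hi, by rw [e i (by omega)]; exact h⟩
      · right
        exact ⟨i, hi, by rw [e i hi] at h; exact h⟩
    · rintro (⟨h3, h4⟩ | ⟨i, hi, h⟩)
      · left
        refine ⟨h3, ?_⟩
        rintro ⟨i, hi, h⟩
        exact h4 ⟨i, hi, by rw [e i (by omega)] at h; exact h⟩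
      · right
        exact ⟨i, hi, by rw [e i hi]; exact h⟩

end Pool.Agent.KUR
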