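import Pool.Agent.KUR.Lib

set_option autoImplicit false

namespace Pool.Agent.KUR

open Pool.Agent.ACC

namespace SM4_

variable {V : Type}

theorem plan_bot : Plan (⊥ : SimpleGraph V) := by
  refine ⟨⟨⊥, fun _ y => y, fun _ _ h => h, fun _ _ _ h => absurd h (by simp)⟩, rfl, ?_⟩
  intro j _
  refine ⟨fun _ _ => 0, fun _ _ _ => rfl, ?_⟩
  intro x y h
  exact absurd h (by simp)

theorem edge_rot (x a : V) (h : x ≠ a) : ∃ R : Rot V, PlE R ∧
    (∀ u v, R.P.Adj u v ↔ (u = x ∧ v = a) ∨ (u = a ∧ v = x)) ∧ R.nx x a = a := by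
  refine ⟨⟨SimpleGraph.edge x a, fun _ y => y, fun _ _ h => h, ?_⟩, ?_, ?_, rfl⟩
  · intro u y y' h1 h2
    refine ⟨0, ?_⟩
    rw [edge_adj' h] at h1 h2
    show y = y'
    rcases h1 with ⟨h1, h1'⟩ | ⟨h1, h1'⟩ <;> rcases h2 with ⟨h2, h2'⟩ | ⟨h2, h2'⟩
    · rw [h1', h2']
    · exact absurd (h1.symm.trans h2) h
    · exact absurd (h2.symm.trans h1) h
    · rw [h1', h2']
  · intro j hj
    have hj' : ∀ u v, j u v ≠ 0 → (u = x ∧ v = a) ∨ (u = a ∧ v = x) := by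
      intro u v huv
      have := hj.supp u v huv
      rw [edge_adj' h] at this
      exact this
    have h0 : j x a = 0 := by
      rw [← hj.even x, finsum_eq_single (j x) a]
      intro y hy
      by_contra hne
      rcases hj' x y hne with ⟨_, h1⟩ | ⟨h1, _⟩
      · exact hy h1
      · exact h h1
    refine ⟨fun _ _ => 0, fun _ _ _ => rfl, ?_⟩
    intro u v huv
    rw [edge_adj' h] at huv
    rcases huv with ⟨h1, h2⟩ | ⟨h1, h2⟩
    · rw [h1, h2, h0]; simp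
    · rw [h1, h2, hj.symm, h0]; simp
  · intro u v
    exact edge_adj' h u v

theorem tri_rot (hL : Stmt_LEF) (hT : Stmt_TRI) (x a b : V) (hxa : x ≠ a) (hxb : x ≠ b)
    (hab : a ≠ b) : ∃ R : Rot V, PlE R ∧
    (∀ u v, R.P.Adj u v ↔ (((u = x ∧ v = a) ∨ (u = a ∧ v = x)) ∨ (u = x ∧ v = b) ∨
      (u = b ∧ v = x)) ∨ (u = a ∧ v = b) ∨ (u = b ∧ v = a)) ∧
    R.nx x a = b ∧ R.nx x b = a := by
  obtain ⟨R1, hP1, hA1, hn1⟩ := edge_rot x a hxa
  obtain ⟨R2, hP2, hA2, hn2, hn2', -⟩ := hL V R1 x b a hP1 ((hA1 x a).2 (Or.inl ⟨rfl, rfl⟩)) hxb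
    (by
      intro z hz
      rw [hA1] at hz
      rcases hz with ⟨h1, _⟩ | ⟨h1, _⟩
      · exact hxb h1.symm
      · exact hab h1.symm)
  have hxa2 : R2.P.Adj x a := (hA2 x a).2 (Or.inl ((hA1 x a).2 (Or.inl ⟨rfl, rfl⟩)))
  have hxb2 : R2.P.Adj x b := (hA2 x b).2 (Or.inr (Or.inl ⟨rfl, rfl⟩))
  obtain ⟨R3, hP3, hA3, hn3⟩ := hT V R2 x a b hP2 hxa2 hn2 hab
    (by
      intro hz
      rw [hA2, hA1] at hz
      rcases hz with (⟨h1, _⟩ | ⟨_, h1⟩) | ⟨h1, _⟩ | ⟨h1, _⟩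
      · exact hxa h1.symm
      · exact hxb h1.symm
      · exact hxa h1.symm
      · exact hab h1)
  refine ⟨R3, hP3, ?_, ?_, ?_⟩
  · intro u v
    rw [hA3, hA2, hA1]
  · rw [hn3 a hxa2, hn2]
  · rw [hn3 b hxb2, hn2', hn1]

theorem four (hL : Stmt_LEF) (hT : Stmt_TRI) (hU : Stmt_UNC) (hS : Stmt_SUB) (P : SimpleGraph V)
    (x a b y : V) (hxa : x ≠ a) (hxb : x ≠ b) (hab : a ≠ b) (hyx : y ≠ x) (hya : y ≠ a)
    (hyb : y ≠ b) (hP : ∀ u v, P.Adj u v → u = x ∨ u = a ∨ u = b ∨ u = y) : Plan P := by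
  obtain ⟨R, hR, hA, hn1, hn2⟩ := tri_rot hL hT x a b hxa hxb hab
  have hU' := hU V R x y a 2 1 hR ((hA x a).2 (Or.inl (Or.inl (Or.inl ⟨rfl, rfl⟩)))) hyx.symm
    (by
      intro z hz
      rw [hA] at hz
      rcases hz with ((⟨h1, _⟩ | ⟨h1, _⟩) | ⟨h1, _⟩ | ⟨h1, _⟩) | ⟨h1, _⟩ | ⟨h1, _⟩
      · exact hyx h1
      · exact hya h1
      · exact hyx h1
      · exact hyb h1
      · exact hya h1
      · exact hyb h1)
    (by
      show R.nx x (R.nx x a) = a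
      rw [hn1, hn2])
    (by
      intro i j hi hj hij
      have h0 : (R.nx x)^[0] a = a := rfl
      have h1 : (R.nx x)^[1] a = b := hn1
      interval_cases i <;> interval_cases j
      · rfl
      · rw [h0, h1] at hij; exact absurd hij hab
      · rw [h0, h1] at hij; exact absurd hij.symm hab
      · rfl) le_rfl (by norm_num)
  refine hS V _ P ?_ hU'
  have ha1 : a ∈ {v | ∃ i, i ≤ 1 ∧ v = (R.nx x)^[i] a} := ⟨0, by norm_num, rfl⟩
  have hb1 : b ∈ {v | ∃ i, i ≤ 1 ∧ v = (R.nx x)^[i] a} := ⟨1, by norm_num, hn1.symm⟩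
  have ha2 : a ∈ {v | ∃ i, 1 ≤ i ∧ i ≤ 2 ∧ v = (R.nx x)^[i] a} :=
    ⟨2, by norm_num, by norm_num, by show a = R.nx x (R.nx x a); rw [hn1, hn2]⟩
  have hb2 : b ∈ {v | ∃ i, 1 ≤ i ∧ i ≤ 2 ∧ v = (R.nx x)^[i] a} :=
    ⟨1, by norm_num, by norm_num, hn1.symm⟩
  have hRab : R.P.Adj a b := (hA a b).2 (Or.inr (Or.inl ⟨rfl, rfl⟩))
  intro u v huv
  have hne : u ≠ v := huv.ne
  rw [splitG, SimpleGraph.fromRel_adj]
  refine ⟨hne, ?_⟩
  rcases hP u v huv with rfl | rfl | rfl | rfl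
  · rcases hP v u huv.symm with rfl | rfl | rfl | rfl
    · exact absurd rfl hne
    · exact Or.inl (Or.inr (Or.inl ⟨rfl, ha1⟩))
    · exact Or.inl (Or.inr (Or.inl ⟨rfl, hb1⟩))
    · exact Or.inl (Or.inr (Or.inr (Or.inr ⟨rfl, rfl⟩)))
  · rcases hP v u huv.symm with rfl | rfl | rfl | rfl
    · exact Or.inr (Or.inr (Or.inl ⟨rfl, ha1⟩))
    · exact absurd rfl hne
    · exact Or.inl (Or.inl ⟨hxa.symm, hya.symm, hxb.symm, hyb.symm, hRab⟩)
    · exact Or.inr (Or.inr (Or.inr (Or.inl ⟨rfl, ha2⟩)))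
  · rcases hP v u huv.symm with rfl | rfl | rfl | rfl
    · exact Or.inr (Or.inr (Or.inl ⟨rfl, hb1⟩))
    · exact Or.inl (Or.inl ⟨hxb.symm, hyb.symm, hxa.symm, hya.symm, hRab.symm⟩)
    · exact absurd rfl hne
    · exact Or.inr (Or.inr (Or.inr (Or.inl ⟨rfl, hb2⟩)))
  · rcases hP v u huv.symm with rfl | rfl | rfl | rfl
    · exact Or.inr (Or.inr (Or.inr (Or.inr ⟨rfl, rfl⟩)))
    · exact Or.inl (Or.inr (Or.inr (Or.inl ⟨rfl, ha2⟩)))
    · exact Or.inl (Or.inr (Or.inr (Or.inl ⟨rfl, hb2⟩)))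
    · exact absurd rfl hne

end SM4_

open SM4_ in
theorem sm4_proof (hL : Stmt_LEF) (hT : Stmt_TRI) (hU : Stmt_UNC) (hS : Stmt_SUB) :
    Stmt_SM4 := by
  classical
  intro V P S hP hc
  have hcase : S.card ≤ 1 ∨ S.card = 2 ∨ S.card = 3 ∨ S.card = 4 := by omega
  rcases hcase with h | h | h | h
  · have : P = ⊥ := by
      ext u v
      constructor
      · intro huv
        have hu := hP u v huv
        have hv := hP v u huv.symm
        exact absurd (Finset.card_le_one.1 h u hu v hv) huv.ne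
      · intro huv
        exact absurd huv (by simp)
    rw [this]
    exact plan_bot
  · obtain ⟨x, a, hxa, rfl⟩ := Finset.card_eq_two.1 h
    obtain ⟨R, hR, hA, -⟩ := edge_rot x a hxa
    refine hS V R.P P ?_ ⟨R, rfl, hR⟩
    intro u v huv
    rw [hA]
    have hu := hP u v huv
    have hv := hP v u huv.symm
    have hne := huv.ne
    simp only [Finset.mem_insert, Finset.mem_singleton] at hu hv
    rcases hu with rfl | rfl <;> rcases hv with rfl | rfl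
    · exact absurd rfl hne
    · exact Or.inl ⟨rfl, rfl⟩
    · exact Or.inr ⟨rfl, rfl⟩
    · exact absurd rfl hne
  · obtain ⟨x, a, b, hxa, hxb, hab, rfl⟩ := Finset.card_eq_three.1 h
    obtain ⟨R, hR, hA, -, -⟩ := tri_rot hL hT x a b hxa hxb hab
    refine hS V R.P P ?_ ⟨R, rfl, hR⟩
    intro u v huv
    rw [hA]
    have hu := hP u v huv
    have hv := hP v u huv.symm
    have hne := huv.ne
    simp only [Finset.mem_insert, Finset.mem_singleton] at hu hv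
    rcases hu with rfl | rfl | rfl <;> rcases hv with rfl | rfl | rfl
    · exact absurd rfl hne
    · exact Or.inl (Or.inl (Or.inl ⟨rfl, rfl⟩))
    · exact Or.inl (Or.inr (Or.inl ⟨rfl, rfl⟩))
    · exact Or.inl (Or.inl (Or.inr ⟨rfl, rfl⟩))
    · exact absurd rfl hne
    · exact Or.inr (Or.inl ⟨rfl, rfl⟩)
    · exact Or.inl (Or.inr (Or.inr ⟨rfl, rfl⟩))
    · exact Or.inr (Or.inr ⟨rfl, rfl⟩)
    · exact absurd rfl hne
  · obtain ⟨y, T, hyT, rfl, hTc⟩ := Finset.card_eq_succ.1 h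
    obtain ⟨x, a, b, hxa, hxb, hab, rfl⟩ := Finset.card_eq_three.1 hTc
    simp only [Finset.mem_insert, Finset.mem_singleton, not_or] at hyT
    refine four hL hT hU hS P x a b y hxa hxb hab hyT.1 hyT.2.1 hyT.2.2 ?_
    intro u v huv
    have hu := hP u v huv
    simp only [Finset.mem_insert, Finset.mem_singleton] at hu
    rcases hu with h1 | h1 | h1 | h1
    · exact Or.inr (Or.inr (Or.inr h1))
    · exact Or.inl h1
    · exact Or.inr (Or.inl h1)
    · exact Or.inr (Or.inr (Or.inl h1))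

end Pool.Agent.KUR
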