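import Pool.Agent.KUR.Lib

/-!
Squad KUR, module TH3: Thomassen's contraction lemma.
-/

set_option autoImplicit false

namespace Pool.Agent.KUR

open Pool.Agent.ACC

namespace TH3_

variable {V : Type}

/-- the set `S` without three vertices -/
def St (S : Finset V) (a b c : V) : Set V := {w | w ∈ S ∧ w ≠ a ∧ w ≠ b ∧ w ≠ c}

theorem St_swap (S : Finset V) (a b c : V) : St S a b c = St S a c b := by
  ext w
  simp only [St, Set.mem_ofPred_eq]
  tauto

theorem nbr {G : SimpleGraph V} {S : Finset V}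
    (h3 : ∀ X : Finset V, X.card ≤ 2 → ∀ u ∈ S, ∀ v ∈ S, u ∉ X → v ∉ X →
      Rch G {w | w ∈ S ∧ w ∉ X} u v)
    (a b c u v : V) (hu : u ∈ St S a b c) (hv : v ∈ St S a b c)
    (hn : ¬ Rch G (St S a b c) u v) : ∃ t, Rch G (St S a b c) u t ∧ G.Adj t c := by
  classical
  by_contra hcon
  push Not at hcon
  have hu' : u ∉ ({a, b} : Finset V) := by
    simp [hu.2.1, hu.2.2.1]
  have hv' : v ∉ ({a, b} : Finset V) := by
    simp [hv.2.1, hv.2.2.1]
  have h := h3 {a, b} Finset.card_le_two u hu.1 v hv.1 hu' hv'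
  refine hn (h.closed {t | Rch G (St S a b c) u t} (Rch.refl G hu) ?_)
  intro t ht s hs hts
  have ht' : Rch G (St S a b c) u t := ht
  have hsc : s ≠ c := by
    rintro rfl
    exact hcon t ht' hts
  have hs1 : s ∈ S := hs.1
  have hs2 : s ∉ ({a, b} : Finset V) := hs.2
  simp only [Finset.mem_insert, Finset.mem_singleton, not_or] at hs2
  have hs3 : s ∈ St S a b c := ⟨hs1, hs2.1, hs2.2, hsc⟩
  exact Rch.trans ht' (Rch.of_adj ht'.right hs3 hts)

theorem main {G : SimpleGraph V} {S : Finset V}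
    (h3 : ∀ X : Finset V, X.card ≤ 2 → ∀ u ∈ S, ∀ v ∈ S, u ∉ X → v ∉ X →
      Rch G {w | w ∈ S ∧ w ∉ X} u v)
    (hbad : ∀ x y, G.Adj x y → ∃ z u v, u ∈ St S x y z ∧ v ∈ St S x y z ∧
      ¬ Rch G (St S x y z) u v) :
    ∀ n : ℕ, ∀ x y z u v, G.Adj x y → u ∈ St S x y z → v ∈ St S x y z →
      ¬ Rch G (St S x y z) u v → {t | Rch G (St S x y z) u t}.ncard = n → False := by
  intro n
  induction n using Nat.strong_induction_on with
  | _ n ih =>
    intro x y z u v hxy hu hv hn hcard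
    obtain ⟨v', hv'C, hv'z⟩ := nbr h3 x y z u v hu hv hn
    obtain ⟨w, u1, u2, hu1, hu2, hn12⟩ := hbad z v' hv'z.symm
    have key : ∀ a b p q, (p = x ∨ p = y) → (q = x ∨ q = y) →
        Rch G (St S z v' w) a p → Rch G (St S z v' w) b q → Rch G (St S z v' w) a b := by
      intro a b p q hp hq hap hbq
      have hpq : Rch G (St S z v' w) p q := by
        rcases hp with rfl | rfl <;> rcases hq with rfl | rfl
        · exact Rch.refl G hap.right
        · exact Rch.of_adj hap.right hbq.right hxy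
        · exact Rch.of_adj hap.right hbq.right hxy.symm
        · exact Rch.refl G hap.right
      exact (hap.trans hpq).trans hbq.symm
    obtain ⟨u0, v0, hu0, hv0, hn0, hx0, hy0⟩ : ∃ u0 v0, u0 ∈ St S z v' w ∧ v0 ∈ St S z v' w ∧
        ¬ Rch G (St S z v' w) u0 v0 ∧ ¬ Rch G (St S z v' w) u0 x ∧
        ¬ Rch G (St S z v' w) u0 y := by
      by_cases h1 : Rch G (St S z v' w) u1 x ∨ Rch G (St S z v' w) u1 y
      · refine ⟨u2, u1, hu2, hu1, fun h => hn12 h.symm, ?_, ?_⟩
        · intro h2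
          rcases h1 with h1 | h1
          · exact hn12 (key u1 u2 x x (Or.inl rfl) (Or.inl rfl) h1 h2)
          · exact hn12 (key u1 u2 y x (Or.inr rfl) (Or.inl rfl) h1 h2)
        · intro h2
          rcases h1 with h1 | h1
          · exact hn12 (key u1 u2 x y (Or.inl rfl) (Or.inr rfl) h1 h2)
          · exact hn12 (key u1 u2 y y (Or.inr rfl) (Or.inr rfl) h1 h2)
      · push Not at h1
        exact ⟨u1, u2, hu1, hu2, hn12, h1.1, h1.2⟩
    obtain ⟨t, htD, htv⟩ : ∃ t, Rch G (St S z v' w) u0 t ∧ G.Adj t v' := by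
      have h := nbr h3 z w v' u0 v0 (by rw [St_swap]; exact hu0) (by rw [St_swap]; exact hv0)
        (by rw [St_swap]; exact hn0)
      rw [St_swap] at h
      exact h
    have hDmem : ∀ d, Rch G (St S z v' w) u0 d → d ∈ St S x y z := by
      intro d hd
      have h1 := hd.right
      refine ⟨h1.1, ?_, ?_, h1.2.1⟩
      · rintro rfl
        exact hx0 hd
      · rintro rfl
        exact hy0 hd
    have hDC : ∀ d, Rch G (St S z v' w) u0 d → Rch G (St S x y z) u d := by
      intro d hd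
      have h1 : Rch G (St S x y z) u t :=
        Rch.trans hv'C (Rch.of_adj hv'C.right (hDmem t htD) htv.symm)
      have h2 : Rch G (St S z v' w) t d := htD.symm.trans hd
      have h3' : d ∈ {e | Rch G (St S z v' w) u0 e ∧ Rch G (St S x y z) u e} := by
        refine h2.closed _ ⟨htD, h1⟩ ?_
        rintro a ⟨ha1, ha2⟩ b hb hab
        have hb1 : Rch G (St S z v' w) u0 b := ha1.trans (Rch.of_adj ha1.right hb hab)
        exact ⟨hb1, ha2.trans (Rch.of_adj ha2.right (hDmem b hb1) hab)⟩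
      exact h3'.2
    have hfin : {t | Rch G (St S x y z) u t}.Finite := by
      refine (S.finite_toSet).subset ?_
      intro a ha
      have ha' : Rch G (St S x y z) u a := ha
      exact ha'.right.1
    have hlt : {t | Rch G (St S z v' w) u0 t}.ncard < n := by
      rw [← hcard]
      refine Set.ncard_lt_ncard ⟨fun d hd => hDC d hd, fun hcon => ?_⟩ hfin
      have h1 : Rch G (St S z v' w) u0 v' := hcon hv'C
      exact h1.right.2.2.1 rfl
    exact ih _ hlt z v' w u0 v0 hv'z.symm hu0 hv0 hn0 rfl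

end TH3_

theorem th3_proof : Stmt_TH3 := by
  intro V G S hS hcard h3
  by_contra hcon
  push Not at hcon
  have hbad : ∀ x y, G.Adj x y → ∃ z u v, u ∈ TH3_.St S x y z ∧ v ∈ TH3_.St S x y z ∧
      ¬ Rch G (TH3_.St S x y z) u v := by
    intro x y hxy
    obtain ⟨z, u, hu, v, hv, h1, h2, h3, h4, h5, h6, h7⟩ := hcon x y hxy
    exact ⟨z, u, v, ⟨hu, h1, h2, h3⟩, ⟨hv, h4, h5, h6⟩, h7⟩
  obtain ⟨u, hu, v, hv, huv⟩ := Finset.one_lt_card.mp (show 1 < S.card by omega)
  have h := h3 ∅ (by simp) u hu v hv (by simp) (by simp)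
  obtain ⟨a, b, -, -, -, -, hab, -⟩ := h.exit {u} rfl (fun h => huv h.symm)
  obtain ⟨z, p, q, hp, hq, hn⟩ := hbad a b hab
  exact TH3_.main h3 hbad _ a b z p q hab hp hq hn rfl

end Pool.Agent.KUR
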