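import Pool.Agent.KUR.Lib

/-!
Squad KUR, module TRI: closing a triangle at a corner of a planar rotation system.
-/

set_option autoImplicit false

namespace Pool.Agent.KUR

open Pool.Agent.ACC

namespace TRI_

variable {V : Type}

/-- the graph with the additional edge `a b` -/
def gr (P : SimpleGraph V) (a b : V) (hab : a ≠ b) : SimpleGraph V where
  Adj u v := P.Adj u v ∨ (u = a ∧ v = b) ∨ (u = b ∧ v = a)
  symm := ⟨by
    rintro u v (h | ⟨h1, h2⟩ | ⟨h1, h2⟩)
    · exact Or.inl h.symm
    · exact Or.inr (Or.inr ⟨h2, h1⟩)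
    · exact Or.inr (Or.inl ⟨h2, h1⟩)⟩
  loopless := ⟨by
    rintro u (h | ⟨h1, h2⟩ | ⟨h1, h2⟩)
    · exact P.loopless.irrefl _ h
    · exact hab (h1.symm.trans h2)
    · exact hab (h2.symm.trans h1)⟩

open Classical in
/-- the new rotation -/
noncomputable def nx' (R : Rot V) (x a b : V) (u v : V) : V :=
  if u = a then (if v = b then x else if R.nx a v = x then b else R.nx a v)
  else if u = b then (if v = x then a else if v = a then R.nx b x else R.nx b v)
  else R.nx u v

open Classical in
/-- the new colouring -/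
noncomputable def col (c : V → V → ZMod 2) (e : ZMod 2) (x a b : V) (u v : V) : ZMod 2 :=
  if u = a ∧ v = b then c a x else if u = b ∧ v = a then c a x + e
  else if u = a ∧ v = x then c a x + e else if u = x ∧ v = b then c x b + e else c u v

/-- the edges of the triangle -/
def tri (x a b u v : V) : Prop :=
  (u = a ∧ (v = b ∨ v = x)) ∨ (u = b ∧ (v = a ∨ v = x)) ∨ (u = x ∧ (v = a ∨ v = b))

theorem tri_symm {x a b u v : V} (h : tri x a b u v) : tri x a b v u := by
  unfold tri at *
  rcases h with ⟨h1, h2 | h2⟩ | ⟨h1, h2 | h2⟩ | ⟨h1, h2 | h2⟩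
  · exact Or.inr (Or.inl ⟨h2, Or.inl h1⟩)
  · exact Or.inr (Or.inr ⟨h2, Or.inl h1⟩)
  · exact Or.inl ⟨h2, Or.inl h1⟩
  · exact Or.inr (Or.inr ⟨h2, Or.inr h1⟩)
  · exact Or.inl ⟨h2, Or.inr h1⟩
  · exact Or.inr (Or.inl ⟨h2, Or.inr h1⟩)

open Classical in
/-- the indicator of the triangle times `e` -/
noncomputable def tf (e : ZMod 2) (x a b u v : V) : ZMod 2 := if tri x a b u v then e else 0

open Classical in
theorem sum2 {p q : V} (hpq : p ≠ q) (e : ZMod 2) (f : V → ZMod 2) (hp : f p = e)
    (hq : f q = e) (ho : ∀ y, y ≠ p → y ≠ q → f y = 0) : ∑ᶠ y, f y = 0 := by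
  rw [finsum_eq_sum_of_support_subset f (s := {p, q}) (by
    intro y hy
    by_contra h
    simp only [Finset.coe_insert, Finset.coe_singleton, Set.mem_insert_iff,
      Set.mem_singleton_iff, not_or] at h
    exact hy (ho y h.1 h.2)), Finset.sum_pair hpq, hp, hq]
  exact zadd_self e

theorem tf_even (P : SimpleGraph V) {x a b : V} (hab : a ≠ b) (hxa : P.Adj x a)
    (hxb : P.Adj x b) (e : ZMod 2) : EvenF (gr P a b hab) (tf e x a b) := by
  have hne1 : x ≠ a := hxa.ne
  have hne2 : x ≠ b := hxb.ne
  have h0 : ∀ {u v : V}, ¬ tri x a b u v → tf e x a b u v = 0 := fun h => if_neg h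
  have h1 : ∀ {u v : V}, tri x a b u v → tf e x a b u v = e := fun h => if_pos h
  refine ⟨?_, ?_, ?_, ?_⟩
  · intro u v
    by_cases h : tri x a b u v
    · rw [h1 h, h1 (tri_symm h)]
    · rw [h0 h, h0 (fun h' => h (tri_symm h'))]
  · intro u v h
    have ht : tri x a b u v := by
      by_contra h'
      exact h (h0 h')
    rcases ht with ⟨h2, h3 | h3⟩ | ⟨h2, h3 | h3⟩ | ⟨h2, h3 | h3⟩
    · exact Or.inr (Or.inl ⟨h2, h3⟩)
    · rw [h2, h3]
      exact Or.inl hxa.symm
    · exact Or.inr (Or.inr ⟨h2, h3⟩)
    · rw [h2, h3]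
      exact Or.inl hxb.symm
    · rw [h2, h3]
      exact Or.inl hxa
    · rw [h2, h3]
      exact Or.inl hxb
  · have hfin : (({a, b, x} : Set V) ×ˢ ({a, b, x} : Set V)).Finite := by
      apply Set.Finite.prod <;> simp
    refine hfin.subset ?_
    rintro ⟨u, v⟩ hp
    have ht : tri x a b u v := by
      by_contra h'
      exact hp (h0 h')
    simp only [Set.mem_prod, Set.mem_insert_iff, Set.mem_singleton_iff]
    rcases ht with ⟨h2, h3 | h3⟩ | ⟨h2, h3 | h3⟩ | ⟨h2, h3 | h3⟩ <;> simp [h2, h3]
  · intro u
    by_cases hua : u = a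
    · subst hua
      refine sum2 (p := b) (q := x) hne2.symm e _ (h1 (Or.inl ⟨rfl, Or.inl rfl⟩))
        (h1 (Or.inl ⟨rfl, Or.inr rfl⟩)) (fun y hy1 hy2 => h0 ?_)
      rintro (⟨_, h | h⟩ | ⟨h, _⟩ | ⟨h, _⟩)
      · exact hy1 h
      · exact hy2 h
      · exact hab h
      · exact hne1 h.symm
    · by_cases hub : u = b
      · subst hub
        refine sum2 (p := a) (q := x) hne1.symm e _ (h1 (Or.inr (Or.inl ⟨rfl, Or.inl rfl⟩)))
          (h1 (Or.inr (Or.inl ⟨rfl, Or.inr rfl⟩))) (fun y hy1 hy2 => h0 ?_)
        rintro (⟨h, _⟩ | ⟨_, h | h⟩ | ⟨h, _⟩)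
        · exact hua h
        · exact hy1 h
        · exact hy2 h
        · exact hne2 h.symm
      · by_cases hux : u = x
        · subst hux
          refine sum2 (p := a) (q := b) hab e _ (h1 (Or.inr (Or.inr ⟨rfl, Or.inl rfl⟩)))
            (h1 (Or.inr (Or.inr ⟨rfl, Or.inr rfl⟩))) (fun y hy1 hy2 => h0 ?_)
          rintro (⟨h, _⟩ | ⟨h, _⟩ | ⟨_, h | h⟩)
          · exact hua h
          · exact hub h
          · exact hy1 h
          · exact hy2 h
        · have : ∀ y, tf e x a b u y = 0 := by
            intro y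
            refine h0 ?_
            rintro (⟨h, _⟩ | ⟨h, _⟩ | ⟨h, _⟩)
            · exact hua h
            · exact hub h
            · exact hux h
          simp only [this, finsum_zero]

end TRI_

open TRI_ in
theorem tri_proof : Stmt_TRI := by
  intro V R x a b hR hxa hnx hab hnab
  have hxb : R.P.Adj x b := by
    rw [← hnx]
    exact R.nx_adj _ _ hxa
  have hnba : ¬ R.P.Adj b a := fun h => hnab h.symm
  have hxa' : x ≠ a := hxa.ne
  have hxb' : x ≠ b := hxb.ne
  have hba : b ≠ a := hab.symm
  have hP : ∀ {u v : V}, (gr R.P a b hab).Adj u v → R.P.Adj u v ∨ (u = a ∧ v = b) ∨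
      (u = b ∧ v = a) := fun h => h
  -- values of the new rotation
  have na_b : nx' R x a b a b = x := by
    unfold nx'
    rw [if_pos rfl, if_pos rfl]
  have na_x : ∀ {v : V}, v ≠ b → R.nx a v = x → nx' R x a b a v = b := by
    intro v h1 h2
    unfold nx'
    rw [if_pos rfl, if_neg h1, if_pos h2]
  have na_o : ∀ {v : V}, v ≠ b → R.nx a v ≠ x → nx' R x a b a v = R.nx a v := by
    intro v h1 h2
    unfold nx'
    rw [if_pos rfl, if_neg h1, if_neg h2]
  have nb_x : nx' R x a b b x = a := by
    unfold nx'
    rw [if_neg hba, if_pos rfl, if_pos rfl]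
  have nb_a : nx' R x a b b a = R.nx b x := by
    unfold nx'
    rw [if_neg hba, if_pos rfl, if_neg hxa'.symm, if_pos rfl]
  have nb_o : ∀ {v : V}, v ≠ x → v ≠ a → nx' R x a b b v = R.nx b v := by
    intro v h1 h2
    unfold nx'
    rw [if_neg hba, if_pos rfl, if_neg h1, if_neg h2]
  have n_o : ∀ {u v : V}, u ≠ a → u ≠ b → nx' R x a b u v = R.nx u v := by
    intro u v h1 h2
    unfold nx'
    rw [if_neg h1, if_neg h2]
  have hold : ∀ {u v : V}, u ≠ a → u ≠ b → (gr R.P a b hab).Adj u v → R.P.Adj u v := by
    intro u v h1 h2 h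
    rcases hP h with h | ⟨h, _⟩ | ⟨h, _⟩
    · exact h
    · exact absurd h h1
    · exact absurd h h2
  have holda : ∀ {v : V}, v ≠ b → (gr R.P a b hab).Adj a v → R.P.Adj a v := by
    intro v h1 h
    rcases hP h with h | ⟨_, h⟩ | ⟨h, _⟩
    · exact h
    · exact absurd h h1
    · exact absurd h hab
  have holdb : ∀ {v : V}, v ≠ a → (gr R.P a b hab).Adj b v → R.P.Adj b v := by
    intro v h1 h
    rcases hP h with h | ⟨h, _⟩ | ⟨_, h⟩
    · exact h
    · exact absurd h hba
    · exact absurd h h1
  have h1 : ∀ u v, (gr R.P a b hab).Adj u v → (gr R.P a b hab).Adj u (nx' R x a b u v) := by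
    intro u v h
    by_cases hua : u = a
    · subst hua
      by_cases hvb : v = b
      · subst hvb
        rw [na_b]
        exact Or.inl hxa.symm
      · by_cases hv : R.nx u v = x
        · rw [na_x hvb hv]
          exact Or.inr (Or.inl ⟨rfl, rfl⟩)
        · rw [na_o hvb hv]
          exact Or.inl (R.nx_adj _ _ (holda hvb h))
    · by_cases hub : u = b
      · subst hub
        by_cases hvx : v = x
        · subst hvx
          rw [nb_x]
          exact Or.inr (Or.inr ⟨rfl, rfl⟩)
        · by_cases hva : v = a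
          · subst hva
            rw [nb_a]
            exact Or.inl (R.nx_adj _ _ hxb.symm)
          · rw [nb_o hvx hva]
            exact Or.inl (R.nx_adj _ _ (holdb hva h))
      · rw [n_o hua hub]
        exact Or.inl (R.nx_adj _ _ (hold hua hub h))
  have h2 : ∀ u v z (T : Set V), (gr R.P a b hab).Adj u v → (gr R.P a b hab).Adj u z → v ∈ T →
      (∀ w ∈ T, (gr R.P a b hab).Adj u w → nx' R x a b u w ∈ T) → z ∈ T := by
    intro u v z T huv huz hvT hT
    by_cases hua : u = a
    · subst hua
      have key : ∀ w, R.P.Adj u w → w ∈ T → ∀ w', R.P.Adj u w' → w' ∈ T := by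
        intro w hw hwT w' hw'
        have := nx_closed R {s | R.P.Adj u s ∧ s ∈ T} hw hw' ⟨hw, hwT⟩ (by
          rintro s ⟨hs, hsT⟩ -
          refine ⟨R.nx_adj _ _ hs, ?_⟩
          have hsb : s ≠ b := fun h => hnab (h ▸ hs)
          by_cases hsx : R.nx u s = x
          · have h3 := hT s hsT (Or.inl hs)
            rw [na_x hsb hsx] at h3
            have h4 := hT b h3 (Or.inr (Or.inl ⟨rfl, rfl⟩))
            rw [na_b] at h4
            rw [hsx]
            exact h4
          · have h3 := hT s hsT (Or.inl hs)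
            rw [na_o hsb hsx] at h3
            exact h3)
        exact this.2
      have key2 : ∀ w', R.P.Adj u w' → w' ∈ T := by
        by_cases hvb : v = b
        · subst hvb
          have h4 := hT v hvT (Or.inr (Or.inl ⟨rfl, rfl⟩))
          rw [na_b] at h4
          exact key x hxa.symm h4
        · exact key v (holda hvb huv) hvT
      by_cases hzb : z = b
      · subst hzb
        obtain ⟨n, hn⟩ := R.cyc u (R.nx u x) x (R.nx_adj _ _ hxa.symm) hxa.symm
        rw [← Function.iterate_succ_apply, Function.iterate_succ_apply'] at hn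
        have hs := nx_iter_adj R hxa.symm n
        have h3 := hT _ (key2 _ hs) (Or.inl hs)
        rw [na_x (fun h => hnab (h ▸ hs)) hn] at h3
        exact h3
      · exact key2 z (holda hzb huz)
    · by_cases hub : u = b
      · subst hub
        have key : ∀ w, R.P.Adj u w → w ∈ T → ∀ w', R.P.Adj u w' → w' ∈ T := by
          intro w hw hwT w' hw'
          have := nx_closed R {s | R.P.Adj u s ∧ s ∈ T} hw hw' ⟨hw, hwT⟩ (by
            rintro s ⟨hs, hsT⟩ -
            refine ⟨R.nx_adj _ _ hs, ?_⟩
            have hsa : s ≠ a := fun h => hnba (h ▸ hs)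
            by_cases hsx : s = x
            · subst hsx
              have h3 := hT s hsT (Or.inl hs)
              rw [nb_x] at h3
              have h4 := hT a h3 (Or.inr (Or.inr ⟨rfl, rfl⟩))
              rw [nb_a] at h4
              exact h4
            · have h3 := hT s hsT (Or.inl hs)
              rw [nb_o hsx hsa] at h3
              exact h3)
          exact this.2
        have key2 : ∀ w', R.P.Adj u w' → w' ∈ T := by
          by_cases hva : v = a
          · subst hva
            have h4 := hT v hvT (Or.inr (Or.inr ⟨rfl, rfl⟩))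
            rw [nb_a] at h4
            exact key _ (R.nx_adj _ _ hxb.symm) h4
          · exact key v (holdb hva huv) hvT
        by_cases hza : z = a
        · subst hza
          have h3 := hT x (key2 x hxb.symm) (Or.inl hxb.symm)
          rw [nb_x] at h3
          exact h3
        · exact key2 z (holdb hza huz)
      · refine nx_closed R T (hold hua hub huv) (hold hua hub huz) hvT (fun w hwT hw => ?_)
        have h3 := hT w hwT (Or.inl hw)
        rw [n_o hua hub] at h3
        exact h3
  refine ⟨mkRot (gr R.P a b hab) (nx' R x a b) h1 h2, ?_, fun u v => Iff.rfl,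
    fun v _ => n_o hxa' hxb'⟩
  intro j hj
  have hj' : EvenF (gr R.P a b hab) j := hj
  obtain ⟨e, he⟩ : ∃ e, e = j a b := ⟨_, rfl⟩
  have ht1 : ∀ {u v : V}, tri x a b u v → tf e x a b u v = e := fun h => if_pos h
  have ht0 : ∀ {u v : V}, ¬ tri x a b u v → tf e x a b u v = 0 := fun h => if_neg h
  have hj0 := hj'.add (tf_even R.P hab hxa hxb e)
  have hjR : EvenF R.P (fun u v => j u v + tf e x a b u v) := by
    refine ⟨hj0.symm, fun u v h => ?_, hj0.fin, hj0.even⟩
    rcases hP (hj0.supp u v h) with h3 | ⟨h4, h5⟩ | ⟨h4, h5⟩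
    · exact h3
    · exfalso
      apply h
      rw [h4, h5]
      show j a b + tf e x a b a b = 0
      rw [ht1 (Or.inl ⟨rfl, Or.inl rfl⟩), ← he]
      exact zadd_self e
    · exfalso
      apply h
      rw [h4, h5]
      show j b a + tf e x a b b a = 0
      rw [ht1 (Or.inr (Or.inl ⟨rfl, Or.inl rfl⟩)), hj'.symm b a, ← he]
      exact zadd_self e
  obtain ⟨c, hc, hcj⟩ := hR _ hjR
  -- values of the new colouring
  have c_ab : col c e x a b a b = c a x := by
    unfold col
    rw [if_pos ⟨rfl, rfl⟩]
  have c_ba : col c e x a b b a = c a x + e := by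
    unfold col
    rw [if_neg (fun h => hba h.1), if_pos ⟨rfl, rfl⟩]
  have c_ax : col c e x a b a x = c a x + e := by
    unfold col
    rw [if_neg (fun h => hxb' h.2), if_neg (fun h => hab h.1), if_pos ⟨rfl, rfl⟩]
  have c_xb : col c e x a b x b = c x b + e := by
    unfold col
    rw [if_neg (fun h => hxa' h.1), if_neg (fun h => hxb' h.1), if_neg (fun h => hxa' h.1),
      if_pos ⟨rfl, rfl⟩]
  have c_o : ∀ {u v : V}, ¬ (u = a ∧ v = b) → ¬ (u = b ∧ v = a) → ¬ (u = a ∧ v = x) →
      ¬ (u = x ∧ v = b) → col c e x a b u v = c u v := by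
    intro u v h1 h2 h3 h4
    unfold col
    rw [if_neg h1, if_neg h2, if_neg h3, if_neg h4]
  have hcx : c x b = c a x := by
    have := hc a x hxa.symm
    rw [hnx] at this
    exact this
  refine ⟨col c e x a b, ?_, ?_⟩
  · intro u v huv
    have huv' : (gr R.P a b hab).Adj u v := huv
    show col c e x a b v (nx' R x a b v u) = col c e x a b u v
    by_cases hva : v = a
    · subst hva
      by_cases hub : u = b
      · subst hub
        rw [na_b, c_ax, c_ba]
      · have hvu : R.P.Adj v u := holda hub huv'.symm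
        have huv2 : c u v = col c e x v b u v := (c_o (fun h => hab h.2) (fun h => hub h.1)
          (fun h => hxa' h.2.symm) (fun h => hab h.2)).symm
        by_cases hux : R.nx v u = x
        · rw [na_x hub hux, c_ab, ← huv2]
          have := hc u v hvu.symm
          rw [hux] at this
          exact this
        · have hw := R.nx_adj _ _ hvu
          rw [na_o hub hux, ← huv2, c_o (fun h => hnab (h.2 ▸ hw)) (fun h => hab h.1)
            (fun h => hux h.2) (fun h => hxa' h.1.symm)]
          exact hc u v hvu.symm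
    · by_cases hvb : v = b
      · subst hvb
        by_cases hux : u = x
        · subst hux
          rw [nb_x, c_ba, c_xb, hcx]
        · by_cases hua : u = a
          · subst hua
            have hw := R.nx_adj _ _ hxb.symm
            rw [nb_a, c_ab, c_o (fun h => hba h.1) (fun h => hnba (h.2 ▸ hw))
              (fun h => hba h.1) (fun h => hxb' h.1.symm), hc x v hxb, hcx]
          · have hvu : R.P.Adj v u := holdb hua huv'.symm
            have hw := R.nx_adj _ _ hvu
            rw [nb_o hux hua, c_o (fun h => hba h.1) (fun h => hnba (h.2 ▸ hw))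
              (fun h => hba h.1) (fun h => hxb' h.1.symm), hc u v hvu.symm,
              c_o (fun h => hua h.1) (fun h => hba h.2) (fun h => hua h.1) (fun h => hux h.1)]
      · have hvu : R.P.Adj v u := hold hva hvb huv'.symm
        rw [n_o hva hvb]
        by_cases hvx : v = x
        · subst hvx
          by_cases hua : u = a
          · subst hua
            rw [hnx, c_xb, c_ax, hcx]
          · have hw : R.nx v u ≠ b := by
              intro h
              exact hua (nx_inj R hvu hxa (h.trans hnx.symm))
            rw [c_o (fun h => hva h.1) (fun h => hvb h.1) (fun h => hva h.1) (fun h => hw h.2),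
              hc u v hvu.symm, c_o (fun h => hua h.1) (fun h => hva h.2) (fun h => hua h.1)
              (fun h => hvb h.2)]
        · rw [c_o (fun h => hva h.1) (fun h => hvb h.1) (fun h => hva h.1) (fun h => hvx h.1),
            hc u v hvu.symm, c_o (fun h => hvb h.2) (fun h => hva h.2) (fun h => hvx h.2)
            (fun h => hvb h.2)]
  · intro u v huv
    have huv' : (gr R.P a b hab).Adj u v := huv
    have hz : ∀ p q r s : ZMod 2, p + q = r + s → p + s + q = r := by decide
    have hz' : ∀ p q r s : ZMod 2, p + q = r + s → p + (q + s) = r := by decide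
    have hz2 : ∀ p q : ZMod 2, p + (p + q) = q := by decide
    have hz3 : ∀ p q : ZMod 2, p + q + p = q := by decide
    rcases hP huv' with h3 | ⟨h4, h5⟩ | ⟨h4, h5⟩
    · have hcuv : c u v + c v u = j u v + tf e x a b u v := hcj u v h3
      by_cases ht : tri x a b u v
      · rw [ht1 ht] at hcuv
        rcases ht with ⟨h6, h7 | h7⟩ | ⟨h6, h7 | h7⟩ | ⟨h6, h7 | h7⟩
        · exact absurd (h6 ▸ h7 ▸ h3) hnab
        · subst h6
          subst h7
          rw [c_ax, c_o (fun h => hxa' h.1) (fun h => hxb' h.1) (fun h => hxa' h.1)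
            (fun h => hab h.2)]
          exact hz _ _ _ _ hcuv
        · exact absurd (h6 ▸ h7 ▸ h3) hnba
        · subst h6
          subst h7
          rw [c_xb, c_o (fun h => hba h.1) (fun h => hxa' h.2) (fun h => hba h.1)
            (fun h => hxb' h.2)]
          exact hz' _ _ _ _ hcuv
        · subst h6
          subst h7
          rw [c_ax, c_o (fun h => hxa' h.1) (fun h => hxb' h.1) (fun h => hxa' h.1)
            (fun h => hab h.2)]
          exact hz' _ _ _ _ hcuv
        · subst h6
          subst h7
          rw [c_xb, c_o (fun h => hba h.1) (fun h => hxa' h.2) (fun h => hba h.1)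
            (fun h => hxb' h.2)]
          exact hz _ _ _ _ hcuv
      · rw [ht0 ht, add_zero] at hcuv
        have ht' : ¬ tri x a b v u := fun h => ht (tri_symm h)
        have aux : ∀ {u v : V}, ¬ tri x a b u v → col c e x a b u v = c u v := by
          intro u v h
          refine c_o (fun h' => h ?_) (fun h' => h ?_) (fun h' => h ?_) (fun h' => h ?_)
          · exact Or.inl ⟨h'.1, Or.inl h'.2⟩
          · exact Or.inr (Or.inl ⟨h'.1, Or.inl h'.2⟩)
          · exact Or.inl ⟨h'.1, Or.inr h'.2⟩
          · exact Or.inr (Or.inr ⟨h'.1, Or.inr h'.2⟩)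
        rw [aux ht, aux ht']
        exact hcuv
    · subst h4
      subst h5
      rw [c_ab, c_ba, ← he]
      exact hz2 _ _
    · subst h4
      subst h5
      rw [c_ab, c_ba, hj'.symm, ← he]
      exact hz3 _ _

end Pool.Agent.KUR
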