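import Pool.Agent.KUR.Lib

/-!
Squad KUR, module UNC: splitting a vertex.
-/

set_option autoImplicit false

namespace Pool.Agent.KUR

open Pool.Agent.ACC

theorem unc_proof (h1 : Stmt_LEF) (h2 : Stmt_TRI) (h3 : Stmt_SLD) (h4 : Stmt_SUB) : Stmt_UNC := by
  intro V R x y u k s hP hxu hxy hiso hk hinj hs1 hsk
  have hadj : ∀ i, R.P.Adj x ((R.nx x)^[i] u) := fun i => nx_iter_adj R hxu i
  have hux : ∀ i, (R.nx x)^[i] u ≠ x := fun i h => (hadj i).ne h.symm
  have huy : ∀ i, (R.nx x)^[i] u ≠ y := fun i h => hiso x (by rw [← h]; exact (hadj i).symm)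
  have huu : ∀ i j, i ≤ s → s < j → j ≤ k → (j = k → 1 ≤ i) →
      (R.nx x)^[i] u ≠ (R.nx x)^[j] u := by
    intro i j hi hj hjk hik h
    rcases Nat.lt_or_ge j k with hlt | hge
    · have := hinj i j (by omega) hlt h
      omega
    · have hjk' : j = k := by omega
      subst hjk'
      rw [hk] at h
      have := hinj i 0 (by omega) (by omega) h
      have := hik rfl
      omega
  -- the leaf
  obtain ⟨R1, hP1, hA1, hn1, hn1y, hn1'⟩ := h1 V R x y ((R.nx x)^[s] u) hP (hadj s) hxy hiso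
  have hA1s : ∀ a b, R.P.Adj a b → R1.P.Adj a b := fun a b h => (hA1 a b).2 (Or.inl h)
  -- the triangle
  have hna : ¬ R1.P.Adj ((R.nx x)^[s] u) y := by
    rw [hA1]
    rintro (h | ⟨h, -⟩ | ⟨h, -⟩)
    · exact hiso _ h.symm
    · exact hux s h
    · exact huy s h
  obtain ⟨R2, hP2, hA2, hn2⟩ := h2 V R1 x ((R.nx x)^[s] u) y hP1 (hA1s _ _ (hadj s)) hn1 (huy s) hna
  have hA2' : ∀ a b, R2.P.Adj a b ↔ (R.P.Adj a b ∨ (a = x ∧ b = y) ∨ (a = y ∧ b = x)) ∨
      (a = (R.nx x)^[s] u ∧ b = y) ∨ (a = y ∧ b = (R.nx x)^[s] u) := by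
    intro a b
    rw [hA2, hA1]
  have hxy1 : R1.P.Adj x y := (hA1 x y).2 (Or.inr (Or.inl ⟨rfl, rfl⟩))
  have hxy2 : R2.P.Adj x y := (hA2 x y).2 (Or.inl hxy1)
  -- the iterates of the new rotation
  have it : ∀ j, 1 ≤ j → j ≤ k - s → (R2.nx x)^[j] y = (R.nx x)^[s + j] u := by
    intro j hj
    induction j, hj using Nat.le_induction with
    | base =>
      intro _
      show R2.nx x y = (R.nx x)^[s + 1] u
      rw [hn2 y hxy1, hn1y, Function.iterate_succ_apply']
    | succ j hj ih =>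
      intro hjk
      have hne : (R.nx x)^[s + j] u ≠ (R.nx x)^[s] u := by
        intro h
        have := hinj (s + j) s (by omega) (by omega) h
        omega
      rw [Function.iterate_succ_apply', ih (by omega), hn2 _ (hA1s _ _ (hadj _)),
        hn1' _ (hadj _) hne, ← Function.iterate_succ_apply' (R.nx x)]
      rfl
  have hbb : ∀ i, i ≤ k - s - 1 → (R2.nx x)^[i + 1] y = (R.nx x)^[s + (i + 1)] u :=
    fun i hi => it (i + 1) (by omega) (by omega)
  have c1 : ∀ i j, i ≤ k - s - 1 + 1 → j ≤ k - s - 1 + 1 →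
      (R2.nx x)^[i] y = (R2.nx x)^[j] y → i = j := by
    have key : ∀ i j, i < j → j ≤ k - s - 1 + 1 → (R2.nx x)^[i] y ≠ (R2.nx x)^[j] y := by
      intro i j hij hj h
      rw [it j (by omega) (by omega)] at h
      rcases Nat.eq_zero_or_pos i with hi0 | hi0
      · subst hi0
        exact huy (s + j) h.symm
      · rw [it i hi0 (by omega)] at h
        rcases Nat.lt_or_ge (s + j) k with hlt | hge
        · have := hinj (s + i) (s + j) (by omega) hlt h
          omega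
        · have hjk' : s + j = k := by omega
          rw [hjk', hk] at h
          have := hinj (s + i) 0 (by omega) (by omega) h
          omega
    intro i j hi hj h
    rcases Nat.lt_trichotomy i j with hlt | heq | hgt
    · exact absurd h (key i j hlt hj)
    · exact heq
    · exact absurd h.symm (key j i hgt hi)
  have c2 : ∀ i, i ≤ k - s - 1 → ¬ R2.P.Adj y ((R2.nx x)^[i + 1] y) := by
    intro i hi h
    rw [hbb i hi, hA2'] at h
    rcases h with (h | ⟨h, -⟩ | ⟨-, h⟩) | ⟨h, -⟩ | ⟨-, h⟩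
    · exact hiso _ h
    · exact hxy h.symm
    · exact hux _ h
    · exact huy s h.symm
    · exact huu s (s + (i + 1)) le_rfl (by omega) (by omega) (fun _ => hs1) h.symm
  obtain ⟨R3, hP3, hA3⟩ := h3 V (k - s - 1) R2 x y hP2 hxy2 c1 c2
  refine h4 V R3.P _ ?_ ⟨R3, rfl, hP3⟩
  have key : ∀ a b, a ≠ b → ((a ≠ x ∧ a ≠ y ∧ b ≠ x ∧ b ≠ y ∧ R.P.Adj a b) ∨
      (a = x ∧ b ∈ {v | ∃ i, i ≤ s ∧ v = (R.nx x)^[i] u}) ∨
      (a = y ∧ b ∈ {v | ∃ i, s ≤ i ∧ i ≤ k ∧ v = (R.nx x)^[i] u}) ∨ (a = x ∧ b = y)) →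
      R3.P.Adj a b := by
    rintro a b hab (⟨hax, hay, hbx, hby, h⟩ | ⟨ha, i, hi, hb⟩ | ⟨ha, i, hsi, hik, hb⟩ | ⟨ha, hb⟩)
    · rw [hA3]
      left
      refine ⟨(hA2' a b).2 (Or.inl (Or.inl h)), ?_⟩
      rintro ⟨j, hj, ⟨h5, -⟩ | ⟨h5, -⟩⟩
      · exact hax h5
      · exact hbx h5
    · rw [hA3]
      left
      subst ha
      subst hb
      refine ⟨(hA2' _ _).2 (Or.inl (Or.inl (hadj i))), ?_⟩
      rintro ⟨j, hj, ⟨-, h5⟩ | ⟨h5, -⟩⟩
      · rw [hbb j (by omega)] at h5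
        exact huu i (s + (j + 1)) hi (by omega) (by omega) (fun h => by omega) h5
      · exact hux i h5
    · rw [hA3]
      subst ha
      subst hb
      rcases Nat.eq_or_lt_of_le hsi with heq | hlt
      · left
        subst heq
        refine ⟨(hA2' _ _).2 (Or.inr (Or.inr ⟨rfl, rfl⟩)), ?_⟩
        rintro ⟨j, hj, ⟨h5, -⟩ | ⟨h5, -⟩⟩
        · exact hxy h5.symm
        · exact hux s h5
      · right
        refine ⟨i - s - 1, by omega, Or.inl ⟨rfl, ?_⟩⟩
        rw [hbb (i - s - 1) (by omega)]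
        congr 2
        omega
    · rw [hA3]
      left
      subst ha
      subst hb
      refine ⟨hxy2, ?_⟩
      rintro ⟨j, hj, ⟨-, h5⟩ | ⟨h5, -⟩⟩
      · rw [hbb j (by omega)] at h5
        exact huy _ h5.symm
      · exact hxy h5.symm
  intro a b hab
  rw [splitG, SimpleGraph.fromRel_adj] at hab
  obtain ⟨hne, h | h⟩ := hab
  · exact key a b hne h
  · exact (key b a hne.symm h).symm

end Pool.Agent.KUR
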