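import Pool.Agent.KUR.Lib

/-!
Squad KUR, module VIS: two equal darts at `z` cut the star of `z`.
-/

set_option autoImplicit false

namespace Pool.Agent.KUR

open Pool.Agent.ACC

namespace VIS_

variable {V : Type}

open Classical in
theorem par_cons (e : Sym2 V) (l : List (Sym2 V)) (x y : V) :
    par (e :: l) x y = par l x y + if e = s(x, y) then 1 else 0 := by
  unfold par
  rw [List.count_cons]
  by_cases h : e = s(x, y)
  · simp [h]
  · simp [h]

theorem par_nil (x y : V) : par ([] : List (Sym2 V)) x y = 0 := by
  unfold par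
  simp

open Classical in
theorem par_append (l l' : List (Sym2 V)) (x y : V) :
    par (l ++ l') x y = par l x y + par l' x y := by
  unfold par
  rw [List.count_append]
  push_cast
  rfl

open Classical in
theorem par_zero {l : List (Sym2 V)} {x y : V} (h : s(x, y) ∉ l) : par l x y = 0 := by
  unfold par
  rw [List.count_eq_zero.mpr h]
  simp

end VIS_

theorem vis_proof (hWEV : Stmt_WEV) : Stmt_VIS := by
  classical
  intro V R z a X k m hPl hza hzX hk hinj hm0 hmk hc i l him hml hlk hiX hlX hRch
  obtain ⟨Q, hQ⟩ := hRch
  set u : ℕ → V := fun t => (R.nx z)^[t] a with hu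
  have hadj : ∀ t, R.P.Adj z (u t) := fun t => nx_iter_adj R hza t
  have hQz : z ∉ Q.support := by
    intro h
    have := hQ z h
    simp at this
  have hQX : ∀ x ∈ X, x ∉ Q.support := by
    intro x hx h
    have := hQ x h
    simp [hx] at this
  let W : R.P.Walk z z := SimpleGraph.Walk.cons (hadj i)
    (Q.append (SimpleGraph.Walk.cons (hadj l).symm SimpleGraph.Walk.nil))
  have hWe : W.edges = s(z, u i) :: (Q.edges ++ [s(u l, z)]) := by
    simp [W, hu, SimpleGraph.Walk.edges_append]
  have hev := hWEV V R.P z W
  obtain ⟨c, hcI, hcb⟩ := hPl _ hev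
  have hX : ∀ x ∈ X, ∀ y, R.P.Adj x y → c x y = c y x := by
    intro x hx y hxy
    apply zeq_of_add
    rw [hcb x y hxy]
    apply VIS_.par_zero
    rw [hWe]
    intro hmem
    have hxz : x ≠ z := by rintro rfl; exact hzX hx
    have hxi : x ≠ u i := by rintro rfl; exact hiX hx
    have hxl : x ≠ u l := by rintro rfl; exact hlX hx
    rcases List.mem_cons.mp hmem with h | h
    · rw [Sym2.eq_iff] at h
      rcases h with ⟨h1, _⟩ | ⟨h1, _⟩
      · exact hxz h1
      · exact hxi h1
    · rcases List.mem_append.mp h with h | h
      · exact hQX x hx (Q.fst_mem_support_of_mem_edges h)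
      · rw [List.mem_singleton, Sym2.eq_iff] at h
        rcases h with ⟨h1, _⟩ | ⟨h1, _⟩
        · exact hxl h1
        · exact hxz h1
  have h0 : c z a = c z (u m) := hc c hcI hX
  have hstep : ∀ t, c z (u t) + c z (u (t + 1)) = par W.edges z (u t) := by
    intro t
    have h1 : u (t + 1) = R.nx z (u t) := by
      simp only [hu]
      rw [Function.iterate_succ_apply']
    rw [h1, hcI (u t) z (hadj t).symm, hcb z (u t) (hadj t)]
  have hsum : ∀ n, c z (u 0) + c z (u n) = ∑ t ∈ Finset.range n, par W.edges z (u t) := by
    intro n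
    induction n with
    | zero => simp [zadd_self]
    | succ n ih =>
      rw [Finset.sum_range_succ, ← ih, ← hstep n]
      have := zadd_self (c z (u n))
      linear_combination (-1 : ZMod 2) * this
  have hval : ∀ t, t < m → par W.edges z (u t) = if t = i then 1 else 0 := by
    intro t ht
    rw [hWe, VIS_.par_cons, VIS_.par_append, VIS_.par_cons, VIS_.par_nil,
      VIS_.par_zero (l := Q.edges) (fun h => hQz (Q.fst_mem_support_of_mem_edges h))]
    have hzt : z ≠ u t := (hadj t).ne
    have h1 : (s(z, u i) = s(z, u t)) ↔ t = i := by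
      constructor
      · intro h
        rw [Sym2.eq_iff] at h
        rcases h with ⟨_, h⟩ | ⟨h, _⟩
        · exact hinj t i (by omega) (by omega) h.symm
        · exact absurd h hzt
      · rintro rfl
        rfl
    have h2 : ¬ (s(u l, z) = s(z, u t)) := by
      intro h
      rw [Sym2.eq_iff] at h
      rcases h with ⟨_, h⟩ | ⟨h, _⟩
      · exact hzt h
      · have := hinj l t (by omega) (by omega) h
        omega
    simp only [h1, h2, if_false, add_zero, zero_add]
  have hfin := hsum m
  rw [Finset.sum_congr rfl (fun t ht => hval t (Finset.mem_range.mp ht)),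
    Finset.sum_ite_eq' (Finset.range m) i (fun _ => (1 : ZMod 2)),
    if_pos (Finset.mem_range.mpr him)] at hfin
  have h3 : c z (u 0) = c z (u m) := h0
  rw [h3, zadd_self] at hfin
  exact absurd hfin (by decide)

end Pool.Agent.KUR
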