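import Pool.Agent.KUR.Lib

/-!
# Squad KUR, module WEV: closed walks are even
-/

set_option autoImplicit false

namespace Pool.Agent.KUR

open Pool.Agent.ACC

namespace WEV_

variable {V : Type}

open Classical in
lemma par_eq (l : List (Sym2 V)) (x y : V) : par l x y = ((l.count s(x, y) : ℕ) : ZMod 2) := by
  have key : ∀ (i1 i2 : DecidableEq (Sym2 V)), @List.count _ (@instBEqOfDecidableEq _ i1) s(x, y) l =
      @List.count _ (@instBEqOfDecidableEq _ i2) s(x, y) l := by
    intro i1 i2
    rw [Subsingleton.elim i1 i2]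
  unfold par
  exact congrArg (fun n : ℕ => (n : ZMod 2)) (key _ _)

open Classical in
lemma par_cons (e : Sym2 V) (l : List (Sym2 V)) (x y : V) :
    par (e :: l) x y = par l x y + (if e = s(x, y) then 1 else 0) := by
  rw [par_eq, par_eq, List.count_cons]
  push_cast
  congr 1
  by_cases h : e = s(x, y) <;> simp [h]

lemma par_ne {l : List (Sym2 V)} {x y : V} (h : par l x y ≠ 0) : s(x, y) ∈ l := by
  classical
  by_contra hn
  apply h
  rw [par_eq, List.count_eq_zero_of_not_mem hn]
  simp

lemma par_fin {P : SimpleGraph V} {u v : V} (w : P.Walk u v) :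
    {p : V × V | par w.edges p.1 p.2 ≠ 0}.Finite := by
  classical
  refine ((w.support.toFinset ×ˢ w.support.toFinset : Finset (V × V)).finite_toSet).subset ?_
  intro p hp
  have h1 := par_ne hp
  rw [Finset.mem_coe, Finset.mem_product, List.mem_toFinset, List.mem_toFinset]
  exact ⟨w.fst_mem_support_of_mem_edges h1, w.snd_mem_support_of_mem_edges h1⟩

lemma par_fin1 {P : SimpleGraph V} {u v : V} (w : P.Walk u v) (z : V) :
    (Function.support (par w.edges z)).Finite :=
  ((par_fin w).image Prod.snd).subset (fun y hy => ⟨(z, y), hy, rfl⟩)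

open Classical in
lemma one_edge {a b : V} (hab : a ≠ b) (z : V) :
    (Function.support (fun y : V => (if s(a, b) = s(z, y) then (1 : ZMod 2) else 0))).Finite ∧
    ∑ᶠ y, (if s(a, b) = s(z, y) then (1 : ZMod 2) else 0) =
      (if z = a then 1 else 0) + (if z = b then 1 else 0) := by
  have hsub : (Function.support (fun y : V => (if s(a, b) = s(z, y) then (1 : ZMod 2) else 0))) ⊆
      (({a, b} : Finset V) : Set V) := by
    intro y hy
    rw [Function.mem_support] at hy
    have h1 : s(a, b) = s(z, y) := by
      by_contra hn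
      exact hy (if_neg hn)
    rw [Sym2.eq_iff] at h1
    rw [Finset.mem_coe, Finset.mem_insert, Finset.mem_singleton]
    rcases h1 with ⟨_, h⟩ | ⟨h, _⟩
    · exact Or.inr h.symm
    · exact Or.inl h.symm
  refine ⟨(Finset.finite_toSet _).subset hsub, ?_⟩
  rw [finsum_eq_sum_of_support_subset _ hsub, Finset.sum_pair hab]
  have e1 : (s(a, b) = s(z, a)) ↔ z = b := by
    rw [Sym2.eq_iff]
    constructor
    · rintro (⟨h1, h2⟩ | ⟨_, h2⟩)
      · exact absurd h2.symm hab
      · exact h2.symm
    · rintro rfl
      exact Or.inr ⟨rfl, rfl⟩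
  have e2 : (s(a, b) = s(z, b)) ↔ z = a := by
    rw [Sym2.eq_iff]
    constructor
    · rintro (⟨h1, _⟩ | ⟨h1, h2⟩)
      · exact h1.symm
      · exact absurd h1 hab
    · rintro rfl
      exact Or.inl ⟨rfl, rfl⟩
  simp only [e1, e2]
  rw [add_comm]

open Classical in
lemma sum_walk {P : SimpleGraph V} {u v : V} (w : P.Walk u v) (z : V) :
    ∑ᶠ y, par w.edges z y = (if z = u then 1 else 0) + (if z = v then 1 else 0) := by
  induction w with
  | @nil u =>
    rw [zadd_self]
    have : ∀ y, par (SimpleGraph.Walk.nil : P.Walk u u).edges z y = 0 := by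
      intro y
      rw [par_eq]
      simp
    simp only [this]
    exact finsum_zero
  | @cons a b c hab p ih =>
    have h1 : ∀ y, par (SimpleGraph.Walk.cons hab p).edges z y =
        par p.edges z y + (if s(a, b) = s(z, y) then (1 : ZMod 2) else 0) := by
      intro y
      rw [SimpleGraph.Walk.edges_cons, par_cons]
    obtain ⟨f1, f2⟩ := one_edge hab.ne z
    rw [finsum_congr h1, finsum_add_distrib (par_fin1 p z) f1, ih, f2]
    have := zadd_self (if z = b then (1 : ZMod 2) else 0)
    linear_combination this

end WEV_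

open WEV_ in
theorem wev_proof : Stmt_WEV := by
  intro V P x w
  refine ⟨?_, ?_, par_fin w, ?_⟩
  · intro a b
    classical
    rw [par_eq, par_eq, Sym2.eq_swap]
  · intro a b h
    exact w.adj_of_mem_edges (par_ne h)
  · intro z
    classical
    rw [sum_walk, zadd_self]

end Pool.Agent.KUR

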