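import Pool.Agent.KUR.A33
import Pool.Agent.KUR.A5
import Pool.Agent.KUR.ARC
import Pool.Agent.KUR.CMP
import Pool.Agent.KUR.CTR
import Pool.Agent.KUR.CYC
import Pool.Agent.KUR.DEL
import Pool.Agent.KUR.FAC
import Pool.Agent.KUR.GL1
import Pool.Agent.KUR.GL2
import Pool.Agent.KUR.KFI
import Pool.Agent.KUR.KTR
import Pool.Agent.KUR.KUR
import Pool.Agent.KUR.LEF
import Pool.Agent.KUR.MCT
import Pool.Agent.KUR.MON
import Pool.Agent.KUR.MSP
import Pool.Agent.KUR.SLD
import Pool.Agent.KUR.SM4
import Pool.Agent.KUR.SUB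
import Pool.Agent.KUR.TH3
import Pool.Agent.KUR.TRI
import Pool.Agent.KUR.UNC
import Pool.Agent.KUR.VIS
import Pool.Agent.KUR.WEV

/-!
Squad KUR: assembly.  A locally finite graph without `K_{3,3}` and `K_5` minors has a planar
rotation system.
-/

set_option autoImplicit false

namespace Pool.Agent.KUR

theorem kur : Stmt_KUR := by
  have hUNC : Stmt_UNC := unc_proof lef_proof tri_proof (sld_proof tri_proof del_proof) sub_proof
  have hFAC : Stmt_FAC := fac_proof (vis_proof wev_proof) cyc_proof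
  have hSM4 : Stmt_SM4 := sm4_proof lef_proof tri_proof hUNC sub_proof
  have hCTR : Stmt_CTR := ctr_proof cyc_proof hFAC hUNC sub_proof a33_proof a5_proof arc_proof
  have hKFI : Stmt_KFI := kfi_proof sub_proof gl1_proof gl2_proof hSM4 mon_proof mct_proof
    msp_proof th3_proof hCTR
  exact kur_proof mon_proof hKFI cmp_proof (ktr_proof wev_proof)

end Pool.Agent.KUR
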