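import Pool.Agent.KUR.Stmts

/-!
Squad KUR: basic lemmas on walks inside a set, connected sets, the auxiliary graphs.
-/

set_option autoImplicit false

namespace Pool.Agent.KUR

open Pool.Agent.ACC

variable {V : Type}

theorem Rch.refl (P : SimpleGraph V) {S : Set V} {x : V} (h : x ∈ S) : Rch P S x x :=
  ⟨SimpleGraph.Walk.nil, by simpa using h⟩

theorem Rch.symm {P : SimpleGraph V} {S : Set V} {x y : V} (h : Rch P S x y) : Rch P S y x := by
  obtain ⟨w, hw⟩ := h
  exact ⟨w.reverse, by simpa using hw⟩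

theorem Rch.trans {P : SimpleGraph V} {S : Set V} {x y z : V} (h : Rch P S x y)
    (h' : Rch P S y z) : Rch P S x z := by
  obtain ⟨w, hw⟩ := h
  obtain ⟨w', hw'⟩ := h'
  refine ⟨w.append w', fun v hv => ?_⟩
  rw [SimpleGraph.Walk.mem_support_append_iff] at hv
  exact hv.elim (hw v) (hw' v)

theorem Rch.mono {P Q : SimpleGraph V} {S T : Set V} {x y : V} (h : Rch P S x y) (hPQ : P ≤ Q)
    (hST : S ⊆ T) : Rch Q T x y := by
  obtain ⟨w, hw⟩ := h
  refine ⟨w.mapLe hPQ, fun v hv => hST (hw v ?_)⟩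
  simpa using hv

theorem Rch.left {P : SimpleGraph V} {S : Set V} {x y : V} (h : Rch P S x y) : x ∈ S := by
  obtain ⟨w, hw⟩ := h
  exact hw x w.start_mem_support

theorem Rch.right {P : SimpleGraph V} {S : Set V} {x y : V} (h : Rch P S x y) : y ∈ S := by
  obtain ⟨w, hw⟩ := h
  exact hw y w.end_mem_support

theorem Rch.of_adj {P : SimpleGraph V} {S : Set V} {x y : V} (hx : x ∈ S) (hy : y ∈ S)
    (h : P.Adj x y) : Rch P S x y :=
  ⟨h.toWalk, by simp [hx, hy]⟩

/-- induction along a walk inside `S` -/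
theorem Rch.closed {P : SimpleGraph V} {S : Set V} {x y : V} (h : Rch P S x y) (T : Set V)
    (hx : x ∈ T) (hT : ∀ u ∈ T, ∀ v ∈ S, P.Adj u v → v ∈ T) : y ∈ T := by
  obtain ⟨w, hw⟩ := h
  induction w with
  | nil => exact hx
  | @cons a b c hab p ih =>
    refine ih (hT a hx b (hw b ?_) hab) (fun z hz => hw z ?_)
    · simp
    · simp [hz]

/-- the predicate form: `y` is in every subset of `S` containing `x` which is closed under
adjacency in `S` -/
theorem rch_iff {P : SimpleGraph V} {S : Set V} {x y : V} (hx : x ∈ S) :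
    Rch P S x y ↔ ∀ T : Set V, x ∈ T → (∀ u ∈ T, ∀ v ∈ S, P.Adj u v → v ∈ T) → y ∈ T := by
  constructor
  · intro h T hxT hT
    exact h.closed T hxT hT
  · intro h
    have := h {z | Rch P S x z} (Rch.refl P hx) (fun u hu v hv huv =>
      Rch.trans hu (Rch.of_adj hu.right hv huv))
    exact this

/-- the first step outside: a walk inside `S` leaving `T` contains an edge leaving `T` -/
theorem Rch.exit {P : SimpleGraph V} {S : Set V} {x y : V} (h : Rch P S x y) (T : Set V)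
    (hx : x ∈ T) (hy : y ∉ T) : ∃ u v, u ∈ T ∧ v ∉ T ∧ u ∈ S ∧ v ∈ S ∧ P.Adj u v ∧
      Rch P (S ∩ T) x u := by
  by_contra hcon
  push Not at hcon
  have key : y ∈ {z | z ∈ T ∧ Rch P (S ∩ T) x z} := by
    refine h.closed _ ⟨hx, Rch.refl P ⟨h.left, hx⟩⟩ ?_
    rintro u ⟨huT, hu⟩ v hv huv
    by_cases hvT : v ∈ T
    · exact ⟨hvT, hu.trans (Rch.of_adj hu.right ⟨hv, hvT⟩ huv)⟩
    · exact absurd hu (hcon u v huT hvT hu.right.1 hv huv)
  exact hy key.1

theorem _root_.Pool.Agent.ACC.Cn.rch {P : SimpleGraph V} {S : Set V} (h : Cn P S) {x y : V} (hx : x ∈ S) (hy : y ∈ S) :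
    Rch P S x y := h.2 x hx y hy

theorem cn_singleton (P : SimpleGraph V) (x : V) : Cn P {x} :=
  ⟨⟨x, rfl⟩, by
    intro a ha b hb
    rw [Set.mem_singleton_iff] at ha hb
    subst ha
    subst hb
    exact Rch.refl P (Set.mem_singleton _)⟩

theorem _root_.Pool.Agent.ACC.Cn.mono {P Q : SimpleGraph V} {S : Set V} (h : Cn P S) (hPQ : P ≤ Q) : Cn Q S :=
  ⟨h.1, fun x hx y hy => (h.rch hx hy).mono hPQ subset_rfl⟩

theorem cn_of_rch {P : SimpleGraph V} {S : Set V} {x : V} (hx : x ∈ S)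
    (h : ∀ y ∈ S, Rch P S x y) : Cn P S :=
  ⟨⟨x, hx⟩, fun a ha b hb => (h a ha).symm.trans (h b hb)⟩

/-- the component of `x` in `S` -/
theorem cn_comp {P : SimpleGraph V} {S : Set V} {x : V} (hx : x ∈ S) :
    Cn P {y | Rch P S x y} := by
  have key : ∀ y, Rch P S x y → Rch P {y | Rch P S x y} x y := by
    intro y hy
    refine hy.closed {z | Rch P {y | Rch P S x y} x z} (Rch.refl P (Rch.refl P hx))
      (fun u hu v hv huv => ?_)
    have hu' : Rch P {y | Rch P S x y} x u := hu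
    have h1 : Rch P S x u := hu'.right
    have h2 : Rch P S x v := h1.trans (Rch.of_adj h1.right hv huv)
    exact Rch.trans hu' (Rch.of_adj h1 h2 huv)
  exact cn_of_rch (x := x) (Rch.refl P hx) key

theorem _root_.Pool.Agent.ACC.Cn.union {P : SimpleGraph V} {S T : Set V} (hS : Cn P S) (hT : Cn P T)
    (h : ∃ x ∈ S, ∃ y ∈ T, P.Adj x y ∨ x = y) : Cn P (S ∪ T) := by
  obtain ⟨x, hx, y, hy, hxy⟩ := h
  have hxy' : Rch P (S ∪ T) x y := by
    rcases hxy with h | rfl
    · exact Rch.of_adj (Or.inl hx) (Or.inr hy) h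
    · exact Rch.refl P (Or.inl hx)
  refine cn_of_rch (x := x) (Or.inl hx) ?_
  rintro z (hz | hz)
  · exact (hS.rch hx hz).mono le_rfl Set.subset_union_left
  · exact hxy'.trans ((hT.rch hy hz).mono le_rfl Set.subset_union_right)

theorem cn_iff (P : SimpleGraph V) (S : Set V) : Cn P S ↔ (P.induce S).Connected := by
  constructor
  · rintro ⟨⟨x, hx⟩, h⟩
    have : Nonempty S := ⟨⟨x, hx⟩⟩
    refine ⟨fun a b => ?_⟩
    have h1 : Rch P S a.1 b.1 := h a.1 a.2 b.1 b.2
    have h2 := h1.closed {z | ∃ hz : z ∈ S, (P.induce S).Reachable a ⟨z, hz⟩}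
      ⟨a.2, SimpleGraph.Reachable.refl _⟩ (by
        rintro u ⟨hu, hr⟩ v hv huv
        refine ⟨hv, hr.trans (SimpleGraph.Adj.reachable ?_)⟩
        simpa using huv)
    obtain ⟨_, h3⟩ := h2
    exact h3
  · intro h
    obtain ⟨x⟩ := h.nonempty
    refine ⟨⟨x.1, x.2⟩, fun a ha b hb => ?_⟩
    have key : ∀ (u v : S) (w : (P.induce S).Walk u v), Rch P S u.1 v.1 := by
      intro u v w
      induction w with
      | nil => exact Rch.refl P (Subtype.property _)
      | cons h p ih =>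
        exact Rch.trans (Rch.of_adj (Subtype.property _) (Subtype.property _) (by simpa using h)) ih
    obtain ⟨w⟩ := h.preconnected ⟨a, ha⟩ ⟨b, hb⟩
    exact key _ _ w

theorem rst_adj (P : SimpleGraph V) (A : Set V) (u v : V) :
    (rst P A).Adj u v ↔ u ∈ A ∧ v ∈ A ∧ P.Adj u v := Iff.rfl

theorem rst_le (P : SimpleGraph V) (A : Set V) : rst P A ≤ P := fun _ _ h => h.2.2

theorem contr_adj (G : SimpleGraph V) {x y : V} (hxy : x ≠ y) (u v : V) : (contr G x y).Adj u v ↔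
    u ≠ v ∧ u ≠ y ∧ v ≠ y ∧ (G.Adj u v ∨ (u = x ∧ G.Adj y v) ∨ (v = x ∧ G.Adj y u)) := by
  rw [contr, SimpleGraph.fromRel_adj]
  constructor
  · rintro ⟨hne, (⟨h1, h2, h3⟩ | ⟨h1, h2, h3⟩) | (⟨h1, h2, h3⟩ | ⟨h1, h2, h3⟩)⟩
    · exact ⟨hne, h1, h2, Or.inl h3⟩
    · exact ⟨hne, by rw [h1]; exact hxy, h2, Or.inr (Or.inl ⟨h1, h3⟩)⟩
    · exact ⟨hne, h2, h1, Or.inl h3.symm⟩
    · exact ⟨hne, h2, by rw [h1]; exact hxy, Or.inr (Or.inr ⟨h1, h3⟩)⟩
  · rintro ⟨hne, hu, hv, h | ⟨h1, h2⟩ | ⟨h1, h2⟩⟩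
    · exact ⟨hne, Or.inl (Or.inl ⟨hu, hv, h⟩)⟩
    · exact ⟨hne, Or.inl (Or.inr ⟨h1, hv, h2⟩)⟩
    · exact ⟨hne, Or.inr (Or.inr ⟨h1, hu, h2⟩)⟩

theorem edge_adj' {p q : V} (hpq : p ≠ q) (u v : V) : (SimpleGraph.edge p q).Adj u v ↔
    (u = p ∧ v = q) ∨ (u = q ∧ v = p) := by
  rw [SimpleGraph.edge_adj]
  constructor
  · rintro ⟨h, -⟩
    rcases h with ⟨h1, h2⟩ | ⟨h1, h2⟩
    · exact Or.inl ⟨h1, h2⟩
    · exact Or.inr ⟨h1, h2⟩
  · rintro (⟨h1, h2⟩ | ⟨h1, h2⟩)
    · subst h1; subst h2; exact ⟨Or.inl ⟨rfl, rfl⟩, hpq⟩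
    · subst h1; subst h2; exact ⟨Or.inr ⟨rfl, rfl⟩, hpq.symm⟩

/-- the neighbour function of a rotation system is injective on the neighbours -/
theorem nx_inj (R : Rot V) {x a b : V} (ha : R.P.Adj x a) (hb : R.P.Adj x b)
    (h : R.nx x a = R.nx x b) : a = b := by
  classical
  have hfin := R.fin_nb x
  have hmaps : Set.MapsTo (R.nx x) {y | R.P.Adj x y} {y | R.P.Adj x y} :=
    fun y hy => R.nx_adj x y hy
  have hsurj : Set.SurjOn (R.nx x) {y | R.P.Adj x y} {y | R.P.Adj x y} := by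
    intro y hy
    obtain ⟨n, hn⟩ := R.cyc x (R.nx x y) y (R.nx_adj x y hy) hy
    have hn' : (R.nx x)^[n + 1] y = y := by rw [Function.iterate_succ_apply]; exact hn
    rw [Function.iterate_succ_apply'] at hn'
    refine ⟨(R.nx x)^[n] y, ?_, hn'⟩
    have : ∀ m : ℕ, R.P.Adj x ((R.nx x)^[m] y) := by
      intro m
      induction m with
      | zero => exact hy
      | succ m ih => rw [Function.iterate_succ_apply']; exact R.nx_adj x _ ih
    exact this n
  have hinj : Set.InjOn (R.nx x) {y | R.P.Adj x y} := by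
    haveI : Finite {y | R.P.Adj x y} := hfin
    have h1 : Function.Surjective (hmaps.restrict (R.nx x) _ _) := by
      rintro ⟨y, hy⟩
      obtain ⟨z, hz, hzy⟩ := hsurj hy
      exact ⟨⟨z, hz⟩, Subtype.ext hzy⟩
    have h2 := Finite.injective_iff_surjective.mpr h1
    intro y hy z hz hyz
    have := @h2 ⟨y, hy⟩ ⟨z, hz⟩ (Subtype.ext hyz)
    exact congrArg Subtype.val this
  exact hinj ha hb h

theorem nx_iter_adj (R : Rot V) {x y : V} (h : R.P.Adj x y) (m : ℕ) :
    R.P.Adj x ((R.nx x)^[m] y) := by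
  induction m with
  | zero => exact h
  | succ m ih => rw [Function.iterate_succ_apply']; exact R.nx_adj x _ ih

/-- constructing a rotation system: it is enough that every subset of the neighbours of `x`
which is nonempty and closed under `nx x` is everything -/
def mkRot (P : SimpleGraph V) (nx : V → V → V) (h1 : ∀ x y, P.Adj x y → P.Adj x (nx x y))
    (h2 : ∀ x y z (T : Set V), P.Adj x y → P.Adj x z → y ∈ T →
      (∀ v ∈ T, P.Adj x v → nx x v ∈ T) → z ∈ T) : Rot V where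
  P := P
  nx := nx
  nx_adj := h1
  cyc := by
    intro x y y' hy hy'
    have hadj : ∀ m : ℕ, P.Adj x ((nx x)^[m] y) := by
      intro m
      induction m with
      | zero => exact hy
      | succ m ih => rw [Function.iterate_succ_apply']; exact h1 x _ ih
    have := h2 x y y' {v | ∃ n : ℕ, (nx x)^[n] y = v} hy hy' ⟨0, rfl⟩ (by
      rintro v ⟨n, rfl⟩ -
      exact ⟨n + 1, by rw [Function.iterate_succ_apply']⟩)
    exact this

/-- the converse: closed subsets of the neighbours are trivial -/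
theorem nx_closed (R : Rot V) {x y z : V} (T : Set V) (hy : R.P.Adj x y) (hz : R.P.Adj x z)
    (hyT : y ∈ T) (hT : ∀ v ∈ T, R.P.Adj x v → R.nx x v ∈ T) : z ∈ T := by
  obtain ⟨n, hn⟩ := R.cyc x y z hy hz
  rw [← hn]
  clear hn
  induction n with
  | zero => exact hyT
  | succ n ih =>
    rw [Function.iterate_succ_apply']
    exact hT _ ih (nx_iter_adj R hy n)

/-- the face permutation on darts -/
def fc (R : Rot V) (d : V × V) : V × V := (d.2, R.nx d.2 d.1)

theorem inv_fc {R : Rot V} {c : V → V → ZMod 2} (hc : R.Inv c) {d : V × V}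
    (hd : R.P.Adj d.1 d.2) : c (fc R d).1 (fc R d).2 = c d.1 d.2 := hc d.1 d.2 hd

theorem fc_adj (R : Rot V) {d : V × V} (hd : R.P.Adj d.1 d.2) :
    R.P.Adj (fc R d).1 (fc R d).2 := R.nx_adj _ _ hd.symm

theorem fc_inj (R : Rot V) {d e : V × V} (hd : R.P.Adj d.1 d.2) (he : R.P.Adj e.1 e.2)
    (h : fc R d = fc R e) : d = e := by
  obtain ⟨d1, d2⟩ := d
  obtain ⟨e1, e2⟩ := e
  simp only [fc, Prod.mk.injEq] at h
  obtain ⟨h1, h2⟩ := h
  subst h1
  have h3 : d1 = e1 := nx_inj R (SimpleGraph.Adj.symm hd) (SimpleGraph.Adj.symm he) h2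
  rw [h3]

theorem evenF_zero (P : SimpleGraph V) : EvenF P (fun _ _ => 0) :=
  ⟨fun _ _ => rfl, fun _ _ h => absurd rfl h, by simp, fun _ => by simp⟩

theorem EvenF.add {P : SimpleGraph V} {j k : V → V → ZMod 2} (hj : EvenF P j) (hk : EvenF P k) :
    EvenF P (fun x y => j x y + k x y) := by
  have hfj : ∀ x, (Function.support (j x)).Finite := fun x =>
    (hj.fin.image Prod.snd).subset (fun y hy => ⟨(x, y), hy, rfl⟩)
  have hfk : ∀ x, (Function.support (k x)).Finite := fun x =>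
    (hk.fin.image Prod.snd).subset (fun y hy => ⟨(x, y), hy, rfl⟩)
  refine ⟨fun x y => by rw [hj.symm x y, hk.symm x y], ?_, ?_, ?_⟩
  · intro x y h
    by_cases h1 : j x y = 0
    · refine hk.supp x y (fun h2 => h (by rw [h1, h2, add_zero]))
    · exact hj.supp x y h1
  · refine (hj.fin.union hk.fin).subset ?_
    intro p hp
    by_contra h
    simp only [Set.mem_union, Set.mem_ofPred_eq, not_or, not_not] at h hp
    exact hp (by rw [h.1, h.2, add_zero])
  · intro x
    have := finsum_add_distrib (hfj x) (hfk x)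
    rw [this, hj.even x, hk.even x, add_zero]

theorem EvenF.mono {P Q : SimpleGraph V} {j : V → V → ZMod 2} (hj : EvenF P j) (h : P ≤ Q) :
    EvenF Q j := ⟨hj.symm, fun x y hxy => h (hj.supp x y hxy), hj.fin, hj.even⟩

theorem zadd_self (a : ZMod 2) : a + a = 0 := CharTwo.add_self_eq_zero a

theorem zeq_of_add {a b : ZMod 2} (h : a + b = 0) : a = b := by
  revert a b; decide

end Pool.Agent.KUR
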