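import Pool.Agent.KUR.Lib

/-!
Squad KUR, module SUB: subgraphs of planar graphs are planar.
-/

set_option autoImplicit false

namespace Pool.Agent.KUR

open Pool.Agent.ACC

namespace SUB_

variable {V : Type}

open Classical in
/-- the first `Q`-neighbour after `y` in the rotation at `x` -/
noncomputable def nxt (R : Rot V) (Q : SimpleGraph V) (x y : V) : V :=
  if h : ∃ n : ℕ, Q.Adj x ((R.nx x)^[n + 1] y) then (R.nx x)^[Nat.find h + 1] y else R.nx x y

theorem exists_ret (R : Rot V) (Q : SimpleGraph V) (hQ : Q ≤ R.P) {x y : V} (h : Q.Adj x y) :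
    ∃ n : ℕ, Q.Adj x ((R.nx x)^[n + 1] y) := by
  obtain ⟨n, hn⟩ := R.cyc x (R.nx x y) y (R.nx_adj x y (hQ h)) (hQ h)
  exact ⟨n, by rw [Function.iterate_succ_apply, hn]; exact h⟩

theorem nxt_spec (R : Rot V) (Q : SimpleGraph V) (hQ : Q ≤ R.P) {x y : V} (h : Q.Adj x y) :
    ∃ n : ℕ, nxt R Q x y = (R.nx x)^[n + 1] y ∧ Q.Adj x ((R.nx x)^[n + 1] y) ∧
      ∀ m, m < n → ¬ Q.Adj x ((R.nx x)^[m + 1] y) := by
  classical
  have hex := exists_ret R Q hQ h
  refine ⟨Nat.find hex, ?_, Nat.find_spec hex, fun m hm => Nat.find_min hex hm⟩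
  rw [nxt, dif_pos hex]

/-- the rotation induced on a subgraph -/
noncomputable def rot (R : Rot V) (Q : SimpleGraph V) (hQ : Q ≤ R.P) : Rot V :=
  mkRot Q (nxt R Q)
    (by
      intro x y h
      obtain ⟨n, h1, h2, -⟩ := nxt_spec R Q hQ h
      rw [h1]
      exact h2)
    (by
      intro x y z T hy hz hyT hT
      have key := nx_closed R
        {v | ∃ u ∈ T, Q.Adj x u ∧ ∃ k : ℕ, (R.nx x)^[k] u = v ∧
          ∀ m, m < k → ¬ Q.Adj x ((R.nx x)^[m + 1] u)}
        (hQ hy) (hQ hz) ⟨y, hyT, hy, 0, rfl, fun m hm => absurd hm (Nat.not_lt_zero m)⟩ (by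
          rintro v ⟨u, huT, hu, k, rfl, hk⟩ -
          rw [← Function.iterate_succ_apply' (R.nx x) k u]
          by_cases hw : Q.Adj x ((R.nx x)^[k + 1] u)
          · obtain ⟨n, h1, h2, h3⟩ := nxt_spec R Q hQ hu
            have hnk : n = k := by
              rcases lt_trichotomy n k with h | h | h
              · exact absurd h2 (hk n h)
              · exact h
              · exact absurd hw (h3 k h)
            subst hnk
            have hT' := hT u huT hu
            rw [h1] at hT'
            exact ⟨_, hT', hw, 0, rfl, fun m hm => absurd hm (Nat.not_lt_zero m)⟩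
          · refine ⟨u, huT, hu, k + 1, rfl, fun m hm => ?_⟩
            rcases Nat.lt_succ_iff_lt_or_eq.mp hm with h | h
            · exact hk m h
            · rw [h]
              exact hw)
      obtain ⟨u, huT, hu, k, hk, hk2⟩ := key
      rcases Nat.eq_zero_or_pos k with h0 | h0
      · rw [h0] at hk
        have hk' : u = z := hk
        rw [← hk']
        exact huT
      · exfalso
        have := hk2 (k - 1) (by omega)
        rw [Nat.sub_add_cancel h0, hk] at this
        exact this hz)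

theorem rot_P (R : Rot V) (Q : SimpleGraph V) (hQ : Q ≤ R.P) : (rot R Q hQ).P = Q := rfl

theorem rot_nx (R : Rot V) (Q : SimpleGraph V) (hQ : Q ≤ R.P) : (rot R Q hQ).nx = nxt R Q := rfl

theorem main (P Q : SimpleGraph V) (h : Q ≤ P) (hP : Plan P) : Plan Q := by
  obtain ⟨R, rfl, hR⟩ := hP
  refine ⟨rot R Q h, rfl, ?_⟩
  intro j hj
  rw [rot_P] at hj
  obtain ⟨c, hc, hb⟩ := hR j (hj.mono h)
  refine ⟨c, ?_, fun x y hxy => hb x y (h hxy)⟩
  intro x y hxy
  rw [rot_P] at hxy
  rw [rot_nx]
  obtain ⟨n, h1, h2, h3⟩ := nxt_spec R Q h hxy.symm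
  rw [h1]
  have key : ∀ m, m ≤ n → c y ((R.nx y)^[m + 1] x) = c x y := by
    intro m
    induction m with
    | zero => intro _; exact hc x y (h hxy)
    | succ m ih =>
      intro hm
      have hm' : m < n := hm
      have ih' := ih hm'.le
      have hnQ := h3 m hm'
      have hadj : R.P.Adj y ((R.nx y)^[m + 1] x) := nx_iter_adj R (h hxy.symm) (m + 1)
      have hj0 : j y ((R.nx y)^[m + 1] x) = 0 := by
        by_contra hne
        exact hnQ (hj.supp _ _ hne)
      have hb' := hb y _ hadj
      rw [hj0] at hb'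
      have hinv := hc _ _ hadj.symm
      rw [Function.iterate_succ_apply', hinv, ← zeq_of_add hb', ih']
  exact key n le_rfl

end SUB_

theorem sub_proof : Stmt_SUB := fun _ P Q h hP => SUB_.main P Q h hP

end Pool.Agent.KUR
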