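import Pool.Agent.ACC.Rot

/-!
# Squad KUR (MP_851278_al): Kuratowski / Wagner theorem for rotation systems

A locally finite graph without `K_5` and `K_{3,3}` minors has a planar rotation system
(`Rot`, `Rot.Planar` of `Pool.Agent.ACC.Rot`).
Every module XXX proves `Stmt_XXX` (theorem `xxx_proof`), possibly from other statements.
All finite graphs live on one type `V` (isolated vertices are harmless).
-/

set_option autoImplicit false

namespace Pool.Agent.KUR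

open Pool.Agent.ACC

/-- an even, finitely supported, symmetric function on the edges of `P` -/
structure EvenF {V : Type} (P : SimpleGraph V) (j : V → V → ZMod 2) : Prop where
  symm : ∀ x y, j x y = j y x
  supp : ∀ x y, j x y ≠ 0 → P.Adj x y
  fin : {p : V × V | j p.1 p.2 ≠ 0}.Finite
  even : ∀ x, ∑ᶠ y, j x y = 0

/-- planarity with even functions instead of closed walks -/
def PlE {V : Type} (R : Rot V) : Prop :=
  ∀ j, EvenF R.P j → ∃ c, R.Inv c ∧ ∀ x y, R.P.Adj x y → c x y + c y x = j x y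

/-- planar graphs -/
def Plan {V : Type} (P : SimpleGraph V) : Prop := ∃ R : Rot V, R.P = P ∧ PlE R

/-- `x` and `y` are joined by a walk inside `S` -/
def Rch {V : Type} (P : SimpleGraph V) (S : Set V) (x y : V) : Prop :=
  ∃ w : P.Walk x y, ∀ z ∈ w.support, z ∈ S

/-- a `K_{3,3}` minor model -/
structure M33 {V : Type} (P : SimpleGraph V) (A B : Fin 3 → Set V) : Prop where
  ca : ∀ i, Cn P (A i)
  cb : ∀ i, Cn P (B i)
  da : ∀ i j, i ≠ j → Disjoint (A i) (A j)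
  db : ∀ i j, i ≠ j → Disjoint (B i) (B j)
  dab : ∀ i j, Disjoint (A i) (B j)
  adj : ∀ i j, ∃ x ∈ A i, ∃ y ∈ B j, P.Adj x y

/-- a `K_5` minor model -/
structure M5 {V : Type} (P : SimpleGraph V) (A : Fin 5 → Set V) : Prop where
  c : ∀ i, Cn P (A i)
  d : ∀ i j, i ≠ j → Disjoint (A i) (A j)
  adj : ∀ i j, i ≠ j → ∃ x ∈ A i, ∃ y ∈ A j, P.Adj x y

/-- `P` has a `K_{3,3}` minor -/
def Has33 {V : Type} (P : SimpleGraph V) : Prop := ∃ A B, M33 P A B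

/-- `P` has a `K_5` minor -/
def Has5 {V : Type} (P : SimpleGraph V) : Prop := ∃ A, M5 P A

/-- restriction of a graph to a vertex set (all other vertices become isolated) -/
def rst {V : Type} (P : SimpleGraph V) (A : Set V) : SimpleGraph V where
  Adj u v := u ∈ A ∧ v ∈ A ∧ P.Adj u v
  symm := ⟨fun _ _ h => ⟨h.2.1, h.1, h.2.2.symm⟩⟩
  loopless := ⟨fun _ h => P.loopless.irrefl _ h.2.2⟩

/-- contraction of the edge `x y` to `x`; `y` becomes isolated -/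
def contr {V : Type} (G : SimpleGraph V) (x y : V) : SimpleGraph V :=
  SimpleGraph.fromRel (fun u v => (u ≠ y ∧ v ≠ y ∧ G.Adj u v) ∨ (u = x ∧ v ≠ y ∧ G.Adj y v))

/-- the vertex `x` is split into the adjacent vertices `x` (with neighbours `A`) and `y`
(with neighbours `B`) -/
def splitG {V : Type} (P : SimpleGraph V) (x y : V) (A B : Set V) : SimpleGraph V :=
  SimpleGraph.fromRel (fun u v => (u ≠ x ∧ u ≠ y ∧ v ≠ x ∧ v ≠ y ∧ P.Adj u v) ∨
    (u = x ∧ v ∈ A) ∨ (u = y ∧ v ∈ B) ∨ (u = x ∧ v = y))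

/-- a ring of `k` connected sets `E i` joining `u i` to `u (i+1)`, disjoint except for the
common points -/
structure Ring {V : Type} (G : SimpleGraph V) (k : ℕ) (u : ℕ → V) (E : ℕ → Set V) : Prop where
  per : ∀ i, u (i + k) = u i
  perE : ∀ i, E (i + k) = E i
  inj : ∀ i j, i < k → j < k → u i = u j → i = j
  cn : ∀ i, Cn G (E i)
  l : ∀ i, u i ∈ E i
  r : ∀ i, u (i + 1) ∈ E i
  cap : ∀ i j z, i < k → j < k → i ≠ j → z ∈ E i → z ∈ E j →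
    (z = u (i + 1) ∧ (j = i + 1 ∨ j + k = i + 1)) ∨
    (z = u (j + 1) ∧ (i = j + 1 ∨ i + k = j + 1))

/-! ### A. Elementary operations on rotation systems -/

/-- Subgraphs of planar graphs are planar. -/
def Stmt_SUB : Prop := ∀ (V : Type) (P Q : SimpleGraph V), Q ≤ P → Plan P → Plan Q

/-- Enumeration of the neighbours by the rotation. -/
def Stmt_CYC : Prop := ∀ (V : Type) (R : Rot V) (x u : V), R.P.Adj x u →
  ∃ k : ℕ, 1 ≤ k ∧ (R.nx x)^[k] u = u ∧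
    (∀ i j, i < k → j < k → (R.nx x)^[i] u = (R.nx x)^[j] u → i = j) ∧
    ∀ v, R.P.Adj x v → ∃ i, i < k ∧ (R.nx x)^[i] u = v

/-- Deletion of one edge, with control of the rotation at one end. -/
def Stmt_DEL : Prop := ∀ (V : Type) (R : Rot V) (x b : V), PlE R → R.P.Adj x b →
  ∃ R' : Rot V, PlE R' ∧
    (∀ u v, R'.P.Adj u v ↔ R.P.Adj u v ∧ ¬ (u = x ∧ v = b) ∧ ¬ (u = b ∧ v = x)) ∧
    (∀ v, R.P.Adj x v → v ≠ b → R.nx x v ≠ b → R'.nx x v = R.nx x v) ∧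
    (∀ v, R.P.Adj x v → v ≠ b → R.nx x v = b → R'.nx x v = R.nx x b)

/-- Adding a leaf `y` at `x` after the neighbour `a`. -/
def Stmt_LEF : Prop := ∀ (V : Type) (R : Rot V) (x y a : V), PlE R → R.P.Adj x a → x ≠ y →
  (∀ z, ¬ R.P.Adj y z) →
  ∃ R' : Rot V, PlE R' ∧
    (∀ u v, R'.P.Adj u v ↔ R.P.Adj u v ∨ (u = x ∧ v = y) ∨ (u = y ∧ v = x)) ∧
    R'.nx x a = y ∧ R'.nx x y = R.nx x a ∧
    (∀ v, R.P.Adj x v → v ≠ a → R'.nx x v = R.nx x v)

/-- Closing a triangle at a corner. -/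
def Stmt_TRI : Prop := ∀ (V : Type) (R : Rot V) (x a b : V), PlE R → R.P.Adj x a →
  R.nx x a = b → a ≠ b → ¬ R.P.Adj a b →
  ∃ R' : Rot V, PlE R' ∧
    (∀ u v, R'.P.Adj u v ↔ R.P.Adj u v ∨ (u = a ∧ v = b) ∨ (u = b ∧ v = a)) ∧
    (∀ v, R.P.Adj x v → R'.nx x v = R.nx x v)

/-- Sliding the edges `x b_i` to `y b_i`. -/
def Stmt_SLD : Prop := ∀ (V : Type) (m : ℕ) (R : Rot V) (x y : V), PlE R → R.P.Adj x y →
  (∀ i j, i ≤ m + 1 → j ≤ m + 1 → (R.nx x)^[i] y = (R.nx x)^[j] y → i = j) →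
  (∀ i, i ≤ m → ¬ R.P.Adj y ((R.nx x)^[i + 1] y)) →
  ∃ R' : Rot V, PlE R' ∧ ∀ u v, R'.P.Adj u v ↔
    ((R.P.Adj u v ∧ ¬ ∃ i, i < m ∧ ((u = x ∧ v = (R.nx x)^[i + 1] y) ∨
        (v = x ∧ u = (R.nx x)^[i + 1] y))) ∨
      ∃ i, i ≤ m ∧ ((u = y ∧ v = (R.nx x)^[i + 1] y) ∨ (v = y ∧ u = (R.nx x)^[i + 1] y)))

/-- Splitting a vertex. -/
def Stmt_UNC : Prop := ∀ (V : Type) (R : Rot V) (x y u : V) (k s : ℕ), PlE R → R.P.Adj x u →
  x ≠ y → (∀ z, ¬ R.P.Adj y z) → (R.nx x)^[k] u = u →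
  (∀ i j, i < k → j < k → (R.nx x)^[i] u = (R.nx x)^[j] u → i = j) → 1 ≤ s → s < k →
  Plan (splitG R.P x y {v | ∃ i, i ≤ s ∧ v = (R.nx x)^[i] u}
    {v | ∃ i, s ≤ i ∧ i ≤ k ∧ v = (R.nx x)^[i] u})

/-- Gluing at one vertex (or disjoint union). -/
def Stmt_GL1 : Prop := ∀ (V : Type) (P Q : SimpleGraph V) (x : V), Plan P → Plan Q →
  (∀ a b c, P.Adj a b → Q.Adj a c → a = x) → Plan (P ⊔ Q)

/-- Gluing along an edge. -/
def Stmt_GL2 : Prop := ∀ (V : Type) (P Q : SimpleGraph V) (x y : V), Plan P → Plan Q →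
  P.Adj x y → Q.Adj x y → (∀ a b c, P.Adj a b → Q.Adj a c → a = x ∨ a = y) → Plan (P ⊔ Q)

/-- Graphs on at most four vertices are planar. -/
def Stmt_SM4 : Prop := ∀ (V : Type) (P : SimpleGraph V) (S : Finset V),
  (∀ u v, P.Adj u v → u ∈ S) → S.card ≤ 4 → Plan P

/-! ### B. Faces -/

/-- Closed walks are even. -/
def Stmt_WEV : Prop := ∀ (V : Type) (P : SimpleGraph V) (x : V) (w : P.Walk x x),
  EvenF P (par w.edges)

/-- Two darts at `z` with the same colours (for all colourings without boundary edges at `X`)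
cut the star of `z` into two parts which are not connected outside `X ∪ {z}`. -/
def Stmt_VIS : Prop := ∀ (V : Type) (R : Rot V) (z a : V) (X : Set V) (k m : ℕ), PlE R →
  R.P.Adj z a → z ∉ X → (R.nx z)^[k] a = a →
  (∀ i j, i < k → j < k → (R.nx z)^[i] a = (R.nx z)^[j] a → i = j) → 0 < m → m < k →
  (∀ c, R.Inv c → (∀ x ∈ X, ∀ y, R.P.Adj x y → c x y = c y x) →
    c z a = c z ((R.nx z)^[m] a)) →
  ∀ i l, i < m → m ≤ l → l < k → (R.nx z)^[i] a ∉ X → (R.nx z)^[l] a ∉ X →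
    ¬ Rch R.P (X ∪ {z})ᶜ ((R.nx z)^[i] a) ((R.nx z)^[l] a)

/-- The face sets around a vertex `x` such that `P - x` is 2-connected. -/
def Stmt_FAC : Prop := ∀ (V : Type) (R : Rot V) (x : V), PlE R →
  {p : V × V | R.P.Adj p.1 p.2}.Finite →
  (∀ u v, R.P.Adj x u → R.P.Adj x v → Rch R.P {x}ᶜ u v) →
  (∀ z, z ≠ x → ∀ u v, R.P.Adj z u → R.P.Adj z v → u ≠ x → v ≠ x → Rch R.P {x, z}ᶜ u v) →
  ∃ F : V → Set V, (∀ u, R.P.Adj x u → Cn R.P (F u) ∧ x ∉ F u ∧ u ∈ F u) ∧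
    (∀ a, R.P.Adj x a → a ∈ F (R.nx x a)) ∧
    ∀ u v z, R.P.Adj x u → R.P.Adj x v → u ≠ v → z ∈ F u → z ∈ F v →
      (z = u ∧ v = R.nx x z) ∨ (z = v ∧ u = R.nx x z)

/-! ### C. Minors -/

/-- Minors are monotone. -/
def Stmt_MON : Prop := ∀ (V : Type) (P Q : SimpleGraph V), P ≤ Q →
  (Has33 P → Has33 Q) ∧ (Has5 P → Has5 Q)

/-- Minors of a contraction. -/
def Stmt_MCT : Prop := ∀ (V : Type) (G : SimpleGraph V) (x y : V), G.Adj x y →
  (Has33 (contr G x y) → Has33 G) ∧ (Has5 (contr G x y) → Has5 G)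

/-- A virtual edge can be replaced by a connected set outside. -/
def Stmt_MSP : Prop := ∀ (V : Type) (G : SimpleGraph V) (A C : Set V) (p q : V), p ∈ A →
  q ∈ A → p ≠ q → Cn G C → Disjoint A C → (∃ c ∈ C, G.Adj p c) → (∃ c ∈ C, G.Adj q c) →
  (Has33 (rst G A ⊔ SimpleGraph.edge p q) → Has33 G) ∧
  (Has5 (rst G A ⊔ SimpleGraph.edge p q) → Has5 G)

/-- Alternating neighbours on a ring give `K_{3,3}`. -/
def Stmt_A33 : Prop := ∀ (V : Type) (G : SimpleGraph V) (k : ℕ) (u : ℕ → V) (E : ℕ → Set V)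
  (x y : V) (a b c d : ℕ), Ring G k u E → (∀ i, x ∉ E i) → (∀ i, y ∉ E i) → G.Adj x y →
  a < b → b < c → c < d → d < a + k → G.Adj x (u a) → G.Adj y (u b) → G.Adj x (u c) →
  G.Adj y (u d) → Has33 G

/-- Three common neighbours on a ring of length three give `K_5`. -/
def Stmt_A5 : Prop := ∀ (V : Type) (G : SimpleGraph V) (u : ℕ → V) (E : ℕ → Set V)
  (x y : V), Ring G 3 u E → (∀ i, x ∉ E i) → (∀ i, y ∉ E i) → G.Adj x y →
  (∀ i, G.Adj x (u i) ∧ G.Adj y (u i)) → Has5 G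

/-- Two subsets of a cycle without alternation are contained in two arcs (or both are everything
and the cycle has length three). -/
def Stmt_ARC : Prop := ∀ (k : ℕ) (A B : ℕ → Prop), 1 ≤ k → (∀ i, A (i + k) ↔ A i) →
  (∀ i, B (i + k) ↔ B i) → (∀ i, A i ∨ B i) → (∃ i j, i < j ∧ j < i + k ∧ A i ∧ A j) →
  (∃ i j, i < j ∧ j < i + k ∧ B i ∧ B j) →
  (¬ ∃ a b c d, a < b ∧ b < c ∧ c < d ∧ d < a + k ∧ A a ∧ B b ∧ A c ∧ B d) →
  (∃ r s, r < s ∧ s < r + k ∧ (∀ i, r ≤ i → i ≤ r + k → A i → i ≤ s ∨ i = r + k) ∧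
    (∀ i, r ≤ i → i ≤ r + k → B i → s ≤ i ∨ i = r)) ∨ (k = 3 ∧ ∀ i, A i ∧ B i)

/-- Thomassen's contraction lemma. -/
def Stmt_TH3 : Prop := ∀ (V : Type) (G : SimpleGraph V) (S : Finset V),
  (∀ u v, G.Adj u v → u ∈ S) → 5 ≤ S.card →
  (∀ X : Finset V, X.card ≤ 2 → ∀ u ∈ S, ∀ v ∈ S, u ∉ X → v ∉ X →
    Rch G {w | w ∈ S ∧ w ∉ X} u v) →
  ∃ x y, G.Adj x y ∧ ∀ z, ∀ u ∈ S, ∀ v ∈ S, u ≠ x → u ≠ y → u ≠ z → v ≠ x → v ≠ y → v ≠ z →
    Rch G {w | w ∈ S ∧ w ≠ x ∧ w ≠ y ∧ w ≠ z} u v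

/-- The induction step in the 3-connected case. -/
def Stmt_CTR : Prop := ∀ (V : Type) (G : SimpleGraph V) (S : Finset V) (x y : V),
  (∀ u v, G.Adj u v → u ∈ S) → G.Adj x y → Plan (contr G x y) →
  (∃ u v, u ≠ v ∧ u ≠ y ∧ v ≠ y ∧ G.Adj x u ∧ G.Adj x v) →
  (∃ u v, u ≠ v ∧ u ≠ x ∧ v ≠ x ∧ G.Adj y u ∧ G.Adj y v) →
  (∀ z, ∀ u ∈ S, ∀ v ∈ S, u ≠ x → u ≠ y → u ≠ z → v ≠ x → v ≠ y → v ≠ z →
    Rch G {w | w ∈ S ∧ w ≠ x ∧ w ≠ y ∧ w ≠ z} u v) →
  Plan G ∨ Has33 G ∨ Has5 G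

/-! ### D. The theorem -/

/-- Kuratowski's theorem for finite graphs. -/
def Stmt_KFI : Prop := ∀ (V : Type) (G : SimpleGraph V) (S : Finset V),
  (∀ u v, G.Adj u v → u ∈ S) → ¬ Has33 G → ¬ Has5 G → Plan G

/-- Compactness. -/
def Stmt_CMP : Prop := ∀ (V : Type) (P : SimpleGraph V), LocFin P →
  (∀ S : Finset V, Plan (rst P (S : Set V))) → Plan P

/-- From even functions to closed walks. -/
def Stmt_KTR : Prop := ∀ (V : Type) (R : Rot V), PlE R → R.Planar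

/-- THE THEOREM: Kuratowski's theorem for locally finite graphs. -/
def Stmt_KUR : Prop := ∀ (V : Type) (P : SimpleGraph V), LocFin P → ¬ Has33 P → ¬ Has5 P →
  ∃ R : Rot V, R.P = P ∧ R.Planar

end Pool.Agent.KUR
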